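import Pool.Agent.TH954.Descent
import Pool.Agent.TH954.NA

/-!
Project US (helper890), page MP_308fa9_nt: the statements of the pieces.

The number of the cocycles with values in the `ℓ`-torsion of an elliptic curve over `ℚ` which are
everywhere locally in the image of the Kummer map (outside the bad primes and `ℓ`) is at most
`exp (C ℓ ^ A)`, unconditionally.
-/

set_option autoImplicit false

namespace Pool.Agent.N890.US

open NumberField WeierstrassCurve Pool.Agent.TH942 Pool.Agent.TH954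

/-- the curve `y² = x³ + a x + b` over `ℚ` -/
abbrev EQ (a b : ℤ) : WeierstrassCurve ℚ := sw (a : ℚ) (b : ℚ)

/-- the discriminant of a number field inside the algebraic closure of `ℚ` -/
noncomputable def dF (F : IntermediateField ℚ (AlgebraicClosure ℚ)) [FiniteDimensional ℚ F] : ℤ :=
  haveI : NumberField F := @NumberField.mk _ _ inferInstance inferInstance
  NumberField.discr F

open scoped Classical in
/-- the class of `ξ` becomes over `ℚ_q` the class of the point `P` of `E(ℚ_q)` modulo `N` -/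
def LocAt (a b : ℤ) (N : ℕ)
    (ξ : (AlgebraicClosure ℚ ≃ₐ[ℚ] AlgebraicClosure ℚ) → AlgPt (EQ a b) ℚ) (q : ℕ) [Fact q.Prime]
    (P : ((EQ a b).baseChange ℚ_[q]).toAffine.Point) : Prop :=
  ∃ (ι : AlgebraicClosure ℚ →ₐ[ℚ] AlgebraicClosure ℚ_[q]) (Q : AlgPt (EQ a b) ℚ_[q]),
    N • Q = incl (EQ a b) ℚ_[q] P ∧
    ∀ σ τ, Compat ι σ τ → pm (EQ a b) ι (ξ τ) = act (EQ a b) σ Q - Q

open scoped Classical in
/-- the cocycles of level `l` with the local conditions at the primes not dividing `2 l Δ` -/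
def Zset (a b : ℤ) (l : ℕ) : Set ((AlgebraicClosure ℚ ≃ₐ[ℚ] AlgebraicClosure ℚ) →
    AlgPt (EQ a b) ℚ) :=
  {ξ | IsCocycle (EQ a b) ξ ∧ (∀ σ, l • ξ σ = 0) ∧
    ∀ (q : ℕ) [Fact q.Prime], ¬ ((q : ℤ) ∣ 2 * l * (4 * a ^ 3 + 27 * b ^ 2)) →
      ∃ P, LocAt a b l ξ q P}

/-! ### LF1: lifting of inertia, global -/

/-- LF1. If `q` ramifies in the Galois extension `F` and `𝔓` is a prime above `q` of the ring of all
algebraic integers, then some `τ` which stabilises `𝔓` and acts trivially modulo `𝔓` is not trivial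
on `F`. -/
def S_LF1 : Prop := ∀ (q : ℕ), q.Prime → ∀ (F : IntermediateField ℚ (AlgebraicClosure ℚ))
  [FiniteDimensional ℚ F] [IsGalois ℚ F], (q : ℤ) ∣ dF F →
  ∀ (𝔓 : Ideal (integralClosure ℤ (AlgebraicClosure ℚ))), 𝔓.IsPrime →
    ((q : ℕ) : integralClosure ℤ (AlgebraicClosure ℚ)) ∈ 𝔓 →
  ∃ τ : AlgebraicClosure ℚ ≃ₐ[ℚ] AlgebraicClosure ℚ,
    (∀ x y : integralClosure ℤ (AlgebraicClosure ℚ), (y : AlgebraicClosure ℚ) = τ x →
      y - x ∈ 𝔓) ∧ ∃ x ∈ F, τ x ≠ x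

/-! ### LF2: elements of the decomposition group are local -/

/-- LF2. `τ` acts trivially modulo the prime of the algebraic integers given by `ι`, so it is (on the
conjugates of one number `θ`) given by an element of the local Galois group. -/
def S_LF2 : Prop := ∀ (q : ℕ) [Fact q.Prime]
  (ι : AlgebraicClosure ℚ →ₐ[ℚ] AlgebraicClosure ℚ_[q])
  (τ : AlgebraicClosure ℚ ≃ₐ[ℚ] AlgebraicClosure ℚ),
  (∀ x : AlgebraicClosure ℚ, IsIntegral ℤ x → ‖ι (τ x) - ι x‖ < 1) →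
  ∀ θ : AlgebraicClosure ℚ, ∃ σ : AlgebraicClosure ℚ_[q] ≃ₐ[ℚ_[q]] AlgebraicClosure ℚ_[q],
    σ (ι θ) = ι (τ θ)

/-! ### LF3: residues -/

/-- LF3. Every integral element of the algebraic closure of `ℚ_q` is congruent to an algebraic
integer. -/
def S_LF3 : Prop := ∀ (q : ℕ) [Fact q.Prime]
  (ι : AlgebraicClosure ℚ →ₐ[ℚ] AlgebraicClosure ℚ_[q]) (x : AlgebraicClosure ℚ_[q]), ‖x‖ ≤ 1 →
  ∃ z : AlgebraicClosure ℚ, IsIntegral ℤ z ∧ ‖x - ι z‖ < 1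

/-- LIFT. If `q` ramifies in the Galois extension `F` there are compatible elements of the Galois
groups, `σ` acting trivially on the residues of the elements of `R` and `τ` not trivial on `F`. -/
def S_LIFT : Prop := ∀ (q : ℕ) [Fact q.Prime] (F : IntermediateField ℚ (AlgebraicClosure ℚ))
  [FiniteDimensional ℚ F] [IsGalois ℚ F]
  (ι : AlgebraicClosure ℚ →ₐ[ℚ] AlgebraicClosure ℚ_[q]), (q : ℤ) ∣ dF F →
  ∀ R : Finset (AlgebraicClosure ℚ_[q]), (∀ x ∈ R, ‖x‖ ≤ 1) →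
  ∃ (σ : AlgebraicClosure ℚ_[q] ≃ₐ[ℚ_[q]] AlgebraicClosure ℚ_[q])
    (τ : AlgebraicClosure ℚ ≃ₐ[ℚ] AlgebraicClosure ℚ), Compat ι σ τ ∧
    (∀ x ∈ R, ‖σ x - x‖ < 1) ∧ ∃ x ∈ F, τ x ≠ x

/-! ### NTOR: no torsion near the origin -/

open scoped Classical in
/-- NTOR. Torsion prime to the residue characteristic has integral coordinates. -/
def S_NTOR : Prop := ∀ (L : Type) [NormedField L] [IsUltrametricDist L] (W : WeierstrassCurve L),
  SI W → ‖(2 : L)‖ = 1 → ∀ l : ℕ, l.Prime → 2 < l → ‖(l : L)‖ = 1 →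
  ∀ (x y : L) (h : W.toAffine.Nonsingular x y), l • (Affine.Point.some x y h) = 0 → ‖x‖ ≤ 1

/-! ### UNR: the classes are unramified -/

open scoped Classical in
/-- UNR. The number field cut out by a cocycle of level `l` with the local condition at `q` is
unramified at `q`, if `q ∤ 2 l Δ`. -/
def S_UNR : Prop := ∀ (a b : ℤ), 4 * a ^ 3 + 27 * b ^ 2 ≠ 0 → ∀ l : ℕ, l.Prime → 2 < l →
  ∀ (q : ℕ) [Fact q.Prime], ¬ ((q : ℤ) ∣ 2 * l * (4 * a ^ 3 + 27 * b ^ 2)) →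
  ∀ (ξ : (AlgebraicClosure ℚ ≃ₐ[ℚ] AlgebraicClosure ℚ) → AlgPt (EQ a b) ℚ),
  IsCocycle (EQ a b) ξ → (∀ σ, l • ξ σ = 0) → (∃ P, LocAt a b l ξ q P) →
  ∀ (F : IntermediateField ℚ (AlgebraicClosure ℚ)) [FiniteDimensional ℚ F] [IsGalois ℚ F],
    (∀ τ, (∀ T : AlgPt (EQ a b) ℚ, l • T = 0 → act (EQ a b) τ T = T) → ξ τ = 0 →
      ∀ x ∈ F, τ x = x) →
    ¬ ((q : ℤ) ∣ dF F)

/-! ### DISC: the discriminant of a Galois extension with given ramified primes -/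

/-- DISC. -/
def S_DISC : Prop := ∀ (F : Type) [Field F] [NumberField F] [IsGalois ℚ F] (S : Finset ℕ),
  (∀ q ∈ S, q.Prime) → (∀ q : ℕ, q.Prime → q ∉ S → ¬ ((q : ℤ) ∣ NumberField.discr F)) →
  (NumberField.discr F).natAbs ≤ ∏ q ∈ S, (q * Module.finrank ℚ F) ^ Module.finrank ℚ F

/-! ### HERM: the theorem of Hermite with an explicit bound -/

/-- HERM. -/
def S_HERM : Prop := ∀ (n D : ℕ), 1 ≤ n → 1 ≤ D →
  {F : IntermediateField ℚ (AlgebraicClosure ℚ) | ∃ _ : FiniteDimensional ℚ F,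
    Module.finrank ℚ F ≤ n ∧ (dF F).natAbs ≤ D}.Finite ∧
  {F : IntermediateField ℚ (AlgebraicClosure ℚ) | ∃ _ : FiniteDimensional ℚ F,
    Module.finrank ℚ F ≤ n ∧ (dF F).natAbs ≤ D}.ncard ≤ (8 * D) ^ (40 * n ^ 3)

/-! ### FLD: the field cut out by a cocycle -/

open scoped Classical in
/-- FLD. The field cut out by the `l`-torsion and the cocycle `ξ`. -/
def S_FLD : Prop := ∀ (a b : ℤ), 4 * a ^ 3 + 27 * b ^ 2 ≠ 0 → ∀ l : ℕ, l.Prime →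
  ∀ (ξ : (AlgebraicClosure ℚ ≃ₐ[ℚ] AlgebraicClosure ℚ) → AlgPt (EQ a b) ℚ),
  IsCocycle (EQ a b) ξ → (∀ σ, l • ξ σ = 0) →
  ∃ (F : IntermediateField ℚ (AlgebraicClosure ℚ)) (_ : FiniteDimensional ℚ F), IsGalois ℚ F ∧
    Module.finrank ℚ F ≤ 8 * l ^ 6 ∧
    (∀ τ, (∀ T : AlgPt (EQ a b) ℚ, l • T = 0 → act (EQ a b) τ T = T) → ξ τ = 0 →
      ∀ x ∈ F, τ x = x) ∧
    ∀ σ τ, (∀ x ∈ F, σ x = τ x) → ξ σ = ξ τ

/-! ### CNT: the number of the cocycles -/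

/-- CNT. From UNR, DISC, HERM, FLD. -/
def S_CNT : Prop := ∀ (a b : ℤ), 4 * a ^ 3 + 27 * b ^ 2 ≠ 0 → ∃ A C : ℕ, ∀ l : ℕ, l.Prime → 2 < l →
  (Zset a b l).Finite ∧ ((Zset a b l).ncard : ℝ) ≤ Real.exp (C * (l : ℝ) ^ A)

/-! ### PRS: primes `p` such that `p + 1` has a large divisor with small prime factors -/

/-- PRS. From the theorem of Bombieri and Vinogradov. -/
def S_PRS : Prop := ∀ (M D K : ℕ), 0 < M → 0 < D → ∀ η : ℝ, 0 < η → η < 1 / 4 →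
  ∃ X₀ : ℝ, ∀ X : ℝ, X₀ ≤ X → ∃ (S : Finset ℕ) (N : ℕ), 1 ≤ N ∧ Squarefree N ∧
    (∀ l : ℕ, l.Prime → l ∣ N → K ≤ l ∧ (l : ℝ) ≤ X ^ η) ∧
    (∀ p ∈ S, p.Prime ∧ X ^ (1 - η) ≤ (p : ℝ) ∧ (p : ℝ) ≤ X ∧ ¬ p ∣ D ∧ M ∣ p + 1 ∧
      X ^ (1 / 2 - η) ≤ (Nat.gcd (p + 1) N : ℝ)) ∧
    X ^ (1 - η) ≤ (S.card : ℝ)

/-! ### COS: the size of the multiples of `m` in a finite group -/

/-- COS. -/
def S_COS : Prop := ∀ (G : Type) [AddCommGroup G] [Finite G] (m : ℕ), Squarefree m →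
  m ∣ Nat.card G → Nat.card (Set.range fun R : G => m • R) * m ≤ Nat.card G

/-! ### BOX: the sieve in a box with different densities -/

/-- BOX. -/
def S_BOX : Prop := ∀ (ι : Type) [Fintype ι] (T : Finset ℕ), (∀ p ∈ T, p.Prime) →
  ∀ (Ω : (p : ℕ) → Set (ι → ZMod p)) (θ : ℕ → ℝ), (∀ p ∈ T, 0 ≤ θ p) →
  (∀ p ∈ T, ((Ω p).ncard : ℝ) ≤ θ p * (p : ℝ) ^ Fintype.card ι) →
  ∀ H : ℕ, ∏ p ∈ T, p ≤ 2 * H + 1 →
  (({c : ι → ℤ | (∀ j, |c j| ≤ H) ∧ ∀ p ∈ T, (fun j => (c j : ZMod p)) ∈ Ω p}.ncard : ℕ) : ℝ) ≤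
    (2 * (2 * (H : ℝ) + 1)) ^ Fintype.card ι * ∏ p ∈ T, θ p

end Pool.Agent.N890.US
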