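import Mathlib
import Pool.Agent.N890.US.Stm

/-!
Project US (helper890), part DISC (helper458): the discriminant bound `|disc F| ≤ ∏ (q n)^n` for
Galois extensions of degree `n` unramified outside a finite set of primes (trace trick).
-/

set_option autoImplicit false
namespace Pool.Agent.N890.US.DISC

open NumberField UniqueFactorizationMonoid Pool.Agent.N890.US
open scoped Pointwise nonZeroDivisors

lemma dvd_of_pow {B : Type*} [CommRing B] [IsDedekindDomain B] {I J : Ideal B} (hI : I ≠ ⊥)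
    (hJ : J ≠ ⊥)
    (h : ∀ P : Ideal B, P.IsPrime → P ≠ ⊥ → ∀ j : ℕ, P ^ j ∣ I → P ^ j ∣ J) : I ∣ J := by
  classical
  rw [dvd_iff_normalizedFactors_le_normalizedFactors hI hJ, Multiset.le_iff_count]
  intro P
  by_cases hP : P ∈ normalizedFactors I
  · have hirr := irreducible_of_normalized_factor P hP
    have hn := normalize_normalized_factor P hP
    have h1 := emultiplicity_eq_count_normalizedFactors hirr hI
    have h2 := emultiplicity_eq_count_normalizedFactors hirr hJ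
    rw [hn] at h1 h2
    have h3 : P ^ (Multiset.count P (normalizedFactors I)) ∣ I := by
      apply pow_dvd_of_le_emultiplicity; rw [h1]
    have h0 : P ≠ ⊥ := hirr.ne_zero
    have hPp : P.IsPrime := Ideal.isPrime_of_prime (prime_of_normalized_factor P hP)
    have h4 := h P hPp h0 _ h3
    have := le_emultiplicity_of_pow_dvd h4
    rw [h2] at this
    exact_mod_cast this
  · simp [Multiset.count_eq_zero_of_notMem hP]

variable {F : Type} [Field F] [NumberField F]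

lemma inv_diff (σ : F ≃ₐ[ℚ] F) (I : Ideal (𝓞 F)) (hI : I ≠ ⊥)
    (h : differentIdeal ℤ (𝓞 F) ≤ I) : differentIdeal ℤ (𝓞 F) ≤ σ • I := by
  have hI' : σ • I ≠ ⊥ := by
    intro h0
    apply hI
    have : σ⁻¹ • (σ • I) = σ⁻¹ • (⊥ : Ideal (𝓞 F)) := by rw [h0]
    rw [inv_smul_smul] at this
    rw [this]
    exact smul_zero _
  rw [differentialIdeal_le_iff (K := ℚ) (L := F) hI] at h
  rw [differentialIdeal_le_iff (K := ℚ) (L := F) hI']
  rintro _ ⟨x, hx, rfl⟩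
  have hx' : x ∈ ((↑(σ • I) : FractionalIdeal (𝓞 F)⁰ F)⁻¹) := hx
  rw [FractionalIdeal.mem_inv_iff (by simpa using hI')] at hx'
  have h2 : σ.symm x ∈ ((↑I : FractionalIdeal (𝓞 F)⁰ F)⁻¹) := by
    rw [FractionalIdeal.mem_inv_iff (by simpa using hI)]
    intro y hy
    rw [FractionalIdeal.mem_coeIdeal] at hy
    obtain ⟨z, hz, rfl⟩ := hy
    have h3 : algebraMap (𝓞 F) F (σ • z) ∈ (↑(σ • I) : FractionalIdeal (𝓞 F)⁰ F) := by
      rw [FractionalIdeal.mem_coeIdeal]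
      exact ⟨_, Ideal.smul_mem_pointwise_smul _ _ _ hz, rfl⟩
    have h4 := hx' _ h3
    rw [FractionalIdeal.mem_one_iff] at h4 ⊢
    obtain ⟨w, hw⟩ := h4
    refine ⟨σ⁻¹ • w, ?_⟩
    have e1 : algebraMap (𝓞 F) F (σ⁻¹ • w) = σ.symm (algebraMap (𝓞 F) F w) := rfl
    have e2 : algebraMap (𝓞 F) F (σ • z) = σ (algebraMap (𝓞 F) F z) := rfl
    rw [e1, hw, e2, map_mul, AlgEquiv.symm_apply_apply]
  have h5 := h ⟨σ.symm x, h2, rfl⟩
  have e3 : (Algebra.trace ℚ F) (σ.symm x) = (Algebra.trace ℚ F) x :=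
    Algebra.trace_eq_of_algEquiv σ.symm x
  simpa [e3] using h5

lemma diff_ne_bot : differentIdeal ℤ (𝓞 F) ≠ ⊥ := by
  intro h
  have h1 := NumberField.absNorm_differentIdeal F (𝒪 := 𝓞 F)
  rw [h] at h1
  simp at h1
  exact NumberField.discr_ne_zero F (Int.natAbs_eq_zero.mp h1.symm)

lemma trace_part (q k : ℕ) (hq : 0 < q)
    (h : differentIdeal ℤ (𝓞 F) ≤ Ideal.span {((q : 𝓞 F)) ^ k}) :
    q ^ k ∣ Module.finrank ℚ F := by
  have hq0 : (q : 𝓞 F) ^ k ≠ 0 := pow_ne_zero _ (by exact_mod_cast hq.ne')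
  have hI : Ideal.span {((q : 𝓞 F)) ^ k} ≠ ⊥ := by
    rw [Ne, Ideal.span_singleton_eq_bot]; exact hq0
  rw [differentialIdeal_le_iff (K := ℚ) (L := F) hI] at h
  have hq1 : (q : F) ^ k ≠ 0 := pow_ne_zero _ (by exact_mod_cast hq.ne')
  have h2 : algebraMap ℚ F ((q : ℚ) ^ k)⁻¹ ∈
      ((↑(Ideal.span {((q : 𝓞 F)) ^ k}) : FractionalIdeal (𝓞 F)⁰ F)⁻¹) := by
    rw [FractionalIdeal.mem_inv_iff (FractionalIdeal.coeIdeal_ne_zero.mpr hI)]
    intro y hy
    rw [FractionalIdeal.mem_coeIdeal] at hy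
    obtain ⟨z, hz, rfl⟩ := hy
    rw [Ideal.mem_span_singleton] at hz
    obtain ⟨w, rfl⟩ := hz
    rw [FractionalIdeal.mem_one_iff]
    refine ⟨w, ?_⟩
    simp only [map_inv₀, map_pow, map_natCast, map_mul]
    field_simp
  have h5 := h ⟨_, h2, rfl⟩
  rw [LinearMap.restrictScalars_apply, Algebra.trace_algebraMap] at h5
  rw [Submodule.mem_one] at h5
  obtain ⟨m, hm⟩ := h5
  have hq2 : ((q : ℚ) ^ k) ≠ 0 := pow_ne_zero _ (by exact_mod_cast hq.ne')
  have h6 : (m : ℚ) * (q : ℚ) ^ k = (Module.finrank ℚ F : ℚ) := by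
    have : (m : ℚ) = Module.finrank ℚ F • ((q : ℚ) ^ k)⁻¹ := by simpa using hm
    rw [this]
    simp only [nsmul_eq_mul]
    field_simp
  have h7 : (m : ℤ) * (q : ℤ) ^ k = (Module.finrank ℚ F : ℤ) := by exact_mod_cast h6
  have h8 : ((q ^ k : ℕ) : ℤ) ∣ (Module.finrank ℚ F : ℤ) := ⟨m, by push_cast; rw [← h7]; ring⟩
  exact_mod_cast h8

lemma smul_span (σ : F ≃ₐ[ℚ] F) (q k : ℕ) :
    σ • (Ideal.span {((q : 𝓞 F)) ^ k}) = Ideal.span {((q : 𝓞 F)) ^ k} := by
  rw [Ideal.pointwise_smul_def, Ideal.map_span, Set.image_singleton, map_pow, map_natCast]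

/-- the local comparison -/
lemma loc [IsGalois ℚ F] (q k : ℕ) (hq : q.Prime) (hk : ¬ q ^ k ∣ Module.finrank ℚ F)
    (P : Ideal (𝓞 F)) (hP : P.IsPrime) (hP0 : P ≠ ⊥) (hqP : (q : 𝓞 F) ∈ P) (j : ℕ)
    (hj : P ^ j ∣ differentIdeal ℤ (𝓞 F)) : P ^ j ∣ Ideal.span {((q : 𝓞 F)) ^ k} := by
  by_contra hcon
  apply hk
  apply trace_part q k hq.pos
  rw [← Ideal.dvd_iff_le]
  have hq0 : (q : 𝓞 F) ^ k ≠ 0 := pow_ne_zero _ (by exact_mod_cast hq.ne_zero)
  have hI : Ideal.span {((q : 𝓞 F)) ^ k} ≠ ⊥ := by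
    rw [Ne, Ideal.span_singleton_eq_bot]; exact hq0
  apply dvd_of_pow hI diff_ne_bot
  intro Q hQ hQ0 i hi
  rcases Nat.eq_zero_or_pos i with h0 | hi0
  · subst h0; simp
  -- `Q` contains `q`
  have hqQ : (q : 𝓞 F) ∈ Q := by
    have h1 : Q ∣ Ideal.span {((q : 𝓞 F)) ^ k} := (dvd_pow_self Q hi0.ne').trans hi
    rw [Ideal.dvd_iff_le, Ideal.span_singleton_le_iff_mem] at h1
    exact hQ.mem_of_pow_mem _ h1
  -- both lie over `q`
  have hmax : (Ideal.span {(q : ℤ)}).IsMaximal := by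
    have : Fact q.Prime := ⟨hq⟩
    exact Int.ideal_span_isMaximal_of_prime q
  have key : ∀ R : Ideal (𝓞 F), R.IsPrime → (q : 𝓞 F) ∈ R → R.LiesOver (Ideal.span {(q : ℤ)}) := by
    intro R hR hqR
    refine ⟨?_⟩
    refine hmax.eq_of_le (hR.under ℤ).ne_top ?_
    rw [Ideal.span_singleton_le_iff_mem, Ideal.mem_comap]
    simpa using hqR
  have := key P hP hqP
  have := key Q hQ hqQ
  obtain ⟨σ, hσ⟩ := Ideal.exists_smul_eq_of_isGaloisGroup (Ideal.span {(q : ℤ)}) P Q (F ≃ₐ[ℚ] F)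
  have h2 : P ^ i ∣ Ideal.span {((q : 𝓞 F)) ^ k} := by
    rw [Ideal.dvd_iff_le]
    have h3 : σ⁻¹ • Ideal.span {((q : 𝓞 F)) ^ k} ≤ σ⁻¹ • (Q ^ i) := by
      rw [Ideal.pointwise_smul_le_pointwise_smul_iff]
      exact Ideal.dvd_iff_le.mp hi
    rw [smul_span, smul_pow', ← hσ, inv_smul_smul] at h3
    exact h3
  have hij : i < j := by
    by_contra h
    push Not at h
    exact hcon ((pow_dvd_pow P h).trans h2)
  have h4 : differentIdeal ℤ (𝓞 F) ≤ P ^ i :=
    Ideal.dvd_iff_le.mp ((pow_dvd_pow P hij.le).trans hj)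
  have h5 := inv_diff σ (P ^ i) (pow_ne_zero _ hP0) h4
  rw [smul_pow', hσ] at h5
  exact Ideal.dvd_iff_le.mpr h5

theorem disc_bound (F : Type) [Field F] [NumberField F] [IsGalois ℚ F] (S : Finset ℕ)
  (hS : ∀ q ∈ S, q.Prime) (hd : ∀ q : ℕ, q.Prime → q ∉ S → ¬ ((q : ℤ) ∣ NumberField.discr F)) :
  (NumberField.discr F).natAbs ≤ ∏ q ∈ S, (q * Module.finrank ℚ F) ^ Module.finrank ℚ F := by
  classical
  set n := Module.finrank ℚ F with hn
  have hn0 : n ≠ 0 := Module.finrank_pos.ne'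
  set m : ℕ := ∏ q ∈ S, q ^ (n.factorization q + 1) with hm
  have hm0 : m ≠ 0 := by
    rw [hm, Finset.prod_ne_zero_iff]
    intro q hq
    exact pow_ne_zero _ (hS q hq).ne_zero
  have hmI : Ideal.span {(m : 𝓞 F)} ≠ ⊥ := by
    rw [Ne, Ideal.span_singleton_eq_bot]; exact_mod_cast hm0
  have hdvd : differentIdeal ℤ (𝓞 F) ∣ Ideal.span {(m : 𝓞 F)} := by
    apply dvd_of_pow diff_ne_bot hmI
    intro P hP hP0 j hj
    rcases Nat.eq_zero_or_pos j with h0 | hj0
    · subst h0; simp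
    have hPD : P ∣ differentIdeal ℤ (𝓞 F) := (dvd_pow_self P hj0.ne').trans hj
    have : NeZero P := ⟨hP0⟩
    have := hP
    set q := Ideal.absNorm (Ideal.under ℤ P) with hq
    have hqp : q.Prime := Nat.absNorm_under_prime P
    have hqN : q ∣ Ideal.absNorm P := Int.absNorm_under_dvd_absNorm P
    have hqd : (q : ℤ) ∣ NumberField.discr F := by
      have h1 : Ideal.absNorm P ∣ Ideal.absNorm (differentIdeal ℤ (𝓞 F)) :=
        Ideal.absNorm_dvd_absNorm_of_le (Ideal.dvd_iff_le.mp hPD)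
      rw [NumberField.absNorm_differentIdeal F (𝒪 := 𝓞 F)] at h1
      exact Int.natCast_dvd.mpr (hqN.trans h1)
    have hqS : q ∈ S := by
      by_contra h
      exact hd q hqp h hqd
    have hqP : (q : 𝓞 F) ∈ P := by
      have := Int.absNorm_under_mem P
      simpa using this
    have h1 := loc q (n.factorization q + 1) hqp
      (Nat.pow_succ_factorization_not_dvd hn0 hqp) P hP hP0 hqP j hj
    refine h1.trans ?_
    rw [Ideal.dvd_iff_le, Ideal.span_singleton_le_span_singleton]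
    have h2 : q ^ (n.factorization q + 1) ∣ m := Finset.dvd_prod_of_mem _ hqS
    exact_mod_cast Nat.cast_dvd_cast h2
  have h1 : (NumberField.discr F).natAbs ∣ m ^ n := by
    have h2 := Ideal.absNorm_dvd_absNorm_of_le (Ideal.dvd_iff_le.mp hdvd)
    rw [NumberField.absNorm_differentIdeal F (𝒪 := 𝓞 F), Ideal.absNorm_span_singleton] at h2
    have h3 : (Algebra.norm ℤ ((m : ℕ) : 𝓞 F)).natAbs = m ^ n := by
      have h4 : ((m : ℕ) : 𝓞 F) = algebraMap ℤ (𝓞 F) (m : ℤ) := by simp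
      rw [h4, Algebra.norm_algebraMap, NumberField.RingOfIntegers.rank]
      simp [Int.natAbs_pow, hn]
    rwa [h3] at h2
  refine (Nat.le_of_dvd (pow_pos (Nat.pos_of_ne_zero hm0) _) h1).trans ?_
  rw [hm, ← Finset.prod_pow]
  apply Finset.prod_le_prod'
  intro q hq
  apply Nat.pow_le_pow_left
  rw [pow_succ, mul_comm]
  apply Nat.mul_le_mul_left
  exact Nat.le_of_dvd (Nat.pos_of_ne_zero hn0) (Nat.ordProj_dvd n q)

theorem t_DISC : S_DISC := fun F _ _ _ S hS hd => disc_bound F S hS hd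

end Pool.Agent.N890.US.DISC
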