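import Pool.Agent.N890.US.Stm
import Pool.Agent.TH954.STor

/-!
Project US (helper890), subtask 2509: the Selmer classes are unramified at the good primes (helper157).
-/

set_option autoImplicit false
set_option linter.unusedSectionVars false

namespace Pool.Agent.N890.US.UNR

open WeierstrassCurve Pool.Agent.H901R3.MS Pool.Agent.TH942 Pool.Agent.TH954 Pool.Agent.N890.US

/-- the place of an ultrametric normed field -/
lemma exists_place (L : Type) [NormedField L] [IsUltrametricDist L] :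
    ∃ (k : Type) (_ : Field k) (v : Place L k), (∀ x, x ∈ v.A ↔ ‖x‖ ≤ 1) ∧
      (∀ (x : L) (h : x ∈ v.A), v.ρ ⟨x, h⟩ = 0 ↔ ‖x‖ < 1) := by
  classical
  set V : ValuationSubring L := (NormedField.valuation (K := L)).valuationSubring with hV
  have hmem : ∀ x : L, x ∈ V ↔ ‖x‖ ≤ 1 := by
    intro x
    rw [hV, Valuation.mem_valuationSubring_iff, NormedField.valuation_apply]
    exact_mod_cast Iff.rfl
  have hres : ∀ x : V, IsLocalRing.residue V x = 0 ↔ ‖(x : L)‖ < 1 := by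
    intro x
    rw [IsLocalRing.residue_eq_zero_iff, IsLocalRing.mem_maximalIdeal, mem_nonunits_iff, not_iff_comm, not_lt]
    constructor
    · intro h1
      have hx0 : (x : L) ≠ 0 := by
        intro h0
        rw [h0, norm_zero] at h1
        linarith
      have h2 : (x : L)⁻¹ ∈ V := by
        rw [hmem, norm_inv]
        exact inv_le_one_of_one_le₀ h1
      exact IsUnit.of_mul_eq_one ⟨(x : L)⁻¹, h2⟩ (Subtype.ext (mul_inv_cancel₀ hx0))
    · intro hu
      obtain ⟨y, hy⟩ := hu.exists_right_inv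
      have h1 : ‖(x : L)‖ * ‖(y : L)‖ = 1 := by
        rw [← norm_mul]
        have := congrArg (fun z : V => (z : L)) hy
        simp only [MulMemClass.coe_mul, OneMemClass.coe_one] at this
        rw [this, norm_one]
      have h2 : ‖(y : L)‖ ≤ 1 := (hmem y).1 y.2
      nlinarith [norm_nonneg (x : L)]
  refine ⟨IsLocalRing.ResidueField V, inferInstance,
    { A := V.toSubring
      ρ := IsLocalRing.residue V
      inv_of_notMem := ?_
      inv_of_ne := ?_ }, fun x => hmem x, fun x h => hres ⟨x, h⟩⟩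
  · intro x hx
    have h1 : x⁻¹ ∈ V := (V.mem_or_inv_mem x).resolve_left hx
    refine ⟨h1, ?_⟩
    have := (hres ⟨x⁻¹, h1⟩).2
    apply this
    have h2 : ¬ ‖x‖ ≤ 1 := fun h => hx ((hmem x).2 h)
    rw [norm_inv]
    exact inv_lt_one_of_one_lt₀ (not_le.1 h2)
  · intro x hx
    have h1 : ¬ ‖(x : L)‖ < 1 := fun h => hx ((hres x).2 h)
    change (x : L)⁻¹ ∈ V
    rw [hmem, norm_inv]
    exact inv_le_one_of_one_le₀ (not_lt.1 h1)

open scoped Classical in
/-- the reduction homomorphism over an ultrametric normed field -/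
lemma exists_redN (L : Type) [NormedField L] [IsUltrametricDist L] (a b : L) (ha : ‖a‖ ≤ 1)
    (hb : ‖b‖ ≤ 1) (hD : ‖2 * (4 * a ^ 3 + 27 * b ^ 2)‖ = 1) (W : WeierstrassCurve L)
    (hW : W = CV a b) :
    ∃ (G : Type) (_ : AddCommGroup G) (red : W.toAffine.Point →+ G),
      (∀ x y (h : W.toAffine.Nonsingular x y), 1 < ‖x‖ → red (Affine.Point.some x y h) = 0) ∧
      (∀ x y (h : W.toAffine.Nonsingular x y), ‖x‖ ≤ 1 → ‖y‖ ≤ 1 ∧
        red (Affine.Point.some x y h) ≠ 0) ∧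
      (∀ x y (h : W.toAffine.Nonsingular x y) x' y' (h' : W.toAffine.Nonsingular x' y'), ‖x‖ ≤ 1 →
        ‖x' - x‖ < 1 → ‖y' - y‖ < 1 →
        red (Affine.Point.some x' y' h') = red (Affine.Point.some x y h)) := by
  subst hW
  obtain ⟨k, _, v, hA, hr⟩ := exists_place L
  have hrr : ∀ x : L, ‖x‖ ≤ 1 → (v.r x = 0 ↔ ‖x‖ < 1) := fun x hx => by
    rw [v.r_of ((hA x).2 hx)]; exact hr x _
  have ha' : a ∈ v.A := (hA a).2 ha
  have hb' : b ∈ v.A := (hA b).2 hb
  have h4 : (4 : L) ∈ v.A := by exact_mod_cast v.nat_mem 4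
  have h27 : (27 : L) ∈ v.A := by exact_mod_cast v.nat_mem 27
  have h2 : (2 : L) ∈ v.A := by exact_mod_cast v.nat_mem 2
  have r4 : v.r (4 : L) = 4 := by exact_mod_cast v.r_nat 4
  have r27 : v.r (27 : L) = 27 := by exact_mod_cast v.r_nat 27
  have hDisc : Disc (v.r a) (v.r b) := by
    unfold Disc
    have e : v.r (2 * (4 * a ^ 3 + 27 * b ^ 2)) = 2 * (4 * v.r a ^ 3 + 27 * v.r b ^ 2) := by
      rw [v.r_mul h2 (v.A.add_mem (v.A.mul_mem h4 (v.A.pow_mem ha' 3))
        (v.A.mul_mem h27 (v.A.pow_mem hb' 2))), v.r_add (v.A.mul_mem h4 (v.A.pow_mem ha' 3))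
        (v.A.mul_mem h27 (v.A.pow_mem hb' 2)), v.r_mul h4 (v.A.pow_mem ha' 3),
        v.r_mul h27 (v.A.pow_mem hb' 2), v.r_pow ha', v.r_pow hb', r4, r27, v.r_two]
    rw [← e]
    intro h0
    have := (hrr _ hD.le).1 h0
    linarith
  obtain ⟨red, hred0, hred1, hred2⟩ := t_R6K t_R1K t_R2K t_R3K t_R4K t_R5K L k v a b ha' hb' hDisc
  refine ⟨Pt (v.r a) (v.r b), inferInstance, red, ?_, ?_, ?_⟩
  · intro x y h hx
    exact hred1 x y h (fun hm => absurd ((hA x).1 hm) (not_le.2 hx))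
  · intro x y h hx
    obtain ⟨hy, g, e⟩ := hred2 x y h ((hA x).2 hx)
    refine ⟨(hA y).1 hy, ?_⟩
    rw [e]
    exact Affine.Point.some_ne_zero g
  · intro x y h x' y' h' hx hxx hyy
    have hx' : ‖x'‖ ≤ 1 := by
      have : x' = (x' - x) + x := by ring
      rw [this]
      exact uadd hxx.le hx
    obtain ⟨hy, g, e⟩ := hred2 x y h ((hA x).2 hx)
    obtain ⟨hy', g', e'⟩ := hred2 x' y' h' ((hA x').2 hx')
    have e1 : v.r x' = v.r x := by
      have := (hrr _ hxx.le).2 hxx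
      rw [v.r_sub ((hA x').2 hx') ((hA x).2 hx)] at this
      exact sub_eq_zero.1 this
    have e2 : v.r y' = v.r y := by
      have := (hrr _ hyy.le).2 hyy
      rw [v.r_sub hy' hy] at this
      exact sub_eq_zero.1 this
    rw [e, e', Affine.Point.some.injEq]
    exact ⟨e1, e2⟩

section padic

variable {q : ℕ} [Fact q.Prime]

lemma norm_int_eq_one {n : ℤ} (h : ¬ ((q : ℤ) ∣ n)) : ‖(n : AlgebraicClosure ℚ_[q])‖ = 1 := by
  have e : (n : AlgebraicClosure ℚ_[q]) = algebraMap ℚ_[q] (AlgebraicClosure ℚ_[q]) (n : ℚ_[q]) := by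
    rw [map_intCast]
  rw [e, PadicAlgCl.norm_extends]
  refine le_antisymm (Padic.norm_int_le_one n) ?_
  by_contra hc
  rw [not_le, Padic.norm_intCast_lt_one_iff] at hc
  exact h hc

lemma norm_int_le (n : ℤ) : ‖(n : AlgebraicClosure ℚ_[q])‖ ≤ 1 := by
  have e : (n : AlgebraicClosure ℚ_[q]) = algebraMap ℚ_[q] (AlgebraicClosure ℚ_[q]) (n : ℚ_[q]) := by
    rw [map_intCast]
  rw [e, PadicAlgCl.norm_extends]
  exact Padic.norm_int_le_one n

lemma norm_equiv (σ : AlgebraicClosure ℚ_[q] ≃ₐ[ℚ_[q]] AlgebraicClosure ℚ_[q])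
    (x : AlgebraicClosure ℚ_[q]) : ‖σ x‖ = ‖x‖ := by
  rw [← PadicAlgCl.spectralNorm_eq, ← PadicAlgCl.spectralNorm_eq]
  exact (spectralNorm_eq_of_equiv σ x).symm

end padic

/-- the coordinates of a point -/
def cx {L : Type} [Field L] {W : WeierstrassCurve L} : W.toAffine.Point → L × L
  | .zero => (0, 0)
  | .some x y _ => (x, y)

/-- the base change to the algebraic closure -/
noncomputable abbrev BW {K : Type} [Field K] (E : WeierstrassCurve K) (L : Type) [Field L] [Algebra K L] :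
    WeierstrassCurve (AlgebraicClosure L) := E.baseChange (AlgebraicClosure L)

open scoped Classical in
/-- the argument on the points -/
lemma core {K : Type} [Field K] {L : Type} [Field L] [Algebra K L] (E : WeierstrassCurve K)
    (N : AlgebraicClosure L → ℝ) {G : Type} [AddCommGroup G] (red : AlgPt E L →+ G)
    (hr1 : ∀ x y (h : (BW E L).toAffine.Nonsingular x y), 1 < N x →
      red (Affine.Point.some x y h) = 0)
    (hr2 : ∀ x y (h : (BW E L).toAffine.Nonsingular x y), N x ≤ 1 → N y ≤ 1)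
    (hr3 : ∀ x y (h : (BW E L).toAffine.Nonsingular x y) x' y'
      (h' : (BW E L).toAffine.Nonsingular x' y'), N x ≤ 1 → N (x' - x) < 1 → N (y' - y) < 1 →
        red (Affine.Point.some x' y' h') = red (Affine.Point.some x y h))
    (l : ℕ) (hA : ∀ U : AlgPt E L, l • U = 0 → red U = 0 → U = 0)
    (ι : AlgebraicClosure K →ₐ[K] AlgebraicClosure L) (Q : AlgPt E L)
    (P : (E.baseChange L).toAffine.Point) (hQ : l • Q = incl E L P)
    (hfin : {T : AlgPt E K | l • T = 0}.Finite) :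
    ∃ R : Finset (AlgebraicClosure L), (∀ x ∈ R, N x ≤ 1) ∧
      ∀ (σ : AlgebraicClosure L ≃ₐ[L] AlgebraicClosure L)
        (τ : AlgebraicClosure K ≃ₐ[K] AlgebraicClosure K), Compat ι σ τ →
        (∀ x, N (σ x) = N x) → (∀ x ∈ R, N (σ x - x) < 1) →
        (∀ T : AlgPt E K, l • T = 0 → act E τ T = T) ∧
        ∀ η : AlgPt E K, pm E ι η = act E σ Q - Q → η = 0 := by
  set pts : Set (AlgPt E L) := insert Q (pm E ι '' {T : AlgPt E K | l • T = 0}) with hpts
  have hptsf : pts.Finite := (hfin.image _).insert Q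
  have hR0 : ((fun p => (cx p).1) '' pts ∪ (fun p => (cx p).2) '' pts).Finite :=
    (hptsf.image _).union (hptsf.image _)
  set R : Finset (AlgebraicClosure L) := hR0.toFinset.filter (fun z => N z ≤ 1) with hR
  refine ⟨R, fun x hx => (Finset.mem_filter.1 hx).2, fun σ τ hcomp hN hσ => ?_⟩
  have hB : ∀ U ∈ pts, red (act E σ U) = red U := by
    intro U hU
    rcases U with _ | ⟨x, y, h⟩
    · rfl
    · obtain ⟨h', e⟩ := pm_some (E := E)
        ((σ : AlgebraicClosure L →ₐ[L] AlgebraicClosure L).restrictScalars K) h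
      unfold act
      rw [e]
      by_cases hx : N x ≤ 1
      · have hy := hr2 x y h hx
        have hxR : x ∈ R := by
          rw [hR, Finset.mem_filter, Set.Finite.mem_toFinset]
          exact ⟨Or.inl ⟨_, hU, rfl⟩, hx⟩
        have hyR : y ∈ R := by
          rw [hR, Finset.mem_filter, Set.Finite.mem_toFinset]
          exact ⟨Or.inr ⟨_, hU, rfl⟩, hy⟩
        exact hr3 x y h _ _ h' hx (hσ x hxR) (hσ y hyR)
      · rw [not_le] at hx
        rw [hr1 x y h hx]
        apply hr1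
        exact hx.trans_eq (hN x).symm
  have hlz : ∀ U ∈ pts, l • act E σ U = l • U → act E σ U - U = 0 := by
    intro U hU hz
    apply hA _ ?_
    · rw [map_sub, hB U hU, sub_self]
    · have e : l • (act E σ U - U) = l • act E σ U - l • U := nsmul_sub _ _ _
      rw [e, hz, sub_self]
  constructor
  · intro T hT
    have hmem : pm E ι T ∈ pts := Set.mem_insert_of_mem _ ⟨T, hT, rfl⟩
    have h1 := hlz _ hmem (by
      rw [← act_nsmul, ← map_nsmul, hT, map_zero]
      rfl)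
    rw [sub_eq_zero, act_pm ι hcomp] at h1
    exact pm_injective ι h1
  · intro η h2
    have hmem : Q ∈ pts := Set.mem_insert _ _
    have h1 := hlz _ hmem (by rw [← act_nsmul, hQ, act_incl])
    rw [h1] at h2
    apply pm_injective (E := E) ι
    rw [h2, map_zero]

section main

variable {q : ℕ} [Fact q.Prime]

lemma eW (a b : ℤ) : BW (EQ a b) ℚ_[q] = CV (a : AlgebraicClosure ℚ_[q]) (b : AlgebraicClosure ℚ_[q]) := by
  have h := base_eq (a : ℚ) (b : ℚ) (AlgebraicClosure ℚ_[q])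
  rw [map_intCast, map_intCast] at h
  exact h

lemma hSI (a b : ℤ) : SI (L := AlgebraicClosure ℚ_[q]) (BW (EQ a b) ℚ_[q]) := by
  have : SI (CV (a : AlgebraicClosure ℚ_[q]) (b : AlgebraicClosure ℚ_[q])) :=
    { h1 := rfl, h2 := rfl, h3 := rfl, ha := norm_int_le a, hb := norm_int_le b }
  rw [← eW] at this
  exact this

end main

open scoped Classical in
/-- UNR -/
theorem t_UNR : S_LIFT → S_NTOR → S_UNR := by
  intro hL hN a b hab l hl hl2 q _ hq ξ hξ hξl hP F _ _ hF hd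
  obtain ⟨P, ι, Q, hQ, hloc⟩ := hP
  have hq2 : ¬ ((q : ℤ) ∣ 2) := fun h => hq (Dvd.dvd.mul_right (Dvd.dvd.mul_right h _) _)
  have hql : ¬ ((q : ℤ) ∣ (l : ℤ)) := fun h => hq (Dvd.dvd.mul_right (Dvd.dvd.mul_left h _) _)
  have hqD : ¬ ((q : ℤ) ∣ 2 * (4 * a ^ 3 + 27 * b ^ 2)) := by
    intro h
    apply hq
    have : 2 * (l : ℤ) * (4 * a ^ 3 + 27 * b ^ 2) = 2 * (4 * a ^ 3 + 27 * b ^ 2) * l := by ring
    rw [this]
    exact Dvd.dvd.mul_right h _
  have hn2 : ‖(2 : AlgebraicClosure ℚ_[q])‖ = 1 := by exact_mod_cast norm_int_eq_one hq2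
  have hnl : ‖(l : AlgebraicClosure ℚ_[q])‖ = 1 := by exact_mod_cast norm_int_eq_one hql
  have hnD : ‖2 * (4 * (a : AlgebraicClosure ℚ_[q]) ^ 3 + 27 * (b : AlgebraicClosure ℚ_[q]) ^ 2)‖ = 1 := by
    have := norm_int_eq_one hqD
    push_cast at this
    exact this
  obtain ⟨G, _, red, hr1, hr2, hr3⟩ := exists_redN (AlgebraicClosure ℚ_[q]) a b (norm_int_le a)
    (norm_int_le b) hnD (BW (EQ a b) ℚ_[q]) (eW a b)
  -- fact A
  have hA : ∀ U : AlgPt (EQ a b) ℚ_[q], l • U = 0 → red U = 0 → U = 0 := by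
    intro U hU hr
    rcases U with _ | ⟨x, y, h⟩
    · rfl
    · have hx := hN _ _ (hSI a b) hn2 l hl hl2 hnl x y h hU
      exact absurd hr (hr2 x y h hx).2
  have hDQ : 4 * (a : ℚ) ^ 3 + 27 * (b : ℚ) ^ 2 ≠ 0 := by exact_mod_cast hab
  have hfin := (card_base_lt hDQ (AlgebraicClosure ℚ) hl.one_le).1
  obtain ⟨R, hR1, hR2⟩ := core (EQ a b) (fun x => ‖x‖) red hr1 (fun x y h hx => (hr2 x y h hx).1) hr3
    l hA ι Q P hQ hfin
  obtain ⟨σ, τ, hcomp, hσ, x₀, hx₀, hτ⟩ := hL q F ι hd R hR1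
  obtain ⟨h1, h2⟩ := hR2 σ τ hcomp (norm_equiv σ) hσ
  exact hτ (hF τ h1 (h2 _ (hloc σ τ hcomp)) x₀ hx₀)

end Pool.Agent.N890.US.UNR
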