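import Pool.Agent.N890.US.Core

/-! Project US (helper890): rational points give Selmer classes. -/

set_option autoImplicit false

namespace Pool.Agent.N890.US

open NumberField WeierstrassCurve Pool.Agent.TH942 Pool.Agent.TH954
open Pool.Agent.N89.CI Pool.Agent.N890.FD

open scoped Classical in
theorem crd_locHom {K : Type} [Field K] {L : Type} [Field L] [Algebra K L] (E : WeierstrassCurve K)
    (P : E.toAffine.Point) (j : Fin 3) :
    crd (locHom (L := L) E P) j = algebraMap K L (crd P j) := by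
  rcases P with _ | ⟨x, y, h⟩
  · change (![0, 1, 0] : Fin 3 → L) j = algebraMap K L ((![0, 1, 0] : Fin 3 → K) j)
    fin_cases j <;> simp
  · change (![algebraMap K L x, algebraMap K L y, 1] : Fin 3 → L) j =
      algebraMap K L ((![x, y, 1] : Fin 3 → K) j)
    fin_cases j <;> simp

open scoped Classical in
/-- the Kummer classes of the components of a rational point -/
theorem kummer_full {K : Type} [Field K] [CharZero K] {r : ℕ} (a b : Fin r → K)
    (hD : ∀ i, 4 * a i ^ 3 + 27 * b i ^ 2 ≠ 0) (N : ℕ) (hN : 1 ≤ N)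
    (P : ∀ i, (sw (a i) (b i)).toAffine.Point) :
    ∃ ξ : ∀ i : Fin r, (AlgebraicClosure K ≃ₐ[K] AlgebraicClosure K) →
      AlgPt (sw (a i) (b i)) K,
      (∀ i, IsCocycle (sw (a i) (b i)) (ξ i)) ∧ (∀ i σ, N • ξ i σ = 0) ∧
      ∀ (L : Type) [Field L] [Algebra K L],
        ∃ (ι₀ : AlgebraicClosure K →ₐ[K] AlgebraicClosure L)
          (Q : ∀ i, AlgPt (sw (a i) (b i)) L),
          (∀ i, N • Q i = incl (sw (a i) (b i)) L (locHom (L := L) (sw (a i) (b i)) (P i))) ∧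
          ∀ i σ τ, Compat ι₀ σ τ → pm (sw (a i) (b i)) ι₀ (ξ i τ) =
            act (sw (a i) (b i)) σ (Q i) - Q i := by
  choose Q hQ using fun i => exists_kummer (hD i) hN (P i)
  refine ⟨fun i σ => act (sw (a i) (b i)) σ (Q i) - Q i, fun i => kummer_cocycle (Q i),
    fun i σ => ?_, fun L _ _ => ?_⟩
  · change N • (act (sw (a i) (b i)) σ (Q i) - Q i) = 0
    rw [ns_sub, ← act_nsmul, hQ, act_incl, sub_self]
  · let ι₀ : AlgebraicClosure K →ₐ[K] AlgebraicClosure L := IsAlgClosed.lift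
    refine ⟨ι₀, fun i => pm (sw (a i) (b i)) ι₀ (Q i), fun i => ?_, fun i σ τ hστ => ?_⟩
    · rw [← incl_loc ι₀, ← hQ, map_nsmul]
    · change pm (sw (a i) (b i)) ι₀ (act (sw (a i) (b i)) τ (Q i) - Q i) = _
      rw [map_sub, act_pm ι₀ hστ]

open scoped Classical in
/-- a rational point of the member gives a Selmer class -/
theorem sel_of_point {r m : ℕ} {ι L' : Type} (a b : Fin r → ℤ)
    (hdisc : ∀ i, 4 * a i ^ 3 + 27 * b i ^ 2 ≠ 0) (G' : L' → Pol ℤ r m ι) (N : ℕ) (hN : 1 ≤ N)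
    (t : ι → ℤ) (P : ∀ i, (EQ (a i) (b i)).toAffine.Point) (T : Fin (m + 1) → ℚ) (hT : T ≠ 0)
    (h0 : ∀ l, valP (Int.castRingHom ℚ) (G' l) (fun i => crd (P i)) T (fun s => (t s : ℚ)) = 0) :
    (SelQ a b G' N t).Nonempty := by
  have hD : ∀ i, 4 * (a i : ℚ) ^ 3 + 27 * (b i : ℚ) ^ 2 ≠ 0 := fun i => by
    exact_mod_cast hdisc i
  obtain ⟨ξ, h1, h2, h3⟩ := kummer_full (fun i => (a i : ℚ)) (fun i => (b i : ℚ)) hD N hN P
  refine ⟨ξ, h1, h2, fun p _ => ?_⟩
  obtain ⟨ι₀, Q, h4, h5⟩ := h3 ℚ_[p]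
  refine ⟨ι₀, fun i => locHom (L := ℚ_[p]) (EQ (a i) (b i)) (P i), Q,
    ⟨fun s => algebraMap ℚ _ (T s), ?_, fun l => ?_⟩, h4, h5⟩
  · intro h
    apply hT
    funext s
    have h1 := congrFun h s
    simp only [Pi.zero_apply] at h1
    exact (map_eq_zero _).1 h1
  · have h1 := valP_map (Int.castRingHom ℚ) (algebraMap ℚ ℚ_[p]) (G' l) (fun i => crd (P i)) T
      (fun s => (t s : ℚ))
    rw [h0 l, map_zero] at h1
    rw [h1]
    congr 1
    funext i j
    exact crd_locHom (EQ (a i) (b i)) (P i) j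

end Pool.Agent.N890.US
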