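import Pool.Agent.N890.US.Sec
import Pool.Agent.TH954.SEt

/-! Project US (helper890): sections of the fundamental group or of a quotient of finite level. -/

set_option autoImplicit false

namespace Pool.Agent.N890.US

open NumberField WeierstrassCurve Pool.Agent.TH942 Pool.Agent.TH954 Pool.Agent.W620.SC
open Pool.Agent.N89.CI Pool.Agent.N890.FD

open scoped Classical in
/-- divisibility over an extension which contains the maximal unramified extension -/
theorem div_of_large {K : Type} [Field K] [CharZero K] {F Ω M B : Type} [Field F] [Field Ω]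
    [Field M] [Field B] [Algebra K F] [Algebra F Ω] [Algebra K Ω] [IsScalarTower K F Ω]
    [Algebra F M] [Algebra K M] [IsScalarTower K F M] [Algebra K B] [IsAlgClosure F Ω]
    [IsAlgClosure K B] (a b : K) (hD : 4 * a ^ 3 + 27 * b ^ 2 ≠ 0)
    (emb : M →ₐ[F] Ω) (s : GalSection K F M B) (U : Set (ValuationSubring F))
    (hU : ∀ O ∈ U, ∀ c : K, algebraMap K F c ∈ O) (he : unramified F Ω U ≤ emb.fieldRange)
    (P : ((sw a b).baseChange F).toAffine.Point) {N : ℕ} (hN : 1 ≤ N) :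
    ∃ Q : ((sw a b).baseChange M).toAffine.Point,
      N • Q = pm (sw a b) (IsScalarTower.toAlgHom K F M) P := by
  have hΩ1 : IsAlgClosed Ω := IsAlgClosure.isAlgClosed F
  exact exists_div_unram hD ((emb.restrictScalars K).comp (s.j.comp
    (eqv K B : AlgebraicClosure K →ₐ[K] B))) U hU emb he P hN

open scoped Classical in
/-- the Selmer class of a section over `ℚ` which is given by places over all the `ℚ_p` -/
theorem sel_of_large {r m : ℕ} {ι L' : Type} [Fintype ι] (a b : Fin r → ℤ)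
    (hdisc : ∀ i, 4 * a i ^ 3 + 27 * b i ^ 2 ≠ 0) (G' : L' → Pol ℤ r m ι)
    (d : L' → Fin r → ℕ) (e : L' → ℕ) (hG' : ∀ l, MHomog (G' l) (d l) (e l)) (N : ℕ) (hN : 1 ≤ N)
    (t : ι → ℤ) {F Ω M B : Type} [Field F] [Field Ω] [Field M]
    [Field B] [Algebra ℚ F] [Algebra F Ω] [Algebra ℚ Ω] [IsScalarTower ℚ F Ω] [Algebra F M]
    [Algebra ℚ M] [IsScalarTower ℚ F M] [Algebra ℚ B] [IsAlgClosure F Ω] [IsAlgClosure ℚ B]
    (emb : M →ₐ[F] Ω) (P : ∀ i, ((EQ (a i) (b i)).baseChange F).toAffine.Point)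
    (T : Fin (m + 1) → F) (hT : T ≠ 0)
    (h0 : ∀ l, valP (Int.castRingHom F) (G' l) (fun i => crd (P i)) T (fun s => (t s : F)) = 0)
    (s : GalSection ℚ F M B)
    (hdiv : (∀ i, ∃ Q : ((EQ (a i) (b i)).baseChange M).toAffine.Point,
      N • Q = pm (EQ (a i) (b i)) (IsScalarTower.toAlgHom ℚ F M) (P i)) ∨
      ∃ U : Set (ValuationSubring F), (∀ O ∈ U, ∀ x : ℚ, algebraMap ℚ F x ∈ O) ∧
        unramified F Ω U ≤ emb.fieldRange)
    (hp : ∀ (q : ℕ) [Fact q.Prime],
      ∃ p : Plc ℚ M (AlgebraicClosure ℚ_[q]), s.GivenBy ℚ_[q] p) :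
    (SelQ a b G' N t).Nonempty := by
  refine sel_of_section a b hdisc G' d e hG' N hN t emb P T hT h0 s ?_ hp
  rcases hdiv with h | ⟨U, hU, he⟩
  · exact h
  · intro i
    exact div_of_large (a i : ℚ) (b i : ℚ) (by exact_mod_cast hdisc i) emb s U hU he (P i) hN

end Pool.Agent.N890.US
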