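import Pool.Agent.N890.US.Stm
import Pool.Agent.TH954.STor

/-!
# Project US, CNT: the number of the cocycles (helper415)
-/

set_option autoImplicit false

namespace Pool.Agent.N890.US.CNT

open NumberField WeierstrassCurve Pool.Agent.TH942 Pool.Agent.TH954 Pool.Agent.N890.US

/-- the absolute Galois group -/
abbrev GQ : Type := AlgebraicClosure ℚ ≃ₐ[ℚ] AlgebraicClosure ℚ

open scoped Classical in
/-- the functions with values in the `l`-torsion which factor through the field `F` -/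
def ZF (a b : ℤ) (l : ℕ) (F : IntermediateField ℚ (AlgebraicClosure ℚ)) :
    Set (GQ → AlgPt (EQ a b) ℚ) :=
  {ξ | (∀ σ, l • ξ σ = 0) ∧ ∀ σ τ : GQ, (∀ x ∈ F, σ x = τ x) → ξ σ = ξ τ}

/-- the restriction to `F` -/
noncomputable def rst (F : IntermediateField ℚ (AlgebraicClosure ℚ)) (σ : GQ) :
    F →ₐ[ℚ] AlgebraicClosure ℚ := (σ : AlgebraicClosure ℚ →ₐ[ℚ] AlgebraicClosure ℚ).comp F.val

open scoped Classical in
lemma ZF_card {a b : ℤ} (hD : 4 * a ^ 3 + 27 * b ^ 2 ≠ 0) {l : ℕ} (hl : 1 ≤ l)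
    (F : IntermediateField ℚ (AlgebraicClosure ℚ)) [FiniteDimensional ℚ F] :
    (ZF a b l F).Finite ∧ (ZF a b l F).ncard ≤ (2 * l ^ 2) ^ Module.finrank ℚ F := by
  have hD' : 4 * (a : ℚ) ^ 3 + 27 * (b : ℚ) ^ 2 ≠ 0 := by exact_mod_cast hD
  obtain ⟨t1, t2, t3⟩ := card_base_lt hD' (AlgebraicClosure ℚ) hl
  set T : Set (AlgPt (EQ a b) ℚ) := {P | l • P = 0} with hT
  have hTf : Finite T := t1
  have hTc : Nat.card T < 2 * l ^ 2 := t3
  have hFf : Finite (F →ₐ[ℚ] AlgebraicClosure ℚ) := inferInstance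
  have hFc : Nat.card (F →ₐ[ℚ] AlgebraicClosure ℚ) = Module.finrank ℚ F := by
    rw [Nat.card_eq_fintype_card]
    exact AlgHom.card ℚ F (AlgebraicClosure ℚ)
  -- the injection
  let f : ZF a b l F → ((F →ₐ[ℚ] AlgebraicClosure ℚ) → T) := fun ξ φ =>
    if h : ∃ σ : GQ, rst F σ = φ then ⟨ξ.1 h.choose, ξ.2.1 _⟩ else ⟨0, nsmul_zero l⟩
  have hf : Function.Injective f := by
    intro ξ η h
    apply Subtype.ext
    funext σ
    have h1 := congrFun h (rst F σ)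
    have h2 : ∃ τ : GQ, rst F τ = rst F σ := ⟨σ, rfl⟩
    simp only [f, dif_pos h2, Subtype.mk.injEq] at h1
    have h3 : ∀ x ∈ F, h2.choose x = σ x := fun x hx => by
      have := congrArg (fun φ : F →ₐ[ℚ] AlgebraicClosure ℚ => φ ⟨x, hx⟩) h2.choose_spec
      exact this
    rw [ξ.2.2 _ _ h3, η.2.2 _ _ h3] at h1
    exact h1
  have hfin : Finite (ZF a b l F) := Finite.of_injective f hf
  refine ⟨hfin, ?_⟩
  have h4 : Nat.card (ZF a b l F) ≤ Nat.card ((F →ₐ[ℚ] AlgebraicClosure ℚ) → T) :=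
    Nat.card_le_card_of_injective f hf
  rw [Nat.card_fun, hFc] at h4
  calc (ZF a b l F).ncard = Nat.card (ZF a b l F) := rfl
    _ ≤ _ := h4
    _ ≤ _ := Nat.pow_le_pow_left hTc.le _

lemma union_card {α β : Type} {s : Set α} (hs : s.Finite) {t : α → Set β} {m : ℕ}
    (ht : ∀ x ∈ s, (t x).Finite ∧ (t x).ncard ≤ m) {u : Set β} (hu : ∀ y ∈ u, ∃ x ∈ s, y ∈ t x) :
    u.Finite ∧ u.ncard ≤ s.ncard * m := by
  classical
  have h1 : u ⊆ ⋃ x ∈ s, t x := by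
    intro y hy
    obtain ⟨x, hx, hxy⟩ := hu y hy
    exact Set.mem_biUnion hx hxy
  have h2 : (⋃ x ∈ s, t x).Finite := hs.biUnion fun x hx => (ht x hx).1
  refine ⟨h2.subset h1, (Set.ncard_le_ncard h1 h2).trans ?_⟩
  have h3 : (⋃ x ∈ s, t x) = ((hs.toFinset.biUnion fun x =>
      if h : (t x).Finite then h.toFinset else ∅ : Finset β) : Set β) := by
    ext y
    simp only [Set.mem_iUnion, Finset.coe_biUnion, Set.Finite.coe_toFinset]
    constructor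
    · rintro ⟨x, hx, hy⟩
      exact ⟨x, hx, by rw [dif_pos (ht x hx).1]; simpa using hy⟩
    · rintro ⟨x, hx, hy⟩
      rw [dif_pos (ht x hx).1] at hy
      exact ⟨x, hx, by simpa using hy⟩
  rw [h3, Set.ncard_coe_finset, Set.ncard_eq_toFinset_card s hs]
  refine Finset.card_biUnion_le_card_mul _ _ _ fun x hx => ?_
  have hx' : x ∈ s := hs.mem_toFinset.1 hx
  rw [dif_pos (ht x hx').1, ← Set.ncard_eq_toFinset_card _ (ht x hx').1]
  exact (ht x hx').2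

lemma final_bound {d l : ℕ} (hd : 1 ≤ d) (hl : 1 ≤ l) :
    (((8 * ((2 * l * d) * (8 * l ^ 6)) ^ ((8 * l ^ 6) * (2 * l * d))) ^ (40 * (8 * l ^ 6) ^ 3) *
      (2 * l ^ 2) ^ (8 * l ^ 6) : ℕ) : ℝ) ≤
      Real.exp (((40 * 512 * (8 + 256 * d ^ 2) + 16 : ℕ) : ℝ) * (l : ℝ) ^ 32) := by
  have hx : ∀ x : ℕ, (x : ℝ) ≤ Real.exp x := fun x => by
    have := Real.add_one_le_exp (x : ℝ)
    linarith
  have hp : ∀ (x n m : ℕ), (x : ℝ) ≤ Real.exp m → ((x ^ n : ℕ) : ℝ) ≤ Real.exp ((m * n : ℕ) : ℝ) := by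
    intro x n m h
    push_cast
    rw [mul_comm, Real.exp_nat_mul]
    exact pow_le_pow_left₀ (Nat.cast_nonneg _) h n
  have h1 := hp _ ((8 * l ^ 6) * (2 * l * d)) _ (hx ((2 * l * d) * (8 * l ^ 6)))
  have h2 : ((8 * ((2 * l * d) * (8 * l ^ 6)) ^ ((8 * l ^ 6) * (2 * l * d)) : ℕ) : ℝ) ≤
      Real.exp ((8 + (2 * l * d) * (8 * l ^ 6) * ((8 * l ^ 6) * (2 * l * d)) : ℕ) : ℝ) := by
    rw [Nat.cast_mul, Nat.cast_add, Real.exp_add]
    exact mul_le_mul (hx 8) h1 (Nat.cast_nonneg _) (Real.exp_pos _).le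
  have h3 := hp _ (40 * (8 * l ^ 6) ^ 3) _ h2
  have h4 := hp _ (8 * l ^ 6) _ (hx (2 * l ^ 2))
  have h5 : (8 + (2 * l * d) * (8 * l ^ 6) * ((8 * l ^ 6) * (2 * l * d))) *
      (40 * (8 * l ^ 6) ^ 3) + 2 * l ^ 2 * (8 * l ^ 6) ≤
      (40 * 512 * (8 + 256 * d ^ 2) + 16) * l ^ 32 := by
    have e1 : (8 + (2 * l * d) * (8 * l ^ 6) * ((8 * l ^ 6) * (2 * l * d))) *
      (40 * (8 * l ^ 6) ^ 3) + 2 * l ^ 2 * (8 * l ^ 6) =
      40 * 512 * 8 * l ^ 18 + 40 * 512 * 256 * d ^ 2 * l ^ 32 + 16 * l ^ 8 := by ring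
    rw [e1]
    have e2 : l ^ 18 ≤ l ^ 32 := Nat.pow_le_pow_right hl (by norm_num)
    have e3 : l ^ 8 ≤ l ^ 32 := Nat.pow_le_pow_right hl (by norm_num)
    nlinarith
  rw [Nat.cast_mul]
  calc _ ≤ Real.exp (((8 + (2 * l * d) * (8 * l ^ 6) * ((8 * l ^ 6) * (2 * l * d))) *
        (40 * (8 * l ^ 6) ^ 3) : ℕ) : ℝ) * Real.exp ((2 * l ^ 2 * (8 * l ^ 6) : ℕ) : ℝ) :=
        mul_le_mul h3 h4 (Nat.cast_nonneg _) (Real.exp_pos _).le
    _ = Real.exp (((8 + (2 * l * d) * (8 * l ^ 6) * ((8 * l ^ 6) * (2 * l * d))) *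
        (40 * (8 * l ^ 6) ^ 3) + 2 * l ^ 2 * (8 * l ^ 6) : ℕ) : ℝ) := by
        rw [← Real.exp_add, ← Nat.cast_add]
    _ ≤ _ := by
        rw [Real.exp_le_exp]
        exact_mod_cast h5

open scoped Classical in
/-- the discriminant of the fields -/
lemma disc_le (hdisc : S_DISC) {B n0 : ℕ} (hB : B ≠ 0)
    (F : IntermediateField ℚ (AlgebraicClosure ℚ)) [hFD : FiniteDimensional ℚ F]
    (hG : IsGalois ℚ F) (hn : Module.finrank ℚ F ≤ n0)
    (hur : ∀ q : ℕ, q.Prime → ¬ q ∣ B → ¬ ((q : ℤ) ∣ dF F)) :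
    (dF F).natAbs ≤ (B * n0) ^ (n0 * B) := by
  have : NumberField F := @NumberField.mk _ _ inferInstance inferInstance
  have hn1 : 1 ≤ Module.finrank ℚ F := Module.finrank_pos
  have h1 := hdisc F B.primeFactors (fun q hq => Nat.prime_of_mem_primeFactors hq)
    (fun q hq hqS => by
      refine hur q hq ?_
      intro h
      exact hqS (Nat.mem_primeFactors.2 ⟨hq, h, hB⟩))
  refine h1.trans ?_
  have hB1 : 1 ≤ B := Nat.one_le_iff_ne_zero.2 hB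
  have h0 : 1 ≤ B * n0 := Nat.one_le_iff_ne_zero.2
    (Nat.mul_ne_zero hB (by omega))
  calc ∏ q ∈ B.primeFactors, (q * Module.finrank ℚ F) ^ Module.finrank ℚ F
      ≤ ∏ _q ∈ B.primeFactors, (B * n0) ^ n0 := by
        refine Finset.prod_le_prod' fun q hq => ?_
        have hqB : q ≤ B := Nat.le_of_dvd hB1 (Nat.dvd_of_mem_primeFactors hq)
        calc (q * Module.finrank ℚ F) ^ Module.finrank ℚ F
            ≤ (B * n0) ^ Module.finrank ℚ F := Nat.pow_le_pow_left (Nat.mul_le_mul hqB hn) _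
          _ ≤ (B * n0) ^ n0 := Nat.pow_le_pow_right h0 hn
    _ = ((B * n0) ^ n0) ^ B.primeFactors.card := by rw [Finset.prod_const]
    _ ≤ ((B * n0) ^ n0) ^ B := by
        refine Nat.pow_le_pow_right (Nat.one_le_pow _ _ h0) ?_
        calc B.primeFactors.card ≤ (Finset.Icc 1 B).card := by
              refine Finset.card_le_card fun q hq => ?_
              rw [Finset.mem_Icc]
              exact ⟨(Nat.prime_of_mem_primeFactors hq).one_le,
                Nat.le_of_dvd hB1 (Nat.dvd_of_mem_primeFactors hq)⟩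
          _ = B := by simp
    _ = _ := by rw [← pow_mul]

/-- CNT -/
theorem t_CNT : S_UNR → S_DISC → S_HERM → S_FLD → S_CNT := by
  classical
  intro hunr hdisc hherm hfld a b hΔ
  set d := (4 * a ^ 3 + 27 * b ^ 2).natAbs with hd
  have hd1 : 1 ≤ d := Int.natAbs_pos.2 hΔ
  refine ⟨32, 40 * 512 * (8 + 256 * d ^ 2) + 16, fun l hl hl2 => ?_⟩
  have hl1 : 1 ≤ l := hl.one_le
  set n0 := 8 * l ^ 6 with hn0
  set B := 2 * l * d with hB
  have hB0 : B ≠ 0 := by positivity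
  have hn01 : 1 ≤ n0 := by
    have : 0 < l ^ 6 := by positivity
    omega
  set D0 := (B * n0) ^ (n0 * B) with hD0
  have hD01 : 1 ≤ D0 := Nat.one_le_pow _ _ (by positivity)
  obtain ⟨f1, f2⟩ := hherm n0 D0 hn01 hD01
  set 𝓕 := {F : IntermediateField ℚ (AlgebraicClosure ℚ) | ∃ _ : FiniteDimensional ℚ F,
    Module.finrank ℚ F ≤ n0 ∧ (dF F).natAbs ≤ D0} with hF
  have hu : ∀ ξ ∈ Zset a b l, ∃ F ∈ 𝓕, ξ ∈ ZF a b l F := by
    intro ξ hξ
    obtain ⟨c1, c2, c3⟩ := hξ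
    obtain ⟨F, hfd, hgal, g1, g2, g3⟩ := hfld a b hΔ l hl ξ c1 (fun σ => by convert c2 σ)
    refine ⟨F, ⟨hfd, g1, ?_⟩, fun σ => by convert c2 σ, g3⟩
    refine disc_le hdisc hB0 F hgal g1 fun q hq hqB => ?_
    haveI : Fact q.Prime := ⟨hq⟩
    have hq' : ¬ ((q : ℤ) ∣ 2 * l * (4 * a ^ 3 + 27 * b ^ 2)) := by
      intro h
      apply hqB
      rw [hB, hd]
      have h2 := Int.natAbs_dvd_natAbs.2 h
      rw [Int.natAbs_mul, Int.natAbs_mul] at h2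
      simpa using h2
    exact hunr a b hΔ l hl hl2 q hq' ξ c1 (fun σ => by convert c2 σ) (c3 q hq') F
      (fun τ ht hτ => g2 τ (fun T hT => ht T (by convert hT)) hτ)
  have hcard : ∀ F ∈ 𝓕, (ZF a b l F).Finite ∧ (ZF a b l F).ncard ≤ (2 * l ^ 2) ^ n0 := by
    rintro F ⟨hfd, g1, -⟩
    obtain ⟨k1, k2⟩ := ZF_card hΔ hl1 F
    exact ⟨k1, k2.trans (Nat.pow_le_pow_right (by positivity) g1)⟩
  obtain ⟨r1, r2⟩ := union_card f1 hcard hu
  refine ⟨r1, ?_⟩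
  refine le_trans ?_ (final_bound hd1 hl1)
  have h3 : (Zset a b l).ncard ≤ (8 * D0) ^ (40 * n0 ^ 3) * (2 * l ^ 2) ^ n0 :=
    r2.trans (Nat.mul_le_mul_right _ f2)
  exact_mod_cast h3

end Pool.Agent.N890.US.CNT
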