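import Pool.Agent.N890.US.Stm

/-!
# COS: the size of the multiples of `m` in a finite abelian group (helper803)
-/

set_option autoImplicit false

namespace Pool.Agent.N890.US.COS

open Pool.Agent.N890.US

theorem core (G : Type) [AddCommGroup G] [Finite G] (m : ℕ) (hm : Squarefree m)
    (hd : m ∣ Nat.card G) : Nat.card (Set.range fun R : G => m • R) * m ≤ Nat.card G := by
  classical
  obtain ⟨f, hf⟩ : ∃ f : G →+ G, f = nsmulAddMonoidHom m := ⟨_, rfl⟩
  have hfa : ∀ x, f x = m • x := by
    intro x
    rw [hf]
    rfl
  have h1 : Nat.card (Set.range fun R : G => m • R) = Nat.card f.range := by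
    have e : (Set.range fun R : G => m • R) = (f.range : Set G) := by
      rw [AddMonoidHom.coe_range]
      congr 1
      ext x
      rw [hfa]
    rw [e]
    rfl
  have h2 : Nat.card G = Nat.card f.range * Nat.card f.ker := by
    rw [← Nat.card_congr (QuotientAddGroup.quotientKerEquivRange f).toEquiv]
    exact AddSubgroup.card_eq_card_quotient_mul_card_addSubgroup f.ker
  -- an element of order `m`
  have h3 : ∀ s : Finset ℕ, (∀ p ∈ s, p.Prime ∧ p ∣ Nat.card G) →
      ∃ g : G, addOrderOf g = ∏ p ∈ s, p := by
    intro s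
    induction s using Finset.induction_on with
    | empty =>
      intro _
      exact ⟨0, by simp⟩
    | insert p s hp ih =>
      intro h
      obtain ⟨g, hg⟩ := ih fun q hq => h q (Finset.mem_insert_of_mem hq)
      obtain ⟨hpp, hpd⟩ := h p (Finset.mem_insert_self p s)
      have := Fact.mk hpp
      obtain ⟨g', hg'⟩ := exists_prime_addOrderOf_dvd_card' (G := G) p hpd
      refine ⟨g' + g, ?_⟩
      rw [Finset.prod_insert hp, ← hg, ← hg']
      refine (AddCommute.all g' g).addOrderOf_add_eq_mul_addOrderOf_of_coprime ?_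
      rw [hg, hg']
      refine Nat.Coprime.prod_right fun q hq => ?_
      rw [Nat.coprime_primes hpp (h q (Finset.mem_insert_of_mem hq)).1]
      rintro rfl
      exact hp hq
  obtain ⟨g, hg⟩ := h3 m.primeFactors fun p hp =>
    ⟨Nat.prime_of_mem_primeFactors hp, (Nat.dvd_of_mem_primeFactors hp).trans hd⟩
  rw [Nat.prod_primeFactors_of_squarefree hm] at hg
  have h4 : m ≤ Nat.card f.ker := by
    have h5 : AddSubgroup.zmultiples g ≤ f.ker := by
      rw [AddSubgroup.zmultiples_le, AddMonoidHom.mem_ker, hfa, ← hg]
      exact addOrderOf_nsmul_eq_zero g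
    have h6 : Nat.card (AddSubgroup.zmultiples g) = m := by
      rw [Nat.card_zmultiples, hg]
    rw [← h6]
    exact Nat.card_le_card_of_injective _ (AddSubgroup.inclusion_injective h5)
  rw [h1, h2]
  exact Nat.mul_le_mul_left _ h4

theorem t_COS : S_COS := fun G _ _ m hm hd => core G m hm hd

end Pool.Agent.N890.US.COS
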