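import Pool.Agent.N890.US.Stm
import Pool.Agent.TH954.STor

/-!
Project US (helper890), task FLD (helper624): the field cut out by the `l`-torsion and a cocycle.
-/

set_option autoImplicit false
set_option linter.unusedSectionVars false

namespace Pool.Agent.N890.US.FLD

open NumberField WeierstrassCurve Pool.Agent.TH942 Pool.Agent.TH954 Pool.Agent.N890.US

/-! ### Galois theory -/

lemma field_of_subgroup {k K : Type} [Field k] [Field K] [Algebra k K] [IsGalois k K]
    (H : Subgroup (K ≃ₐ[k] K)) (hN : H.Normal) (L : IntermediateField k K) [FiniteDimensional k L]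
    (hL : L.fixingSubgroup ≤ H) (S : Type) [Finite S] (Φ : (K ≃ₐ[k] K) → S)
    (hΦ : ∀ σ τ, Φ σ = Φ τ → σ⁻¹ * τ ∈ H) :
    ∃ (F : IntermediateField k K) (_ : FiniteDimensional k F), IsGalois k F ∧
      Module.finrank k F ≤ Nat.card S ∧ ∀ τ, τ ∈ H ↔ ∀ x ∈ F, τ x = x := by
  have hO : IsOpen (H : Set (K ≃ₐ[k] K)) := Subgroup.isOpen_mono hL L.fixingSubgroup_isOpen
  have hC : IsClosed (H : Set (K ≃ₐ[k] K)) := Subgroup.isClosed_of_isOpen H hO
  set F : IntermediateField k K := IntermediateField.fixedField H with hF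
  have hfix : F.fixingSubgroup = H := InfiniteGalois.fixingSubgroup_fixedField ⟨H, hC⟩
  have hfd : FiniteDimensional k F := (InfiniteGalois.isOpen_iff_finite F).1 (by rw [hfix]; exact hO)
  have hgal : IsGalois k F := (InfiniteGalois.normal_iff_isGalois F).1 (by rw [hfix]; exact hN)
  have hmem : ∀ τ, τ ∈ H ↔ ∀ x ∈ F, τ x = x := by
    intro τ
    rw [← hfix]
    exact IntermediateField.mem_fixingSubgroup_iff _ _
  refine ⟨F, hfd, hgal, ?_, hmem⟩
  rw [← IsGalois.card_aut_eq_finrank]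
  have hsurj : Function.Surjective (AlgEquiv.restrictNormalHom (F := k) (K₁ := K) F) :=
    AlgEquiv.restrictNormalHom_surjective K
  choose lift hlift using hsurj
  refine Nat.card_le_card_of_injective (fun g => Φ (lift g)) ?_
  intro g g' h
  have h1 := hΦ _ _ h
  rw [hmem] at h1
  rw [← hlift g, ← hlift g']
  have h2 : ∀ x : F, (lift g) x = (lift g') x := by
    intro x
    have := h1 x x.2
    have h3 := congrArg (lift g) this
    rw [AlgEquiv.mul_apply] at h3
    have h4 : (lift g) ((lift g)⁻¹ ((lift g') x)) = (lift g') x := by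
      rw [← AlgEquiv.mul_apply, mul_inv_cancel, AlgEquiv.one_apply]
    rw [h4] at h3
    exact h3.symm
  apply AlgEquiv.ext
  intro x
  apply Subtype.ext
  have e1 := AlgEquiv.restrictNormal_commutes (lift g) F x
  have e2 := AlgEquiv.restrictNormal_commutes (lift g') F x
  exact e1.trans ((h2 x).trans e2.symm)

/-! ### Two generators -/

lemma gens' {A : Type} [AddCommGroup A] [Finite A] (l : ℕ) [hp : Fact l.Prime] [Module (ZMod l) A]
    (hc : Nat.card A < 2 * l ^ 2) :
    ∃ t1 t2 : A, ∀ f : A →+ A, f t1 = t1 → f t2 = t2 → ∀ x, f x = x := by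
  have hfin : Module.Finite (ZMod l) A := Module.Finite.of_finite
  have hcard : Nat.card A = l ^ Module.finrank (ZMod l) A := by
    rw [Module.natCard_eq_pow_finrank (K := ZMod l) (V := A), Nat.card_zmod]
  have hr : Module.finrank (ZMod l) A ≤ 2 := by
    by_contra hcon
    have h3 : 3 ≤ Module.finrank (ZMod l) A := by omega
    have h4 : l ^ 3 ≤ l ^ Module.finrank (ZMod l) A := Nat.pow_le_pow_right hp.out.pos h3
    have h5 : 2 * l ^ 2 ≤ l ^ 3 := by
      have := hp.out.two_le
      nlinarith [sq_nonneg l]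
    omega
  set b := Module.finBasis (ZMod l) A with hb
  set t : ℕ → A := fun i => if h : i < Module.finrank (ZMod l) A then b ⟨i, h⟩ else 0 with ht
  refine ⟨t 0, t 1, fun f h0 h1 x => ?_⟩
  have key : f.toZModLinearMap l = LinearMap.id := by
    refine b.ext fun i => ?_
    have hi : (i : ℕ) < 2 := lt_of_lt_of_le i.2 hr
    have hti : b i = t i := by
      rw [ht]
      simp
    have hft : f (t i) = t i := by
      interval_cases h : (i : ℕ)
      · exact h0
      · exact h1
    rw [hti]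
    exact hft
  have := LinearMap.congr_fun key x
  exact this

lemma gens {A : Type} [AddCommGroup A] [Finite A] (l : ℕ) [hp : Fact l.Prime]
    (hl : ∀ x : A, l • x = 0) (hc : Nat.card A < 2 * l ^ 2) :
    ∃ t1 t2 : A, ∀ f : A →+ A, f t1 = t1 → f t2 = t2 → ∀ x, f x = x := by
  let inst : Module (ZMod l) A := AddCommGroup.zmodModule hl
  exact gens' l hc

/-! ### The action -/

section

variable {K : Type} [Field K] [CharZero K] {a b : K}

open scoped Classical in
lemma act_one (Q : AlgPt (sw a b) K) : act (sw a b) (1 : AlgebraicClosure K ≃ₐ[K] AlgebraicClosure K) Q = Q := by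
  rcases Q with _ | ⟨x, y, h⟩
  · rfl
  · rfl

open scoped Classical in
lemma act_mul (σ τ : AlgebraicClosure K ≃ₐ[K] AlgebraicClosure K) (Q : AlgPt (sw a b) K) :
    act (sw a b) (σ * τ) Q = act (sw a b) σ (act (sw a b) τ Q) := by
  rcases Q with _ | ⟨x, y, h⟩
  · rfl
  · rfl

open scoped Classical in
lemma act_zero (σ : AlgebraicClosure K ≃ₐ[K] AlgebraicClosure K) :
    act (sw a b) σ (0 : AlgPt (sw a b) K) = 0 := map_zero _

open scoped Classical in
lemma act_inv_act (σ : AlgebraicClosure K ≃ₐ[K] AlgebraicClosure K) (Q : AlgPt (sw a b) K) :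
    act (sw a b) σ⁻¹ (act (sw a b) σ Q) = Q := by
  rw [← act_mul, inv_mul_cancel, act_one]

open scoped Classical in
lemma act_act_inv (σ : AlgebraicClosure K ≃ₐ[K] AlgebraicClosure K) (Q : AlgPt (sw a b) K) :
    act (sw a b) σ (act (sw a b) σ⁻¹ Q) = Q := by
  rw [← act_mul, mul_inv_cancel, act_one]

open scoped Classical in
lemma fix_point (Q : AlgPt (sw a b) K) : ∃ (L : IntermediateField K (AlgebraicClosure K))
    (_ : FiniteDimensional K L), ∀ τ ∈ L.fixingSubgroup, act (sw a b) τ Q = Q := by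
  rcases Q with _ | ⟨x, y, h⟩
  · exact ⟨⊥, inferInstance, fun τ _ => rfl⟩
  · refine ⟨IntermediateField.adjoin K {x, y}, ?_, ?_⟩
    · refine IntermediateField.finiteDimensional_adjoin fun z _ => ?_
      exact (AlgebraicClosure.isAlgebraic K).isIntegral.isIntegral z
    · intro τ hτ
      rw [IntermediateField.mem_fixingSubgroup_iff] at hτ
      have hx : τ x = x := hτ x (IntermediateField.subset_adjoin _ _ (by simp))
      have hy : τ y = y := hτ y (IntermediateField.subset_adjoin _ _ (by simp))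
      obtain ⟨h', e⟩ := pm_some (E := sw a b)
        ((τ : AlgebraicClosure K →ₐ[K] AlgebraicClosure K).restrictScalars K) h
      unfold act
      refine e.trans ?_
      have hx' : ((τ : AlgebraicClosure K →ₐ[K] AlgebraicClosure K).restrictScalars K) x = x := hx
      have hy' : ((τ : AlgebraicClosure K →ₐ[K] AlgebraicClosure K).restrictScalars K) y = y := hy
      congr 1

open scoped Classical in
lemma fix_set {S : Set (AlgPt (sw a b) K)} (hS : S.Finite) :
    ∃ (L : IntermediateField K (AlgebraicClosure K)) (_ : FiniteDimensional K L),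
      ∀ τ ∈ L.fixingSubgroup, ∀ Q ∈ S, act (sw a b) τ Q = Q := by
  induction S, hS using Set.Finite.induction_on with
  | empty => exact ⟨⊥, inferInstance, fun τ _ Q hQ => absurd hQ (Set.notMem_empty _)⟩
  | @insert Q S _ _ ih =>
    obtain ⟨L1, h1, k1⟩ := ih
    obtain ⟨L2, h2, k2⟩ := fix_point Q
    refine ⟨L1 ⊔ L2, IntermediateField.finiteDimensional_sup _ _, fun τ hτ R hR => ?_⟩
    rw [IntermediateField.fixingSubgroup_sup] at hτ
    rcases Set.mem_insert_iff.1 hR with rfl | hR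
    · exact k2 τ hτ.2
    · exact k1 τ hτ.1 R hR

end

open scoped Classical in
theorem fld {K : Type} [Field K] [CharZero K] {a b : K} (hD : 4 * a ^ 3 + 27 * b ^ 2 ≠ 0) {l : ℕ}
    (hl : l.Prime) (ξ : (AlgebraicClosure K ≃ₐ[K] AlgebraicClosure K) → AlgPt (sw a b) K)
    (hξ : IsCocycle (sw a b) ξ) (hlξ : ∀ σ, l • ξ σ = 0) :
    ∃ (F : IntermediateField K (AlgebraicClosure K)) (_ : FiniteDimensional K F), IsGalois K F ∧
      Module.finrank K F ≤ 8 * l ^ 6 ∧
      (∀ τ, (∀ T : AlgPt (sw a b) K, l • T = 0 → act (sw a b) τ T = T) → ξ τ = 0 →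
        ∀ x ∈ F, τ x = x) ∧
      ∀ σ τ, (∀ x ∈ F, σ x = τ x) → ξ σ = ξ τ := by
  have hfl : Fact l.Prime := ⟨hl⟩
  obtain ⟨hcoc, F1, hF1, hloc⟩ := hξ
  obtain ⟨hfin, -, hlt⟩ := card_base_lt hD (AlgebraicClosure K) hl.one_le
  set A : AddSubgroup (AlgPt (sw a b) K) := AddMonoidHom.ker (nsmulAddMonoidHom l) with hA
  have hmemA : ∀ T, T ∈ A ↔ l • T = 0 := by
    intro T
    rw [hA, AddMonoidHom.mem_ker]
    rfl
  have hAset : (A : Set (AlgPt (sw a b) K)) = {P | l • P = 0} := by
    ext T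
    exact hmemA T
  have hAfin : Finite A := by
    have : (A : Set (AlgPt (sw a b) K)).Finite := by
      rw [hAset]
      exact hfin
    exact this.to_subtype
  have hAcard : Nat.card A < 2 * l ^ 2 := by
    have : Nat.card A = {P : AlgPt (sw a b) K | l • P = 0}.ncard := by
      rw [← hAset]
      rfl
    rw [this]
    exact hlt
  have hactA : ∀ (σ : AlgebraicClosure K ≃ₐ[K] AlgebraicClosure K), ∀ T ∈ A, act (sw a b) σ T ∈ A := by
    intro σ T hT
    rw [hmemA] at hT ⊢
    rw [← act_nsmul, hT, act_zero]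
  have hone : ξ 1 = 0 := by
    have := hcoc 1 1
    rw [one_mul, act_one] at this
    exact left_eq_add.1 this
  set H : Subgroup (AlgebraicClosure K ≃ₐ[K] AlgebraicClosure K) :=
    { carrier := {τ | (∀ T ∈ A, act (sw a b) τ T = T) ∧ ξ τ = 0}
      mul_mem' := by
        rintro σ τ ⟨h1, h2⟩ ⟨h3, h4⟩
        refine ⟨fun T hT => ?_, ?_⟩
        · rw [act_mul, h3 T hT, h1 T hT]
        · rw [hcoc, h2, h4, act_zero, add_zero]
      one_mem' := ⟨fun T _ => act_one T, hone⟩
      inv_mem' := by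
        rintro σ ⟨h1, h2⟩
        refine ⟨fun T hT => ?_, ?_⟩
        · have := act_inv_act σ T
          rw [h1 T hT] at this
          exact this
        · have := hcoc σ⁻¹ σ
          rw [inv_mul_cancel, hone, h2, act_zero, add_zero] at this
          exact this.symm } with hH
  have hmemH : ∀ τ, τ ∈ H ↔ (∀ T ∈ A, act (sw a b) τ T = T) ∧ ξ τ = 0 := fun τ => Iff.rfl
  have hN : H.Normal := by
    refine ⟨fun h hh g => ?_⟩
    rw [hmemH] at hh ⊢
    obtain ⟨h1, h2⟩ := hh
    refine ⟨fun T hT => ?_, ?_⟩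
    · rw [act_mul, act_mul, h1 _ (hactA _ T hT), act_act_inv]
    · rw [hcoc, hcoc, h2, act_zero, add_zero, act_mul, h1 _ ((hmemA _).2 (hlξ _)), ← hcoc,
        mul_inv_cancel, hone]
  obtain ⟨L2, hL2, hfixA⟩ := fix_set (a := a) (b := b) (S := (A : Set (AlgPt (sw a b) K)))
    (by rw [hAset]; exact hfin)
  have hL : FiniteDimensional K (F1 ⊔ L2 : IntermediateField K (AlgebraicClosure K)) :=
    IntermediateField.finiteDimensional_sup _ _
  have hLH : (F1 ⊔ L2 : IntermediateField K (AlgebraicClosure K)).fixingSubgroup ≤ H := by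
    intro τ hτ
    rw [IntermediateField.fixingSubgroup_sup] at hτ
    rw [hmemH]
    refine ⟨hfixA τ hτ.2, ?_⟩
    rw [← hone]
    refine hloc τ 1 fun x hx => ?_
    have := (IntermediateField.mem_fixingSubgroup_iff _ _).1 hτ.1 x hx
    rw [this]
    rfl
  obtain ⟨t1, t2, ht⟩ := gens (A := A) l (fun x => Subtype.ext ((hmemA _).1 x.2)) hAcard
  set Φ : (AlgebraicClosure K ≃ₐ[K] AlgebraicClosure K) → A × A × A := fun σ =>
    (⟨act (sw a b) σ t1, hactA σ _ t1.2⟩, ⟨act (sw a b) σ t2, hactA σ _ t2.2⟩,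
      ⟨ξ σ, (hmemA _).2 (hlξ σ)⟩) with hΦ
  have hΦH : ∀ σ τ, Φ σ = Φ τ → σ⁻¹ * τ ∈ H := by
    intro σ τ h
    rw [hΦ] at h
    simp only [Prod.mk.injEq, Subtype.mk.injEq] at h
    obtain ⟨e1, e2, e3⟩ := h
    rw [hmemH]
    have k1 : act (sw a b) (σ⁻¹ * τ) t1 = t1 := by
      rw [act_mul, ← e1, act_inv_act]
    have k2 : act (sw a b) (σ⁻¹ * τ) t2 = t2 := by
      rw [act_mul, ← e2, act_inv_act]
    refine ⟨fun T hT => ?_, ?_⟩
    · set f : A →+ A := AddMonoidHom.mk' (fun x => ⟨act (sw a b) (σ⁻¹ * τ) x, hactA _ _ x.2⟩)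
        (fun x y => Subtype.ext (act_add _ _ _)) with hf
      have := ht f (Subtype.ext k1) (Subtype.ext k2) ⟨T, hT⟩
      exact congrArg Subtype.val this
    · have h1 := hcoc σ (σ⁻¹ * τ)
      rw [mul_inv_cancel_left, e3] at h1
      have h2 : act (sw a b) σ (ξ (σ⁻¹ * τ)) = 0 := left_eq_add.1 h1
      have h3 := act_inv_act σ (ξ (σ⁻¹ * τ))
      rw [h2, act_zero] at h3
      exact h3.symm
  obtain ⟨F, hFfd, hFgal, hFrank, hFH⟩ := field_of_subgroup H hN (F1 ⊔ L2) hLH (A × A × A) Φ hΦH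
  refine ⟨F, hFfd, hFgal, ?_, ?_, ?_⟩
  · refine hFrank.trans ?_
    rw [Nat.card_prod, Nat.card_prod]
    calc Nat.card A * (Nat.card A * Nat.card A) ≤ (2 * l ^ 2) * ((2 * l ^ 2) * (2 * l ^ 2)) := by
          gcongr
      _ = 8 * l ^ 6 := by ring
  · intro τ h1 h2
    refine (hFH τ).1 ((hmemH τ).2 ⟨fun T hT => h1 T ((hmemA T).1 hT), h2⟩)
  · intro σ τ h
    have h1 : σ⁻¹ * τ ∈ H := by
      rw [hFH]
      intro x hx
      rw [AlgEquiv.mul_apply, ← h x hx, ← AlgEquiv.mul_apply, inv_mul_cancel, AlgEquiv.one_apply]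
    have h2 := hcoc σ (σ⁻¹ * τ)
    rw [mul_inv_cancel_left, ((hmemH _).1 h1).2, act_zero, add_zero] at h2
    exact h2.symm

open scoped Classical in
theorem t_FLD : S_FLD := by
  intro a b hD l hl ξ hξ hlξ
  have hD' : 4 * (a : ℚ) ^ 3 + 27 * (b : ℚ) ^ 2 ≠ 0 := by exact_mod_cast hD
  exact fld hD' hl ξ hξ hlξ

end Pool.Agent.N890.US.FLD
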