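import Pool.Agent.N890.US.Stm

set_option autoImplicit false

namespace Pool.Agent.N890.US.HERM

open Pool.Agent.N890.US NumberField NumberField.mixedEmbedding NumberField.InfinitePlace Polynomial Module
open scoped NNReal ENNReal Real
open scoped IntermediateField

section
variable (K : Type*) [Field K] [NumberField K]

theorem mink_lt {n N : ℕ} (hn : finrank ℚ K ≤ n) (hK : |discr K| ≤ N) :
    minkowskiBound K ↑1 < ((NNReal.sqrt (N : ℝ≥0) * (2 : ℝ≥0) ^ n + 1 : ℝ≥0) : ENNReal) := by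
  have : NNReal.sqrt (N : ℝ≥0) * (2 : ℝ≥0) ^ n < NNReal.sqrt (N : ℝ≥0) * (2 : ℝ≥0) ^ n + 1 := by
    simp
  refine lt_of_le_of_lt ?_ (ENNReal.coe_lt_coe.mpr this)
  rw [minkowskiBound, volume_fundamentalDomain_fractionalIdealLatticeBasis,
    Units.val_one, FractionalIdeal.absNorm_one, Rat.cast_one,
    ENNReal.ofReal_one, one_mul, mixedEmbedding.finrank, volume_fundamentalDomain_latticeBasis,
    ENNReal.coe_mul, ENNReal.coe_pow, ENNReal.coe_ofNat, show (NNReal.sqrt (N : ℝ≥0) : ENNReal) = (1 : ℝ≥0∞) * NNReal.sqrt (N : ℝ≥0) by rw [one_mul]]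
  gcongr
  · exact pow_le_one₀ (by positivity) (by simp)
  · rwa [← NNReal.coe_le_coe, coe_nnnorm, Int.norm_eq_abs, ← Int.cast_abs,
      NNReal.coe_natCast, ← Int.cast_natCast, Int.cast_le]
  · exact one_le_two

/-- generator with small conjugates -/
theorem exists_small {n N : ℕ} (hn : finrank ℚ K ≤ n) (hK : |discr K| ≤ N) :
    ∃ a : 𝓞 K, ℚ⟮(a : K)⟯ = ⊤ ∧
      ∀ w : InfinitePlace K, w a ≤ ((NNReal.sqrt (N : ℝ≥0) * (2 : ℝ≥0) ^ n + 2 : ℝ≥0) : ℝ) := by
  set B : ℝ≥0 := NNReal.sqrt (N : ℝ≥0) * (2 : ℝ≥0) ^ n + 1 with hB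
  have hB2 : ((NNReal.sqrt (N : ℝ≥0) * (2 : ℝ≥0) ^ n + 2 : ℝ≥0) : ℝ) = (B : ℝ) + 1 := by
    rw [hB]; push_cast; ring
  have hB0 : (0 : ℝ) ≤ B := B.coe_nonneg
  have hmk := mink_lt K hn hK
  rw [← hB] at hmk
  obtain ⟨w₀⟩ := (inferInstance : Nonempty (InfinitePlace K))
  by_cases hw₀ : IsReal w₀
  · have h1 : minkowskiBound K ↑1 < (convexBodyLTFactor K) * B := by
      calc
        minkowskiBound K ↑1 < B := hmk
        _ = 1 * B := by rw [one_mul]
        _ ≤ convexBodyLTFactor K * B := by gcongr; exact mod_cast one_le_convexBodyLTFactor K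
    obtain ⟨x, hx₁, hx₂⟩ := exists_primitive_element_lt_of_isReal K hw₀ h1
    refine ⟨x, hx₁, fun w => (hx₂ w).le.trans ?_⟩
    rw [hB2, NNReal.coe_max, max_le_iff, NNReal.coe_one]
    constructor <;> linarith
  · have h1 : minkowskiBound K ↑1 < (convexBodyLT'Factor K) * B := by
      calc
        minkowskiBound K ↑1 < B := hmk
        _ = 1 * B := by rw [one_mul]
        _ ≤ convexBodyLT'Factor K * B := by gcongr; exact mod_cast one_le_convexBodyLT'Factor K
    obtain ⟨x, hx₁, hx₂⟩ := exists_primitive_element_lt_of_isComplex K (not_isReal_iff_isComplex.mp hw₀) h1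
    refine ⟨x, hx₁, fun w => (hx₂ w).le.trans ?_⟩
    rw [hB2, Real.sqrt_le_left (by linarith)]
    nlinarith

end

set_option backward.isDefEq.respectTransparency false in
/-- generator with small minimal polynomial -/
theorem exists_poly (A : Type*) [Field A] [CharZero A] (K : IntermediateField ℚ A)
    [FiniteDimensional ℚ K] {n N : ℕ} (hn1 : 1 ≤ n) (hN1 : 1 ≤ N) (hn : finrank ℚ K ≤ n)
    (hK : haveI : NumberField K := @NumberField.mk _ _ inferInstance inferInstance
      |discr K| ≤ N) :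
    ∃ x : A, K = ℚ⟮x⟯ ∧ ∃ f : ℤ[X], f ≠ 0 ∧ f.natDegree ≤ n ∧
      (∀ i, |f.coeff i| ≤ (((N * 2 ^ (n + 2)) ^ n : ℕ) : ℤ)) ∧ aeval x f = 0 := by
  have : CharZero K := SubsemiringClass.instCharZero K
  have : NumberField K := @NumberField.mk _ _ inferInstance inferInstance
  obtain ⟨x, hx₁, hx₂⟩ := exists_small K hn hK
  have hx := x.isIntegral_coe
  set B : ℝ := ((NNReal.sqrt (N : ℝ≥0) * (2 : ℝ≥0) ^ n + 2 : ℝ≥0) : ℝ) with hB
  have hBle : B ≤ ((N * 2 ^ (n + 1) : ℕ) : ℝ) := by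
    have h1 : Real.sqrt (N : ℝ) ≤ N := by
      rw [Real.sqrt_le_left (by positivity)]
      have : (1 : ℝ) ≤ N := by exact_mod_cast hN1
      nlinarith
    have h2 : (2 : ℝ) ≤ N * 2 ^ n := by
      have : (1 : ℝ) ≤ N := by exact_mod_cast hN1
      have h3 : (2 : ℝ) ^ 1 ≤ 2 ^ n := pow_le_pow_right₀ (by norm_num) hn1
      nlinarith
    rw [hB]
    push_cast
    rw [pow_succ]
    have h4 : Real.sqrt (N : ℝ) * 2 ^ n ≤ N * 2 ^ n := by gcongr
    linarith
  have hBnn : 0 ≤ B := by rw [hB]; exact NNReal.coe_nonneg _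
  have hdeg : natDegree (minpoly ℤ (x : K)) ≤ n := by
    have h := hx₁
    rw [Field.primitive_element_iff_minpoly_natDegree_eq,
      minpoly.isIntegrallyClosed_eq_field_fractions' ℚ x.isIntegral_coe,
      (minpoly.monic x.isIntegral_coe).natDegree_map] at h
    exact h.symm ▸ hn
  refine ⟨x, ?_, minpoly ℤ (x : K), minpoly.ne_zero hx, hdeg, fun i => ?_, ?_⟩
  · rw [← (IntermediateField.lift_injective _).eq_iff, eq_comm] at hx₁
    convert! hx₁
    · simp only [IntermediateField.lift_top]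
    · simp only [IntermediateField.lift_adjoin, Set.image_singleton]
  · rw [← @Int.cast_le ℝ]
    refine (Eq.trans_le ?_ <| Embeddings.coeff_bdd_of_norm_le
      ((le_iff_le (x : K) _).mp (fun w ↦ hx₂ w)) i).trans ?_
    · rw [minpoly.isIntegrallyClosed_eq_field_fractions' ℚ hx, coeff_map, eq_intCast,
          Int.norm_cast_rat, Int.norm_eq_abs, Int.cast_abs]
    · have h1 : max B 1 ≤ ((N * 2 ^ (n + 1) : ℕ) : ℝ) := by
        rw [max_le_iff]
        refine ⟨hBle, ?_⟩
        exact_mod_cast Nat.one_le_iff_ne_zero.mpr (by positivity)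
      have h0 : (1 : ℝ) ≤ ((N * 2 ^ (n + 1) : ℕ) : ℝ) := (le_max_right _ _).trans h1
      calc max B 1 ^ finrank ℚ K * ((finrank ℚ K).choose (finrank ℚ K / 2) : ℝ)
          ≤ ((N * 2 ^ (n + 1) : ℕ) : ℝ) ^ finrank ℚ K * 2 ^ finrank ℚ K := by
            gcongr
            exact_mod_cast Nat.choose_le_two_pow _ _
        _ ≤ ((N * 2 ^ (n + 1) : ℕ) : ℝ) ^ n * 2 ^ n := by
            gcongr
            norm_num
        _ = _ := by
            push_cast
            rw [← mul_pow, mul_assoc, ← pow_succ]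
  · have h := minpoly.aeval ℤ (x : K)
    have h' := congrArg K.val h
    rw [map_zero, Polynomial.aeval_def, ← AlgHom.coe_toRingHom, Polynomial.hom_eval₂] at h'
    rw [Polynomial.aeval_def]
    rw [RingHom.ext_int (algebraMap ℤ A) (K.val.toRingHom.comp (algebraMap ℤ K))]
    exact h'

open Classical in
/-- the polynomial with given coefficients -/
noncomputable def pol (n : ℕ) (a : Fin (n + 1) → ℤ) : ℤ[X] := ∑ i : Fin (n + 1), Polynomial.monomial i (a i)

lemma pol_coeff (n : ℕ) (f : ℤ[X]) (hf : f.natDegree ≤ n) : pol n (fun i => f.coeff i) = f := by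
  unfold pol
  rw [Fin.sum_univ_eq_sum_range (fun i => Polynomial.monomial i (f.coeff i)) (n + 1)]
  exact (Polynomial.as_sum_range' f (n + 1) (by omega)).symm

lemma pol_deg (n : ℕ) (a : Fin (n + 1) → ℤ) : (pol n a).natDegree ≤ n := by
  unfold pol
  apply Polynomial.natDegree_sum_le_of_forall_le
  intro i _
  exact (Polynomial.natDegree_monomial_le _).trans (by omega)

open Classical in
/-- the candidates -/
noncomputable def T (A : Type*) [Field A] [CharZero A] (n C : ℕ) : Finset A :=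
  (Fintype.piFinset fun _ : Fin (n + 1) => Finset.Icc (-C : ℤ) C).biUnion fun a =>
    ((pol n a).map (algebraMap ℤ A)).roots.toFinset

open Classical in
lemma card_T (A : Type*) [Field A] [CharZero A] (n C : ℕ) :
    (T A n C).card ≤ (2 * C + 1) ^ (n + 1) * n := by
  unfold T
  refine (Finset.card_biUnion_le_card_mul _ _ n fun a _ => ?_).trans ?_
  · exact (Multiset.toFinset_card_le _).trans ((Polynomial.card_roots' _).trans
      ((Polynomial.natDegree_map_le).trans (pol_deg n a)))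
  · rw [Fintype.card_piFinset]
    simp only [Int.card_Icc, Finset.prod_const, Finset.card_univ, Fintype.card_fin]
    apply Nat.mul_le_mul_right
    apply Nat.pow_le_pow_left
    omega

lemma num (n D : ℕ) (hn : 1 ≤ n) (hD : 1 ≤ D) :
    (2 * (D * 2 ^ (n + 2)) ^ n + 1) ^ (n + 1) * n ≤ (8 * D) ^ (40 * n ^ 3) := by
  have h1 : 1 ≤ (D * 2 ^ (n + 2)) ^ n := Nat.one_le_iff_ne_zero.mpr (by positivity)
  have h2 : n ≤ 2 ^ n := Nat.lt_two_pow_self.le
  calc (2 * (D * 2 ^ (n + 2)) ^ n + 1) ^ (n + 1) * n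
      ≤ (2 ^ 2 * (D * 2 ^ (n + 2)) ^ n) ^ (n + 1) * 2 ^ n := by
        gcongr
        omega
    _ = 2 ^ (2 * (n + 1) + (n + 2) * n * (n + 1) + n) * D ^ (n * (n + 1)) := by
        rw [mul_pow D, mul_pow (2 ^ 2), mul_pow (D ^ n), ← pow_mul, ← pow_mul, ← pow_mul, ← pow_mul,
          pow_add, pow_add]
        ring
    _ ≤ 2 ^ (3 * (40 * n ^ 3)) * D ^ (40 * n ^ 3) := by
        have e1 : n ≤ n ^ 2 := by nlinarith
        have e2 : n ^ 2 ≤ n ^ 3 := by nlinarith
        have e3 : 1 ≤ n ^ 3 := Nat.one_le_pow _ _ hn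
        have e4 : 2 * (n + 1) + (n + 2) * n * (n + 1) + n = n ^ 3 + 3 * n ^ 2 + 5 * n + 2 := by ring
        have e5 : n * (n + 1) = n ^ 2 + n := by ring
        exact Nat.mul_le_mul (Nat.pow_le_pow_right (by norm_num) (by rw [e4]; omega))
          (Nat.pow_le_pow_right hD (by rw [e5]; omega))
    _ = (8 * D) ^ (40 * n ^ 3) := by
        rw [mul_pow, pow_mul]
        norm_num

theorem t_HERM : S_HERM := by
  classical
  intro n D hn hD
  set C := (D * 2 ^ (n + 2)) ^ n with hC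
  have hsub : {F : IntermediateField ℚ (AlgebraicClosure ℚ) | ∃ _ : FiniteDimensional ℚ F,
      Module.finrank ℚ F ≤ n ∧ (dF F).natAbs ≤ D} ⊆
      ((T (AlgebraicClosure ℚ) n C).image fun x => ℚ⟮x⟯ : Finset _) := by
    rintro F ⟨hF, h1, h2⟩
    have h3 : haveI : NumberField F := @NumberField.mk _ _ inferInstance inferInstance
      |discr F| ≤ D := by
      unfold dF at h2
      rw [Int.abs_eq_natAbs]
      exact_mod_cast h2
    obtain ⟨x, hx, f, hf0, hf1, hf2, hf3⟩ := exists_poly (AlgebraicClosure ℚ) F hn hD h1 h3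
    rw [Finset.coe_image]
    refine ⟨x, ?_, hx.symm⟩
    unfold T
    simp only [Finset.coe_biUnion, Set.mem_iUnion, Finset.mem_coe]
    refine ⟨fun i => f.coeff i, ?_, ?_⟩
    · rw [Fintype.mem_piFinset]
      intro i
      rw [Finset.mem_Icc, ← abs_le]
      exact hf2 i
    · rw [pol_coeff n f hf1, Multiset.mem_toFinset, Polynomial.mem_roots', Polynomial.IsRoot.def,
        Polynomial.eval_map_algebraMap]
      refine ⟨?_, hf3⟩
      exact (Polynomial.map_ne_zero_iff (algebraMap ℤ (AlgebraicClosure ℚ)).injective_int).mpr hf0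
  refine ⟨(Finset.finite_toSet _).subset hsub, ?_⟩
  refine (Set.ncard_le_ncard hsub (Finset.finite_toSet _)).trans ?_
  rw [Set.ncard_coe_finset]
  exact (Finset.card_image_le.trans (card_T _ n C)).trans (num n D hn hD)

end Pool.Agent.N890.US.HERM
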