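import Pool.Agent.N890.US.Stm

/-! LF1: inertia at a ramified prime lifts to the absolute Galois group (helper562; the lifting
argument follows Pool/Agent/W215/FM/Gen.lean). -/

set_option autoImplicit false

namespace Pool.Agent.N890.US.LF1

open NumberField Pool.Agent.N890.US
open scoped Pointwise

/-- ramified primes have nontrivial inertia groups -/
theorem fin_level (L : Type) [Field L] [NumberField L] [IsGalois ℚ L] (q : ℕ) (hq : q.Prime)
    (h : (q : ℤ) ∣ NumberField.discr L) (P : Ideal (𝓞 L)) (hPp : P.IsPrime)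
    (hP : ((q : ℕ) : 𝓞 L) ∈ P) : ∃ γ ∈ P.inertia (L ≃ₐ[ℚ] L), γ ≠ 1 := by
  by_contra hno
  push Not at hno
  have hqp : Prime (q : ℤ) := Nat.prime_iff_prime_int.1 hq
  have hspan : (Ideal.span {(q : ℤ)}).IsMaximal :=
    PrincipalIdealRing.isMaximal_of_irreducible hqp.irreducible
  have hlo : ∀ Q : Ideal (𝓞 L), Q.IsPrime → ((q : ℕ) : 𝓞 L) ∈ Q → Q.LiesOver (Ideal.span {(q : ℤ)}) := by
    intro Q hQ hqQ
    refine (Ideal.liesOver_span_iff hQ.ne_top hqp).mpr ?_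
    simpa using hqQ
  have hG1 : IsGaloisGroup (L ≃ₐ[ℚ] L) ℤ (𝓞 L) :=
    IsGaloisGroup.of_isFractionRing (L ≃ₐ[ℚ] L) ℤ (𝓞 L) ℚ L
  have := hlo P hPp hP
  have e1 : Nat.card (P.inertia (L ≃ₐ[ℚ] L)) = (Ideal.span {(q : ℤ)}).ramificationIdxIn (𝓞 L) :=
    Ideal.card_inertia_eq_ramificationIdxIn (Ideal.span {(q : ℤ)}) P
  have e2 : Nat.card (P.inertia (L ≃ₐ[ℚ] L)) = 1 := by
    have : P.inertia (L ≃ₐ[ℚ] L) = ⊥ := by
      rw [Subgroup.eq_bot_iff_forall]
      exact fun x hx => hno x hx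
    rw [this]
    exact Subgroup.card_bot
  refine (NumberField.not_dvd_discr_iff_forall_mem L (𝓞 L) hqp).2 ?_ h
  intro Q hQ hqQ
  have hqQ' : ((q : ℕ) : 𝓞 L) ∈ Q := by simpa using hqQ
  have := hlo Q hQ hqQ'
  have e3 : (Ideal.span {(q : ℤ)}).ramificationIdxIn (𝓞 L) = Q.ramificationIdx ℤ :=
    Ideal.ramificationIdxIn_eq_ramificationIdx (Ideal.span {(q : ℤ)}) Q (L ≃ₐ[ℚ] L)
  rw [← Ideal.ramificationIdx_eq_one_iff, ← e3, ← e1, e2]

theorem fin_level' (L : Type) [Field L] [NumberField L] [inst : Algebra ℚ L] [IsGalois ℚ L]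
    (q : ℕ) (hq : q.Prime)
    (h : (q : ℤ) ∣ NumberField.discr L) (P : Ideal (𝓞 L)) (hPp : P.IsPrime)
    (hP : ((q : ℕ) : 𝓞 L) ∈ P) : ∃ γ ∈ P.inertia (L ≃ₐ[ℚ] L), γ ≠ 1 := by
  obtain rfl : inst = DivisionRing.toRatAlgebra := Subsingleton.elim _ _
  exact fin_level L q hq h P hPp hP

abbrev GQ : Type := AlgebraicClosure ℚ ≃ₐ[ℚ] AlgebraicClosure ℚ

abbrev OQ : Type := 𝓞 (AlgebraicClosure ℚ)

instance galQ : IsGalois ℚ (AlgebraicClosure ℚ) := by
  have h : @IsGalois ℚ _ (AlgebraicClosure ℚ) _ (AlgebraicClosure.instAlgebra ℚ) := by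
    infer_instance
  convert h
  exact Subsingleton.elim _ _

theorem coe_smul (σ : GQ) (x : OQ) : ((σ • x : OQ) : AlgebraicClosure ℚ) = σ x := rfl

section
variable (F : IntermediateField ℚ (AlgebraicClosure ℚ))

theorem smulComm : SMulCommClass F.fixingSubgroup (𝓞 F) OQ := by
  refine ⟨fun g a b => ?_⟩
  apply RingOfIntegers.ext
  rw [Subgroup.smul_def, Subgroup.smul_def, coe_smul, Algebra.smul_def, Algebra.smul_def]
  show g.1 ((algebraMap (𝓞 F) OQ a : OQ) * (b : AlgebraicClosure ℚ)) =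
    (algebraMap (𝓞 F) OQ a : OQ) * g.1 b
  rw [map_mul]
  congr 1
  exact (IntermediateField.mem_fixingSubgroup_iff F g.1).1 g.2 _ (a : F).2

theorem isInv : Algebra.IsInvariant (𝓞 F) OQ F.fixingSubgroup := by
  refine ⟨fun b hb => ?_⟩
  have h1 : (b : AlgebraicClosure ℚ) ∈ F := by
    rw [← InfiniteGalois.fixedField_fixingSubgroup F]
    intro g
    exact congrArg (fun z : OQ => (z : AlgebraicClosure ℚ)) (hb g)
  refine ⟨⟨⟨b, h1⟩, ?_⟩, ?_⟩
  · have h3 : IsIntegral ℤ (algebraMap F (AlgebraicClosure ℚ) ⟨b, h1⟩) := b.2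
    exact (isIntegral_algebraMap_iff (algebraMap F (AlgebraicClosure ℚ)).injective).1 h3
  · apply RingOfIntegers.ext
    rfl

end

/-- elements of the inertia group of a finite Galois extension lift -/
theorem lift_inertia (F : IntermediateField ℚ (AlgebraicClosure ℚ)) [FiniteDimensional ℚ F]
    [IsGalois ℚ F] (Q : Ideal OQ) (hQm : Q.IsPrime) (γ : F ≃ₐ[ℚ] F)
    (hγ : γ ∈ (Q.under (𝓞 F)).inertia (F ≃ₐ[ℚ] F)) :
    ∃ τ : GQ, (∀ x : OQ, τ • x - x ∈ Q) ∧ ∀ x : F, τ x = γ x := by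
  classical
  have hclosed : IsClosed (F.fixingSubgroup : Set GQ) := InfiniteGalois.fixingSubgroup_isClosed F
  have hcomm : SMulCommClass F.fixingSubgroup (𝓞 F) OQ := smulComm F
  have hinv : Algebra.IsInvariant (𝓞 F) OQ F.fixingSubgroup := isInv F
  have hcpt : CompactSpace F.fixingSubgroup := isCompact_iff_compactSpace.1 hclosed.isCompact
  let _ : TopologicalSpace OQ := ⊥
  have : DiscreteTopology OQ := ⟨rfl⟩
  have hcont : ContinuousSMul GQ OQ := by
    rw [continuousSMul_iff_stabilizer_isOpen]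
    intro x
    have h1 := stabilizer_isOpen_of_isIntegral (K := ℚ) (x : AlgebraicClosure ℚ)
    convert h1 using 2
    ext g
    rw [MulAction.mem_stabilizer_iff, MulAction.mem_stabilizer_iff]
    constructor
    · intro h
      exact congrArg (fun z : OQ => (z : AlgebraicClosure ℚ)) h
    · intro h
      exact RingOfIntegers.ext h
  have hcontU : ContinuousSMul F.fixingSubgroup OQ := inferInstance
  set P : Ideal (𝓞 F) := Q.under (𝓞 F) with hPdef
  have hQP : Q.LiesOver P := ⟨rfl⟩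
  obtain ⟨g0, hg0⟩ := AlgEquiv.restrictNormalHom_surjective (F := ℚ) (K₁ := F)
    (AlgebraicClosure ℚ) γ
  have hres : ∀ a : 𝓞 F, g0 • (algebraMap (𝓞 F) OQ a) =
      algebraMap (𝓞 F) OQ (γ • a) := by
    intro a
    apply RingOfIntegers.ext
    rw [coe_smul]
    have := AlgEquiv.restrictNormal_commutes g0 F (a : F)
    rw [← hg0]
    exact this.symm
  have hres' : ∀ a : 𝓞 F, g0⁻¹ • (algebraMap (𝓞 F) OQ a) =
      algebraMap (𝓞 F) OQ (γ⁻¹ • a) := by
    intro a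
    rw [inv_smul_eq_iff, hres, smul_inv_smul]
  have hmemP : ∀ a : 𝓞 F, algebraMap (𝓞 F) OQ a ∈ Q ↔ a ∈ P := by
    intro a
    rfl
  have hQ' : (g0 • Q).IsPrime := inferInstance
  have hunder : (g0 • Q).under (𝓞 F) = Q.under (𝓞 F) := by
    ext a
    rw [Ideal.under_def, Ideal.mem_comap, Ideal.under_def, Ideal.mem_comap,
      Ideal.mem_pointwise_smul_iff_inv_smul_mem, hres', hmemP, hmemP]
    have h1 : γ⁻¹ • a - a ∈ P := (inv_mem hγ) a
    constructor
    · intro h2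
      have := P.sub_mem h2 h1
      rwa [sub_sub_cancel] at this
    · intro h2
      have := P.add_mem h1 h2
      rwa [sub_add_cancel] at this
  obtain ⟨h, hh⟩ := Algebra.IsInvariant.exists_smul_of_under_eq_of_profinite
    (A := 𝓞 F) (G := F.fixingSubgroup) (g0 • Q) Q hunder
  set g1 : GQ := h.1 * g0 with hg1
  have hg1Q : g1 • Q = Q := by
    rw [hg1, mul_smul]
    exact hh.symm
  have hres1 : ∀ a : 𝓞 F, g1 • (algebraMap (𝓞 F) OQ a) =
      algebraMap (𝓞 F) OQ (γ • a) := by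
    intro a
    rw [hg1, mul_smul, hres]
    exact smul_algebraMap h (γ • a)
  have hmap : Q = Q.map (MulSemiringAction.toRingEquiv GQ OQ g1 : OQ →+* OQ) := by
    conv_lhs => rw [← hg1Q]
    rw [Ideal.pointwise_smul_def]
    rfl
  let σ : (OQ ⧸ Q) ≃ₐ[𝓞 F ⧸ P] (OQ ⧸ Q) :=
    AlgEquiv.ofRingEquiv (f := Ideal.quotientEquiv Q Q
      (MulSemiringAction.toRingEquiv GQ OQ g1) hmap) (by
      intro a
      obtain ⟨a, rfl⟩ := Ideal.Quotient.mk_surjective a
      show Ideal.Quotient.mk Q (g1 • algebraMap (𝓞 F) OQ a) =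
        Ideal.Quotient.mk Q (algebraMap (𝓞 F) OQ a)
      rw [Ideal.Quotient.mk_eq_mk_iff_sub_mem, hres1, ← map_sub, hmemP]
      exact hγ a)
  obtain ⟨k, hk⟩ := Ideal.Quotient.stabilizerHom_surjective_of_profinite
    (G := F.fixingSubgroup) P Q σ
  have hk' : ∀ x : OQ, g1 • x - k.1.1 • x ∈ Q := by
    intro x
    have h1 := DFunLike.congr_fun hk (Ideal.Quotient.mk Q x)
    rw [Ideal.Quotient.stabilizerHom_apply] at h1
    rw [← Ideal.Quotient.mk_eq_mk_iff_sub_mem]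
    exact h1.symm
  obtain ⟨k1, hkU, hkQ, hk'⟩ : ∃ k1 : GQ, k1 ∈ F.fixingSubgroup ∧ k1 • Q = Q ∧
      ∀ x : OQ, g1 • x - k1 • x ∈ Q := ⟨k.1.1, k.1.2, k.2, hk'⟩
  refine ⟨k1⁻¹ * g1, ?_, ?_⟩
  · intro x
    have h1 := hk' x
    rw [← hkQ, Ideal.mem_pointwise_smul_iff_inv_smul_mem, smul_sub, inv_smul_smul,
      ← mul_smul] at h1
    exact h1
  · intro x
    have h7 := AlgEquiv.restrictNormal_commutes g0 F x
    have h8 : (g0 : AlgebraicClosure ℚ → AlgebraicClosure ℚ) x = γ x := by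
      have h9 : g0.restrictNormal F = γ := hg0
      rw [h9] at h7
      exact h7.symm
    have h10 : g1 (x : AlgebraicClosure ℚ) = γ x := by
      show h.1 (g0 x) = γ x
      rw [h8]
      exact (IntermediateField.mem_fixingSubgroup_iff F h.1).1 h.2 _ (γ x).2
    have h11 : k1⁻¹ ∈ F.fixingSubgroup := inv_mem hkU
    show k1⁻¹ (g1 x) = γ x
    rw [h10]
    exact (IntermediateField.mem_fixingSubgroup_iff F _).1 h11 _ (γ x).2

theorem t_LF1 : S_LF1 := by
  intro q hq F _ _ hdisc 𝔓 h𝔓 hq𝔓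
  have hnf : NumberField F := @NumberField.mk _ _ inferInstance inferInstance
  let Q : Ideal OQ := 𝔓
  have hQ : Q.IsPrime := h𝔓
  have hmem : ((q : ℕ) : 𝓞 F) ∈ Q.under (𝓞 F) := by
    rw [Ideal.under_def, Ideal.mem_comap, map_natCast]
    exact hq𝔓
  obtain ⟨γ, hγ, hγ1⟩ := fin_level' F q hq hdisc (Q.under (𝓞 F)) inferInstance hmem
  obtain ⟨τ, h1, h2⟩ := lift_inertia F Q hQ γ hγ
  refine ⟨τ, ?_, ?_⟩
  · intro x y hxy
    have key : ∀ x' y' : OQ, (y' : AlgebraicClosure ℚ) = τ x' → y' - x' ∈ Q := by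
      intro x' y' h
      have h4 : τ • x' = y' := RingOfIntegers.ext h.symm
      rw [← h4]
      exact h1 x'
    exact key x y hxy
  · by_contra hno
    push Not at hno
    apply hγ1
    ext x
    have h5 := h2 x
    rw [hno x x.2] at h5
    exact h5.symm

end Pool.Agent.N890.US.LF1
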