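import Pool.Agent.N890.US.Stm

set_option autoImplicit false

namespace Pool.Agent.N890.US.LF2

open Pool.Agent.N890.US Polynomial

/-- integral elements have norm at most one -/
lemma norm_le_one_of_int {K : Type*} [NormedField K] [IsUltrametricDist K] (x : K)
    (hx : IsIntegral ℤ x) : ‖x‖ ≤ 1 := by
  obtain ⟨f, hf, hf0⟩ := hx
  by_contra hlt
  push Not at hlt
  have h1 : f.eval₂ (algebraMap ℤ K) x = 0 := hf0
  rw [eval₂_eq_sum_range, Finset.sum_range_succ, hf.coeff_natDegree, map_one, one_mul] at h1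
  have h2 : ‖∑ i ∈ Finset.range f.natDegree, (algebraMap ℤ K) (f.coeff i) * x ^ i‖
      < ‖x ^ f.natDegree‖ := by
    rcases Nat.eq_zero_or_pos f.natDegree with h0 | h0
    · rw [h0]; simp
    · have hne : (Finset.range f.natDegree).Nonempty := ⟨0, Finset.mem_range.2 h0⟩
      have := IsUltrametricDist.exists_norm_finsetSum_le (Finset.range f.natDegree)
        (fun i => (algebraMap ℤ K) (f.coeff i) * x ^ i)
      obtain ⟨i, hi, hle⟩ := this
      have hi := Finset.mem_range.1 (hi hne)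
      refine lt_of_le_of_lt hle ?_
      rw [norm_mul, norm_pow, norm_pow]
      have hc : ‖(algebraMap ℤ K) (f.coeff i)‖ ≤ 1 := by
        rw [eq_intCast]
        exact IsUltrametricDist.norm_intCast_le_one K _
      calc ‖(algebraMap ℤ K) (f.coeff i)‖ * ‖x‖ ^ i ≤ 1 * ‖x‖ ^ i :=
            mul_le_mul_of_nonneg_right hc (by positivity)
        _ = ‖x‖ ^ i := one_mul _
        _ < ‖x‖ ^ f.natDegree := pow_lt_pow_right₀ hlt hi
  have h3 : x ^ f.natDegree = -∑ i ∈ Finset.range f.natDegree,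
      (algebraMap ℤ K) (f.coeff i) * x ^ i := by
    rw [eq_neg_iff_add_eq_zero, add_comm]; exact h1
  rw [h3, norm_neg] at h2
  exact lt_irrefl _ h2

/-- the partial sums `c_k + c_{k+1} x + ... ` -/
noncomputable def h {L : Type*} [Field L] (f : ℤ[X]) (x : L) (k : ℕ) : L :=
  aeval x (divX^[k] f)

lemma h_succ {L : Type*} [Field L] (f : ℤ[X]) (x : L) (k : ℕ) :
    h f x k = h f x (k + 1) * x + (f.coeff k : L) := by
  have hc : ∀ (k j : ℕ) (g : ℤ[X]), (divX^[k] g).coeff j = g.coeff (j + k) := by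
    intro k
    induction k with
    | zero => intro j g; simp
    | succ k ih =>
      intro j g
      rw [Function.iterate_succ_apply, ih, coeff_divX]
      congr 1
  unfold h
  rw [Function.iterate_succ_apply']
  conv_lhs => rw [← divX_mul_X_add (divX^[k] f)]
  rw [map_add, map_mul, aeval_X, aeval_C, hc, Nat.zero_add]
  simp

lemma h_big {L : Type*} [Field L] (f : ℤ[X]) (x : L) (k : ℕ) (hk : f.natDegree < k) :
    h f x k = 0 := by
  have hc : ∀ (k j : ℕ) (g : ℤ[X]), (divX^[k] g).coeff j = g.coeff (j + k) := by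
    intro k
    induction k with
    | zero => intro j g; simp
    | succ k ih =>
      intro j g
      rw [Function.iterate_succ_apply, ih, coeff_divX]
      congr 1
  have : divX^[k] f = 0 := by
    ext j
    rw [hc, coeff_zero]
    exact coeff_eq_zero_of_natDegree_lt (by omega)
  unfold h
  rw [this, map_zero]

lemma h_sum {L : Type*} [Field L] (f : ℤ[X]) (x : L) (hx : aeval x f = 0) (k : ℕ) :
    h f x k * x ^ k + ∑ j ∈ Finset.range k, (f.coeff j : L) * x ^ j = 0 := by
  induction k with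
  | zero => simp [h, hx]
  | succ k ih =>
    rw [← ih, Finset.sum_range_succ, h_succ f x k]
    ring

/-- a leading coefficient times a root is integral -/
lemma lead_int {L : Type*} [Field L] (x b : L) (c : ℕ → ℤ) (k : ℕ) (hk : 0 < k)
    (hb : IsIntegral ℤ b)
    (hs : b * x ^ k + ∑ j ∈ Finset.range k, (c j : L) * x ^ j = 0) : IsIntegral ℤ (b * x) := by
  rcases eq_or_ne b 0 with h0 | h0
  · rw [h0, zero_mul]; exact isIntegral_zero
  let A := integralClosure ℤ L
  let b' : A := ⟨b, hb⟩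
  have hb' : b' ≠ 0 := fun h => h0 (congrArg Subtype.val h)
  let p : A[X] := C b' * X ^ k + ∑ j ∈ Finset.range k, C ((c j : ℤ) : A) * X ^ j
  have hdeg : (∑ j ∈ Finset.range k, C ((c j : ℤ) : A) * X ^ j).degree < (C b' * X ^ k).degree := by
    rw [degree_C_mul_X_pow k hb']
    rw [← mem_degreeLT]
    refine Submodule.sum_mem _ fun j hj => ?_
    rw [mem_degreeLT]
    refine lt_of_le_of_lt (degree_C_mul_X_pow_le _ _) ?_
    exact_mod_cast Finset.mem_range.1 hj
  have hlead : p.leadingCoeff = b' := by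
    change (C b' * X ^ k + ∑ j ∈ Finset.range k, C ((c j : ℤ) : A) * X ^ j).leadingCoeff = b'
    rw [leadingCoeff_add_of_degree_lt' hdeg, leadingCoeff_C_mul_X_pow]
  have hroot : aeval x p = 0 := by
    rw [map_add, map_mul, map_pow, aeval_X, aeval_C, map_sum, ← hs]
    congr 1
    refine Finset.sum_congr rfl fun j _ => ?_
    rw [map_mul, map_pow, aeval_X, aeval_C]
    simp
  have hI := isIntegral_leadingCoeff_smul p x hroot
  rw [hlead] at hI
  have h2 : IsIntegral ℤ (b' • x) := isIntegral_trans (A := A) _ hI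
  exact h2

lemma h_int {L : Type*} [Field L] (f : ℤ[X]) (x : L) (hx : aeval x f = 0) (k : ℕ) :
    IsIntegral ℤ (h f x k) := by
  -- downward induction
  have key : ∀ m k : ℕ, f.natDegree + 1 ≤ k + m → IsIntegral ℤ (h f x k) := by
    intro m
    induction m with
    | zero => intro k hk; rw [h_big f x k (by omega)]; exact isIntegral_zero
    | succ m ih =>
      intro k hk
      rw [h_succ]
      refine IsIntegral.add ?_ (isIntegral_algebraMap (R := ℤ) (A := L) (x := f.coeff k))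
      exact lead_int x _ (fun j => f.coeff j) (k + 1) (Nat.succ_pos _) (ih (k + 1) (by omega))
        (h_sum f x hx (k + 1))
  exact key (f.natDegree + 1) k (by omega)

lemma exists_prim {L : Type*} [Field L] [Algebra ℚ L] (x : L) (hx : IsAlgebraic ℚ x) :
    ∃ f : ℤ[X], f.IsPrimitive ∧ aeval x f = 0 := by
  have halg : IsAlgebraic ℤ x := (IsFractionRing.isAlgebraic_iff ℤ ℚ L).2 hx
  have : CharZero L := algebraRat.charZero L
  obtain ⟨f, hf0, hf⟩ := halg
  exact ⟨f.primPart, f.isPrimitive_primPart, aeval_primPart_eq_zero hf0 hf⟩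

section main

variable {q : ℕ} [Fact q.Prime] (ι : AlgebraicClosure ℚ →ₐ[ℚ] AlgebraicClosure ℚ_[q])
  (τ : AlgebraicClosure ℚ ≃ₐ[ℚ] AlgebraicClosure ℚ)
  (hτ : ∀ x : AlgebraicClosure ℚ, IsIntegral ℤ x → ‖ι (τ x) - ι x‖ < 1)

lemma iota_int {x : AlgebraicClosure ℚ} (hx : IsIntegral ℤ x) : ‖ι x‖ ≤ 1 := by
  apply norm_le_one_of_int
  exact hx.map (ι.toRingHom.toIntAlgHom)

lemma tau_int {x : AlgebraicClosure ℚ} (hx : IsIntegral ℤ x) : IsIntegral ℤ (τ x) :=
  hx.map (τ.toRingEquiv.toRingHom.toIntAlgHom)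

lemma exists_unit_denom (x : AlgebraicClosure ℚ) (hx : ‖ι x‖ ≤ 1) :
    ∃ b : AlgebraicClosure ℚ, IsIntegral ℤ b ∧ IsIntegral ℤ (b * x) ∧ ‖ι b‖ = 1 := by
  -- a primitive integral polynomial vanishing at `x`
  obtain ⟨f, hprim, hfx⟩ := exists_prim x (AlgebraicClosure.isAlgebraic ℚ |>.isAlgebraic x)
  by_contra hno
  push Not at hno
  have hlt : ∀ k, ‖ι (h f x (k + 1))‖ < 1 := by
    intro k
    refine lt_of_le_of_ne (iota_int ι (h_int f x hfx _)) ?_
    apply hno _ (h_int f x hfx _)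
    have e : h f x (k + 1) * x = h f x k - (f.coeff k : AlgebraicClosure ℚ) := by
      rw [h_succ f x k]; ring
    rw [e]
    exact (h_int f x hfx k).sub (isIntegral_algebraMap (R := ℤ) (A := AlgebraicClosure ℚ)
      (x := f.coeff k))
  have hlt0 : ∀ k, ‖ι (h f x k)‖ < 1 := by
    intro k
    cases k with
    | zero =>
      have : h f x 0 = 0 := hfx
      rw [this, map_zero, norm_zero]; exact one_pos
    | succ k => exact hlt k
  have hcoeff : ∀ k, (q : ℤ) ∣ f.coeff k := by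
    intro k
    have e : ((f.coeff k : ℤ) : AlgebraicClosure ℚ_[q]) = ι (h f x k) - ι (h f x (k + 1)) * ι x := by
      rw [← map_mul, ← map_sub, h_succ f x k]
      rw [add_sub_cancel_left, map_intCast]
    have h1 : ‖((f.coeff k : ℤ) : AlgebraicClosure ℚ_[q])‖ < 1 := by
      rw [e, sub_eq_add_neg]
      refine lt_of_le_of_lt (IsUltrametricDist.norm_add_le_max _ _) (max_lt (hlt0 k) ?_)
      rw [norm_neg, norm_mul]
      calc ‖ι (h f x (k + 1))‖ * ‖ι x‖ ≤ ‖ι (h f x (k + 1))‖ * 1 :=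
            mul_le_mul_of_nonneg_left hx (norm_nonneg _)
        _ < 1 := by rw [mul_one]; exact hlt k
    have h2 : ‖((f.coeff k : ℤ) : AlgebraicClosure ℚ_[q])‖ = ‖((f.coeff k : ℤ) : ℚ_[q])‖ := by
      rw [← PadicAlgCl.norm_extends q]
      congr 1
    rw [h2] at h1
    exact (Padic.norm_intCast_lt_one_iff).1 h1
  have hdvd : C (q : ℤ) ∣ f := by
    rw [C_dvd_iff_dvd_coeff]; exact hcoeff
  have hunit := hprim _ hdvd
  have hp : Prime (q : ℤ) := Nat.prime_iff_prime_int.1 (Fact.out)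
  exact hp.not_isUnit hunit

include hτ in
lemma le_one (x : AlgebraicClosure ℚ) (hx : ‖ι x‖ ≤ 1) : ‖ι (τ x)‖ ≤ 1 := by
  obtain ⟨b, hb, hbx, hb1⟩ := exists_unit_denom ι x hx
  have h1 : ‖ι (τ b)‖ = 1 := by
    have h2 := hτ b hb
    have h3 : ι (τ b) = ι b + (ι (τ b) - ι b) := by ring
    rw [h3, IsUltrametricDist.norm_add_eq_max_of_norm_ne_norm (by rw [hb1]; exact ne_of_gt h2),
      hb1, max_eq_left h2.le]
  have h2 : ‖ι (τ (b * x))‖ ≤ 1 := iota_int ι (tau_int τ hbx)
  rwa [map_mul, map_mul, norm_mul, h1, one_mul] at h2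

include hτ in
lemma le_of_le (y : AlgebraicClosure ℚ) (c : ℚ) (hc : c ≠ 0)
    (hy : ‖ι y‖ ≤ ‖((c : ℚ) : AlgebraicClosure ℚ_[q])‖) :
    ‖ι (τ y)‖ ≤ ‖((c : ℚ) : AlgebraicClosure ℚ_[q])‖ := by
  have hc' : ((c : ℚ) : AlgebraicClosure ℚ_[q]) ≠ 0 := by exact_mod_cast hc
  have hpos : 0 < ‖((c : ℚ) : AlgebraicClosure ℚ_[q])‖ := norm_pos_iff.2 hc'
  have h1 := le_one ι τ hτ (y / (c : AlgebraicClosure ℚ)) (by
    rw [map_div₀, map_ratCast, norm_div]
    exact (div_le_one hpos).2 hy)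
  rw [map_div₀, map_ratCast, map_div₀, map_ratCast, norm_div] at h1
  exact (div_le_one hpos).1 h1

include hτ in
lemma root (θ : AlgebraicClosure ℚ) (P : ℚ_[q][X]) (hP : aeval (ι θ) P = 0) :
    aeval (ι (τ θ)) P = 0 := by
  set d := P.natDegree
  set M : ℝ := (∑ i ∈ Finset.range (d + 1), ‖ι θ‖ ^ i) +
    ∑ i ∈ Finset.range (d + 1), ‖ι (τ θ)‖ ^ i + 1 with hM
  have hMpos : 0 < M := by positivity
  have key : ∀ j : ℕ, ‖aeval (ι (τ θ)) P‖ ≤ 2 * ((q : ℝ)⁻¹) ^ j := by
    intro j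
    have hq0 : 0 < (q : ℝ) := by exact_mod_cast (Fact.out : q.Prime).pos
    set δ : ℝ := ((q : ℝ)⁻¹) ^ j with hδ
    have hδpos : 0 < δ := by positivity
    have hε : 0 < δ / M := by positivity
    choose r hr using fun i => Padic.rat_dense q (P.coeff i) hε
    set G : AlgebraicClosure ℚ := ∑ i ∈ Finset.range (d + 1), (r i : AlgebraicClosure ℚ) * θ ^ i
      with hG
    -- the general estimate
    have est : ∀ x : AlgebraicClosure ℚ_[q],
        (∑ i ∈ Finset.range (d + 1), ‖x‖ ^ i) ≤ M →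
        ‖aeval x P - ∑ i ∈ Finset.range (d + 1), (r i : AlgebraicClosure ℚ_[q]) * x ^ i‖ ≤ δ := by
      intro x hx
      rw [aeval_eq_sum_range, ← Finset.sum_sub_distrib]
      calc ‖∑ i ∈ Finset.range (d + 1), (P.coeff i • x ^ i - (r i : AlgebraicClosure ℚ_[q]) * x ^ i)‖
          ≤ ∑ i ∈ Finset.range (d + 1),
            ‖P.coeff i • x ^ i - (r i : AlgebraicClosure ℚ_[q]) * x ^ i‖ := norm_sum_le _ _
        _ ≤ ∑ i ∈ Finset.range (d + 1), δ / M * ‖x‖ ^ i := by
          refine Finset.sum_le_sum fun i _ => ?_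
          have e : P.coeff i • x ^ i - (r i : AlgebraicClosure ℚ_[q]) * x ^ i =
              (algebraMap ℚ_[q] (AlgebraicClosure ℚ_[q]) (P.coeff i - (r i : ℚ_[q]))) * x ^ i := by
            rw [Algebra.smul_def, map_sub, map_ratCast]; ring
          rw [e, norm_mul, norm_pow]
          refine mul_le_mul_of_nonneg_right ?_ (by positivity)
          have := PadicAlgCl.norm_extends q (P.coeff i - (r i : ℚ_[q]))
          exact (this.trans_lt (hr i)).le
        _ = δ / M * ∑ i ∈ Finset.range (d + 1), ‖x‖ ^ i := by rw [Finset.mul_sum]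
        _ ≤ δ / M * M := mul_le_mul_of_nonneg_left hx hε.le
        _ = δ := by field_simp
    have hG1 : ι G = ∑ i ∈ Finset.range (d + 1), (r i : AlgebraicClosure ℚ_[q]) * (ι θ) ^ i := by
      rw [hG, map_sum]
      exact Finset.sum_congr rfl fun i _ => by rw [map_mul, map_pow, map_ratCast]
    have hG2 : ι (τ G) = ∑ i ∈ Finset.range (d + 1),
        (r i : AlgebraicClosure ℚ_[q]) * (ι (τ θ)) ^ i := by
      rw [hG, map_sum, map_sum]
      exact Finset.sum_congr rfl fun i _ => by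
        rw [map_mul, map_mul, map_pow, map_pow, map_ratCast, map_ratCast]
    have hs1 : 0 ≤ ∑ i ∈ Finset.range (d + 1), ‖ι θ‖ ^ i := by positivity
    have hs2 : 0 ≤ ∑ i ∈ Finset.range (d + 1), ‖ι (τ θ)‖ ^ i := by positivity
    have e1 := est (ι θ) (by rw [hM]; linarith)
    have e2 := est (ι (τ θ)) (by rw [hM]; linarith)
    rw [hP, zero_sub, norm_neg, ← hG1] at e1
    rw [← hG2] at e2
    have hcn : ‖(((q : ℚ) ^ j : ℚ) : AlgebraicClosure ℚ_[q])‖ = δ := by
      have e : (((q : ℚ) ^ j : ℚ) : AlgebraicClosure ℚ_[q]) =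
          algebraMap ℚ_[q] (AlgebraicClosure ℚ_[q]) ((q : ℚ_[q]) ^ j) := by
        push_cast
        simp
      rw [e]
      refine (PadicAlgCl.norm_extends q ((q : ℚ_[q]) ^ j)).trans ?_
      rw [norm_pow, Padic.norm_p]
    have e3 := le_of_le ι τ hτ G ((q : ℚ) ^ j)
      (pow_ne_zero _ (by exact_mod_cast (Fact.out : q.Prime).ne_zero)) (by rw [hcn]; exact e1)
    rw [hcn] at e3
    have e4 : aeval (ι (τ θ)) P = (aeval (ι (τ θ)) P - ι (τ G)) + ι (τ G) := by ring
    rw [e4]
    refine (norm_add_le _ _).trans ?_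
    linarith
  have hlim : Filter.Tendsto (fun j : ℕ => 2 * ((q : ℝ)⁻¹) ^ j) Filter.atTop (nhds (2 * 0)) := by
    refine Filter.Tendsto.const_mul _ (tendsto_pow_atTop_nhds_zero_of_lt_one (by positivity) ?_)
    exact inv_lt_one_of_one_lt₀ (by exact_mod_cast (Fact.out : q.Prime).one_lt)
  rw [mul_zero] at hlim
  have := ge_of_tendsto' hlim key
  exact norm_le_zero_iff.1 this

end main

theorem t_LF2 : S_LF2 := by
  intro q _ ι τ hτ θ
  have h1 : aeval (ι (τ θ)) (minpoly ℚ_[q] (ι θ)) = 0 :=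
    root ι τ hτ θ _ (minpoly.aeval _ _)
  exact minpoly.exists_algEquiv_of_root' (Algebra.IsAlgebraic.isAlgebraic _) h1

end Pool.Agent.N890.US.LF2
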