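import Pool.Agent.N890.US.Stm

/-!
# US/LF3: integral elements of the algebraic closure of `ℚ_q` are congruent to algebraic integers
-/

set_option autoImplicit false

namespace Pool.Agent.N890.US

namespace LF3

open Polynomial

theorem approx (q : ℕ) [Fact q.Prime] (a : ℚ_[q]) (ha : ‖a‖ ≤ 1) : ∃ k : ℤ, ‖a - k‖ < 1 := by
  obtain ⟨y, hy⟩ : ∃ y : ℤ_[q], (y : ℚ_[q]) = a := ⟨⟨a, ha⟩, rfl⟩
  obtain ⟨n, -, hn⟩ := PadicInt.exists_mem_range y
  rw [IsLocalRing.mem_maximalIdeal, PadicInt.mem_nonunits] at hn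
  refine ⟨n, ?_⟩
  rw [PadicInt.norm_def, PadicInt.coe_sub, PadicInt.coe_natCast, hy] at hn
  rw [Int.cast_natCast]
  exact hn

theorem norm_sum_lt {K : Type} [NormedField K] [IsUltrametricDist K] {ι : Type} (s : Finset ι)
    (f : ι → K) (h : ∀ i ∈ s, ‖f i‖ < 1) : ‖∑ i ∈ s, f i‖ < 1 := by
  classical
  induction s using Finset.induction_on with
  | empty => simp
  | insert a s ha ih =>
    rw [Finset.sum_insert ha]
    refine (IsUltrametricDist.norm_add_le_max _ _).trans_lt (max_lt ?_ ?_)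
    · exact h a (Finset.mem_insert_self a s)
    · exact ih fun i hi => h i (Finset.mem_insert_of_mem hi)

theorem prod_ge {K : Type} [NormedField K] (s : Multiset K) (h : ∀ z ∈ s, 1 ≤ ‖z‖) :
    1 ≤ ‖s.prod‖ := by
  induction s using Multiset.induction_on with
  | empty => simp
  | cons a s ih =>
    rw [Multiset.prod_cons, norm_mul]
    have h1 := h a (Multiset.mem_cons_self a s)
    have h2 := ih fun z hz => h z (Multiset.mem_cons_of_mem hz)
    nlinarith

/-- `S_LF3` -/
theorem t_LF3 : S_LF3 := by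
  intro q _ ι x hx
  set f := minpoly ℚ_[q] x with hf
  have hint : IsIntegral ℚ_[q] x := Algebra.IsIntegral.isIntegral x
  have hfm : f.Monic := minpoly.monic hint
  have hcoef : ∀ n, ‖f.coeff n‖ ≤ 1 := by
    have h1 : spectralValue f ≤ 1 := hx
    exact (spectralValue_le_one_iff hfm).1 h1
  choose g hg using fun n => approx q (f.coeff n) (hcoef n)
  set d := f.natDegree with hd
  have hd0 : 0 < d := minpoly.natDegree_pos hint
  set G : ℤ[X] := X ^ d + ∑ n ∈ Finset.range d, C (g n) * X ^ n with hG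
  have hGm : G.Monic := by
    refine monic_X_pow_add ?_
    rw [← mem_degreeLT]
    refine Submodule.sum_mem _ fun n hn => ?_
    rw [mem_degreeLT]
    refine (degree_C_mul_X_pow_le _ _).trans_lt ?_
    exact_mod_cast Finset.mem_range.1 hn
  have hfx : x ^ d + ∑ n ∈ Finset.range d, algebraMap ℚ_[q] _ (f.coeff n) * x ^ n = 0 := by
    have h1 : aeval x f = 0 := minpoly.aeval ℚ_[q] x
    rw [aeval_eq_sum_range, Finset.sum_range_succ, ← hd] at h1
    have h2 : f.coeff d = 1 := hfm
    rw [h2, one_smul, add_comm] at h1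
    rw [← h1]
    congr 1
    refine Finset.sum_congr rfl fun n _ => ?_
    rw [Algebra.smul_def]
  have hGx : aeval x G = ∑ n ∈ Finset.range d,
      algebraMap ℚ_[q] (AlgebraicClosure ℚ_[q]) ((g n : ℚ_[q]) - f.coeff n) * x ^ n := by
    have h1 : aeval x G = x ^ d + ∑ n ∈ Finset.range d,
        algebraMap ℚ_[q] (AlgebraicClosure ℚ_[q]) (g n : ℚ_[q]) * x ^ n := by
      rw [hG, map_add, map_pow, aeval_X, map_sum]
      congr 1
      refine Finset.sum_congr rfl fun n _ => ?_
      rw [map_mul, map_pow, aeval_X, aeval_C]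
      simp
    rw [h1]
    have h3 : ∑ n ∈ Finset.range d,
        algebraMap ℚ_[q] (AlgebraicClosure ℚ_[q]) ((g n : ℚ_[q]) - f.coeff n) * x ^ n =
        ∑ n ∈ Finset.range d, algebraMap ℚ_[q] (AlgebraicClosure ℚ_[q]) (g n : ℚ_[q]) * x ^ n -
        ∑ n ∈ Finset.range d, algebraMap ℚ_[q] (AlgebraicClosure ℚ_[q]) (f.coeff n) * x ^ n := by
      rw [← Finset.sum_sub_distrib]
      refine Finset.sum_congr rfl fun n _ => ?_
      rw [map_sub, sub_mul]
    rw [h3]
    linear_combination hfx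
  have hnorm : ‖aeval x G‖ < 1 := by
    rw [hGx]
    refine norm_sum_lt _ _ fun n _ => ?_
    rw [norm_mul, norm_pow, PadicAlgCl.norm_extends, norm_sub_rev]
    calc ‖f.coeff n - (g n : ℚ_[q])‖ * ‖x‖ ^ n ≤ ‖f.coeff n - (g n : ℚ_[q])‖ * 1 :=
          mul_le_mul_of_nonneg_left (pow_le_one₀ (norm_nonneg _) hx) (norm_nonneg _)
      _ < 1 := by
        rw [mul_one]
        exact hg n
  set Gm := G.map (algebraMap ℤ (AlgebraicClosure ℚ)) with hGmdef
  have hGmm : Gm.Monic := hGm.map _
  have hspl : Gm.Splits := IsAlgClosed.splits Gm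
  have hprod := hspl.eq_prod_roots_of_monic hGmm
  have hev : aeval x G = (Gm.roots.map fun z => x - ι z).prod := by
    have h1 : aeval x G = eval₂ (ι : AlgebraicClosure ℚ →+* AlgebraicClosure ℚ_[q]) x Gm := by
      rw [hGmdef, eval₂_map, aeval_def]
      congr 1
      exact Subsingleton.elim _ _
    rw [h1]
    conv_lhs => rw [hprod]
    rw [← coe_eval₂RingHom, map_multiset_prod, Multiset.map_map]
    congr 1
    refine Multiset.map_congr rfl fun z _ => ?_
    simp
  by_contra hcon
  push Not at hcon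
  have hge : 1 ≤ ‖(Gm.roots.map fun z => x - ι z).prod‖ := by
    refine prod_ge _ fun w hw => ?_
    obtain ⟨z, hz, rfl⟩ := Multiset.mem_map.1 hw
    refine hcon z ?_
    refine ⟨G, hGm, ?_⟩
    have h1 := (mem_roots hGmm.ne_zero).1 hz
    rw [IsRoot.def, hGmdef, eval_map] at h1
    exact h1
  rw [← hev] at hge
  linarith

end LF3

end Pool.Agent.N890.US
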