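import Pool.Agent.N890.US.Stm

/-!
# Compatible elements of the Galois groups

Project US, part LIFT.
-/

set_option autoImplicit false

namespace Pool.Agent.N890.US.LIFT

open NumberField WeierstrassCurve Pool.Agent.TH942 Pool.Agent.TH954 Pool.Agent.N890.US

variable {q : ℕ} [Fact q.Prime]

theorem norm_le_one {x : AlgebraicClosure ℚ_[q]} (h : IsIntegral ℤ x) : ‖x‖ ≤ 1 := by
  have h1 : IsIntegral (Valued.v (R := PadicAlgCl q)).integer x := h.tower_top
  have h2 := (Valuation.integer.integers (Valued.v (R := PadicAlgCl q))).mem_of_integral h1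
  have h3 : Valued.v (R := PadicAlgCl q) x ≤ 1 := h2
  rw [PadicAlgCl.valuation_def] at h3
  exact_mod_cast h3

theorem norm_aut (σ : AlgebraicClosure ℚ_[q] ≃ₐ[ℚ_[q]] AlgebraicClosure ℚ_[q])
    (x : AlgebraicClosure ℚ_[q]) : ‖σ x‖ = ‖x‖ := by
  have h := spectralNorm_eq_of_equiv (K := ℚ_[q]) (L := AlgebraicClosure ℚ_[q]) σ x
  rw [PadicAlgCl.spectralNorm_eq, PadicAlgCl.spectralNorm_eq] at h
  exact h.symm

theorem add_lt {x y : AlgebraicClosure ℚ_[q]} (hx : ‖x‖ < 1) (hy : ‖y‖ < 1) : ‖x + y‖ < 1 :=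
  (IsUltrametricDist.norm_add_le_max x y).trans_lt (max_lt hx hy)

/-- the prime of the algebraic integers given by `ι` -/
noncomputable def PP (ι : AlgebraicClosure ℚ →ₐ[ℚ] AlgebraicClosure ℚ_[q]) :
    Ideal (integralClosure ℤ (AlgebraicClosure ℚ)) where
  carrier := {x | ‖ι (x : AlgebraicClosure ℚ)‖ < 1}
  add_mem' := fun {x y} hx hy => by
    have h : ‖ι ((x + y : integralClosure ℤ (AlgebraicClosure ℚ)) : AlgebraicClosure ℚ)‖ < 1 := by
      rw [show ((x + y : integralClosure ℤ (AlgebraicClosure ℚ)) : AlgebraicClosure ℚ) =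
        (x : AlgebraicClosure ℚ) + (y : AlgebraicClosure ℚ) from rfl, map_add]
      exact add_lt hx hy
    exact h
  zero_mem' := by
    have h : ‖ι ((0 : integralClosure ℤ (AlgebraicClosure ℚ)) : AlgebraicClosure ℚ)‖ < 1 := by
      rw [show ((0 : integralClosure ℤ (AlgebraicClosure ℚ)) : AlgebraicClosure ℚ) = 0 from rfl,
        map_zero, norm_zero]
      exact one_pos
    exact h
  smul_mem' := fun c x hx => by
    have h : ‖ι ((c * x : integralClosure ℤ (AlgebraicClosure ℚ)) : AlgebraicClosure ℚ)‖ < 1 := by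
      rw [show ((c * x : integralClosure ℤ (AlgebraicClosure ℚ)) : AlgebraicClosure ℚ) =
        (c : AlgebraicClosure ℚ) * (x : AlgebraicClosure ℚ) from rfl, map_mul, norm_mul]
      have h1 : ‖ι (c : AlgebraicClosure ℚ)‖ ≤ 1 := norm_le_one (c.2.map ι)
      exact (mul_le_of_le_one_left (norm_nonneg _) h1).trans_lt hx
    exact h

theorem mem_PP (ι : AlgebraicClosure ℚ →ₐ[ℚ] AlgebraicClosure ℚ_[q])
    (x : integralClosure ℤ (AlgebraicClosure ℚ)) :
    x ∈ PP ι ↔ ‖ι (x : AlgebraicClosure ℚ)‖ < 1 := Iff.rfl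

theorem PP_prime (ι : AlgebraicClosure ℚ →ₐ[ℚ] AlgebraicClosure ℚ_[q]) : (PP ι).IsPrime := by
  refine Ideal.isPrime_iff.2 ⟨?_, ?_⟩
  · rw [Ne, Ideal.eq_top_iff_one, mem_PP]
    rw [show ((1 : integralClosure ℤ (AlgebraicClosure ℚ)) : AlgebraicClosure ℚ) = 1 from rfl,
      map_one, norm_one]
    exact lt_irrefl _
  · intro x y hxy
    rw [mem_PP, mem_PP]
    rw [mem_PP, show ((x * y : integralClosure ℤ (AlgebraicClosure ℚ)) : AlgebraicClosure ℚ) =
        (x : AlgebraicClosure ℚ) * (y : AlgebraicClosure ℚ) from rfl, map_mul, norm_mul] at hxy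
    by_contra hc
    push Not at hc
    have h1 := one_le_mul_of_one_le_of_one_le hc.1 hc.2
    exact absurd hxy (not_lt.2 h1)

theorem q_mem (ι : AlgebraicClosure ℚ →ₐ[ℚ] AlgebraicClosure ℚ_[q]) :
    ((q : ℕ) : integralClosure ℤ (AlgebraicClosure ℚ)) ∈ PP ι := by
  rw [mem_PP, show (((q : ℕ) : integralClosure ℤ (AlgebraicClosure ℚ)) : AlgebraicClosure ℚ) =
    ((q : ℕ) : AlgebraicClosure ℚ) from rfl, map_natCast]
  have h1 := PadicAlgCl.norm_extends q ((q : ℕ) : ℚ_[q])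
  rw [map_natCast, Padic.norm_p] at h1
  rw [h1]
  exact inv_lt_one_of_one_lt₀ (by exact_mod_cast (Fact.out : q.Prime).one_lt)

/-- LIFT, from its parts. -/
theorem t_LIFT : S_LF1 → S_LF2 → S_LF3 → S_LIFT := by
  intro h1 h2 h3 q _ F _ _ ι hq R hR
  obtain ⟨τ, hτ, x0, hx0, hx0'⟩ := h1 q Fact.out F hq (PP ι) (PP_prime ι) (q_mem ι)
  have hτ' : ∀ x : AlgebraicClosure ℚ, IsIntegral ℤ x → ‖ι (τ x) - ι x‖ < 1 := by
    intro x hx
    have h4 := hτ ⟨x, hx⟩ ⟨τ x, hx.map τ⟩ rfl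
    rw [mem_PP] at h4
    rw [← map_sub]
    exact h4
  have h5 : ∀ x : AlgebraicClosure ℚ_[q], ∃ z : AlgebraicClosure ℚ,
      IsIntegral ℤ z ∧ (x ∈ R → ‖x - ι z‖ < 1) := by
    intro x
    by_cases hx : x ∈ R
    · obtain ⟨z, hz, hz'⟩ := h3 q ι x (hR x hx)
      exact ⟨z, hz, fun _ => hz'⟩
    · exact ⟨0, isIntegral_zero, fun h => absurd h hx⟩
  choose z hzi hz using h5
  have hfin : (insert x0 (z '' (R : Set (AlgebraicClosure ℚ_[q])))).Finite :=
    (R.finite_toSet.image z).insert x0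
  let E : IntermediateField ℚ (AlgebraicClosure ℚ) :=
    IntermediateField.adjoin ℚ (insert x0 (z '' (R : Set (AlgebraicClosure ℚ_[q]))))
  have hsub := IntermediateField.subset_adjoin ℚ
    (insert x0 (z '' (R : Set (AlgebraicClosure ℚ_[q]))))
  have : FiniteDimensional ℚ E := by
    have := hfin.to_subtype
    exact IntermediateField.finiteDimensional_adjoin
      fun x _ => (AlgebraicClosure.isAlgebraic ℚ).isAlgebraic x |>.isIntegral
  let pb := Field.powerBasisOfFiniteOfSeparable ℚ E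
  obtain ⟨σ, hσ⟩ := h2 q ι τ hτ' (pb.gen : AlgebraicClosure ℚ)
  have hEq : (((σ.restrictScalars ℚ : AlgebraicClosure ℚ_[q] ≃ₐ[ℚ] AlgebraicClosure ℚ_[q]) :
      AlgebraicClosure ℚ_[q] →ₐ[ℚ] AlgebraicClosure ℚ_[q]).comp ι).comp E.val =
      (ι.comp (τ : AlgebraicClosure ℚ →ₐ[ℚ] AlgebraicClosure ℚ)).comp E.val :=
    pb.algHom_ext hσ
  have hE : ∀ y ∈ E, σ (ι y) = ι (τ y) := by
    intro y hy
    have h6 := DFunLike.congr_fun hEq ⟨y, hy⟩
    exact h6
  obtain ⟨τ', hc⟩ := exists_compat ι σ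
  refine ⟨σ, τ', hc, ?_, x0, hx0, ?_⟩
  · intro x hx
    have h7 : σ x - x = (σ (x - ι (z x)) + (ι (τ (z x)) - ι (z x))) + (ι (z x) - x) := by
      rw [map_sub, hE (z x) (hsub (Or.inr ⟨x, hx, rfl⟩))]
      ring
    rw [h7]
    refine add_lt (add_lt ?_ (hτ' _ (hzi x))) ?_
    · rw [norm_aut]
      exact hz x hx
    · rw [norm_sub_rev]
      exact hz x hx
  · intro h8
    have h9 : ι (τ' x0) = ι (τ x0) := (hc x0).trans (hE x0 (hsub (Or.inl rfl)))
    exact hx0' (ι.injective (h9.symm.trans (congrArg ι h8)))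

end Pool.Agent.N890.US.LIFT
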