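import Pool.Agent.N890.US.Stm

/-!
Project US (helper890), part NTOR (helper56): torsion prime to the residue characteristic has
integral coordinates.
-/

set_option autoImplicit false

namespace Pool.Agent.N890.US.NTOR

open WeierstrassCurve Pool.Agent.TH954 Pool.Agent.N890.US

/-- the residue field of an ultrametric normed field -/
theorem exists_res (L : Type) [NormedField L] [IsUltrametricDist L] :
    ∃ (k : Type) (_ : Field k) (O : ValuationSubring L) (f : O →+* k),
      (∀ u : L, u ∈ O ↔ ‖u‖ ≤ 1) ∧ ∀ u : O, f u = 0 ↔ ‖(u : L)‖ < 1 := by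
  let v : Valuation L NNReal := NormedField.valuation
  let O := v.valuationSubring
  have hO : ∀ u : L, u ∈ O ↔ ‖u‖ ≤ 1 := by
    intro u
    rw [Valuation.mem_valuationSubring_iff]
    rfl
  refine ⟨IsLocalRing.ResidueField O, inferInstance, O, IsLocalRing.residue O, hO, ?_⟩
  intro u
  rw [IsLocalRing.residue_eq_zero_iff, IsLocalRing.mem_maximalIdeal, mem_nonunits_iff]
  constructor
  · intro h
    by_contra hc
    rw [not_lt] at hc
    apply h
    have hu1 : ‖(u : L)‖ = 1 := le_antisymm ((hO _).1 u.2) hc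
    have hu0 : (u : L) ≠ 0 := by
      intro h0
      rw [h0, norm_zero] at hu1
      exact zero_ne_one hu1
    refine isUnit_iff_exists_inv.2 ⟨⟨(u : L)⁻¹, (hO _).2 (by rw [norm_inv, hu1, inv_one])⟩, ?_⟩
    apply Subtype.ext
    exact mul_inv_cancel₀ hu0
  · intro h hu
    obtain ⟨w, hw⟩ := isUnit_iff_exists_inv.1 hu
    have hw1 : ‖(w : L)‖ ≤ 1 := (hO _).1 w.2
    have h2 : (u : L) * (w : L) = 1 := congrArg Subtype.val hw
    have h3 : ‖(u : L)‖ * ‖(w : L)‖ = 1 := by rw [← norm_mul, h2, norm_one]
    have h4 : ‖(u : L)‖ * ‖(w : L)‖ ≤ ‖(u : L)‖ * 1 :=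
      mul_le_mul_of_nonneg_left hw1 (norm_nonneg _)
    linarith

section

variable {L : Type} [NormedField L] [IsUltrametricDist L] [DecidableEq L] {W : WeierstrassCurve L}

theorem eq_or_neg (hW : Short W) {x y1 y2 : L} {n1 : W.toAffine.Nonsingular x y1}
    {n2 : W.toAffine.Nonsingular x y2} :
    Affine.Point.some x y1 n1 = Affine.Point.some x y2 n2 ∨
      Affine.Point.some x y1 n1 = -Affine.Point.some x y2 n2 := by
  have hy : y1 = y2 ∨ y1 = -y2 := by
    apply sq_eq_sq_iff_eq_or_eq_neg.mp
    rw [hW.eqn n1, hW.eqn n2]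
  rcases hy with h | h
  · left; subst h; rfl
  · right; rw [hW.neg_some]; subst h; rfl

theorem main (hW : SI W) (h2 : ‖(2 : L)‖ = 1) (l : ℕ) (hl : l.Prime) (hl2 : 2 < l)
    (hln : ‖(l : L)‖ = 1) (x y : L) (h : W.toAffine.Nonsingular x y)
    (hT0 : l • (Affine.Point.some x y h) = 0) : ‖x‖ ≤ 1 := by
  by_contra hx
  rw [not_le] at hx
  have h20 : (2 : L) ≠ 0 := by
    intro h0
    rw [h0, norm_zero] at h2
    exact zero_ne_one h2
  set T : W.toAffine.Point := Affine.Point.some x y h with hT
  have hTne : T ≠ 0 := Affine.Point.some_ne_zero h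
  have : Fact l.Prime := ⟨hl⟩
  have hord : addOrderOf T = l := addOrderOf_eq_prime hT0 hTne
  have hdvd : ∀ n : ℕ, n • T = 0 → l ∣ n := by
    intro n hn
    rw [← hord]
    exact addOrderOf_dvd_of_nsmul_eq_zero hn
  -- coordinates of the multiples
  have hex : ∀ n : ℕ, ∃ X : L, 1 ≤ n → n < l → ∃ (Y : L) (hn : W.toAffine.Nonsingular X Y),
      n • T = Affine.Point.some X Y hn := by
    intro n
    by_cases hn : 1 ≤ n ∧ n < l
    · have hne : n • T ≠ 0 := by
        intro h0
        have := Nat.le_of_dvd hn.1 (hdvd n h0)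
        omega
      match hP : n • T with
      | .zero => exact absurd hP hne
      | .some X Y hn' => exact ⟨X, fun _ _ => ⟨Y, hn', rfl⟩⟩
    · exact ⟨0, fun h1 h2 => absurd ⟨h1, h2⟩ hn⟩
  choose X hX using hex
  have hX1 : X 1 = x := by
    obtain ⟨Y, hn, hP⟩ := hX 1 le_rfl hl.one_lt
    rw [one_smul, hT, Affine.Point.some.injEq] at hP
    exact hP.1.symm
  have hnorm : ∀ n, 1 ≤ n → n < l → ‖X n‖ = ‖x‖ := by
    intro n h1 hnl
    obtain ⟨Y, hn, hP⟩ := hX n h1 hnl
    have hge : ‖x‖ ≤ ‖X n‖ := by
      have hB : Big ‖x‖ T := big_some.2 le_rfl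
      have := hW.big_nsmul h20 hx hB n
      rw [hP] at this
      exact big_some.1 this
    apply le_antisymm _ hge
    have hB : Big ‖X n‖ (n • T) := by
      rw [hP]; exact big_some.2 le_rfl
    have hcop : Nat.Coprime n l := by
      rw [Nat.coprime_comm, Nat.Prime.coprime_iff_not_dvd hl]
      intro hd
      have := Nat.le_of_dvd h1 hd
      omega
    obtain ⟨m, hm⟩ := Nat.exists_mul_mod_eq_one_of_coprime hcop hl.one_lt
    have hmT : m • (n • T) = T := by
      rw [← mul_nsmul', mul_comm m n]
      have h5 := Nat.div_add_mod (n * m) l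
      rw [hm.2] at h5
      rw [← h5, add_nsmul, one_smul, mul_comm l, mul_nsmul', hT0, nsmul_zero, zero_add]
    have := hW.big_nsmul h20 (hx.trans_le hge) hB m
    rw [hmT] at this
    exact big_some.1 this
  have hx0 : x ≠ 0 := by
    intro h0
    rw [h0, norm_zero] at hx
    linarith
  obtain ⟨k, _, O, f, hO, hf⟩ := exists_res L
  -- the reduced small constants
  have ha' : ‖W.a₄ / x ^ 2‖ < 1 := by
    rw [norm_div, norm_pow, div_lt_one (by positivity)]
    exact hW.ha.trans_lt (one_lt_pow₀ hx (by norm_num))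
  have hb' : ‖W.a₆ / x ^ 3‖ < 1 := by
    rw [norm_div, norm_pow, div_lt_one (by positivity)]
    exact hW.hb.trans_lt (one_lt_pow₀ hx (by norm_num))
  set a' : O := ⟨W.a₄ / x ^ 2, (hO _).2 ha'.le⟩ with hadef
  set b' : O := ⟨W.a₆ / x ^ 3, (hO _).2 hb'.le⟩ with hbdef
  have fa : f a' = 0 := (hf a').2 ha'
  have fb : f b' = 0 := (hf b').2 hb'
  have hr : ∀ n, ∃ r : O, 1 ≤ n → n < l → (r : L) * x = X n := by
    intro n
    by_cases hn : 1 ≤ n ∧ n < l
    · refine ⟨⟨X n / x, (hO _).2 ?_⟩, fun _ _ => ?_⟩
      · rw [norm_div, hnorm n hn.1 hn.2, div_self (by positivity)]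
      · simp only
        field_simp
    · exact ⟨0, fun h1 h2 => absurd ⟨h1, h2⟩ hn⟩
  choose r hr using hr
  have hr1 : f (r 1) = 1 := by
    have h3 : r 1 = 1 := by
      apply Subtype.ext
      have := hr 1 le_rfl hl.one_lt
      rw [hX1] at this
      exact mul_right_cancel₀ hx0 (by rw [this]; simp)
    rw [h3, map_one]
  have hr2 : 4 * f (r 2) = 1 := by
    obtain ⟨Y, hn, hP⟩ := hX 2 (by norm_num) hl2
    have h3 : T + T = Affine.Point.some (X 2) Y hn := by rw [← hP, two_nsmul]
    have hq := hW.toShort.quad h20 h3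
    have h4 := hr 2 (by norm_num) hl2
    rw [← h4] at hq
    have c4 : ((4 : O) : L) = 4 := rfl
    have c8 : ((8 : O) : L) = 8 := rfl
    have h5 : 4 * ((1 + a') + b') * r 2 = (1 - a') ^ 2 - 8 * b' := by
      apply Subtype.ext
      push_cast
      rw [c4, c8]
      rw [hadef, hbdef]
      simp only
      field_simp
      linear_combination -hq
    have h6 := congrArg f h5
    simp only [map_mul, map_add, map_sub, map_pow, map_one, map_ofNat, fa, fb] at h6
    simpa using h6
  have hstep : ∀ n, 2 ≤ n → n + 1 < l →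
      (f (r n) - 1) ^ 2 * f (r (n + 1)) * f (r (n - 1)) = f (r n) ^ 2 := by
    intro n hn hnl
    obtain ⟨Y, m0, hP⟩ := hX n (by omega) (by omega)
    obtain ⟨Y1, m1, hP1⟩ := hX (n + 1) (by omega) hnl
    obtain ⟨Y2, m2, hP2⟩ := hX (n - 1) (by omega) (by omega)
    have q1 : Affine.Point.some (X n) Y m0 + Affine.Point.some x y h =
        Affine.Point.some (X (n + 1)) Y1 m1 := by
      rw [← hP, ← hP1, succ_nsmul]
    have q2 : Affine.Point.some (X n) Y m0 + Affine.Point.some x (-y) (hW.toShort.nonsing_neg h) =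
        Affine.Point.some (X (n - 1)) Y2 m2 := by
      rw [← hP, ← hP2, ← hW.toShort.neg_some h, ← hT]
      have : n • T = (n - 1) • T + T := by
        rw [← succ_nsmul]; congr 1; omega
      rw [this]; abel
    have e1 := hW.toShort.quad h20 q1
    have e2 := hW.toShort.quad h20 q2
    have hne : X (n + 1) ≠ X (n - 1) := by
      intro he
      have hcase : (n + 1) • T = (n - 1) • T ∨ (n + 1) • T = -((n - 1) • T) := by
        rw [hP1, hP2]
        have gen : ∀ (u v : L) (Y1 Y2 : L) (m1 : W.toAffine.Nonsingular u Y1)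
            (m2 : W.toAffine.Nonsingular v Y2), u = v →
            (Affine.Point.some u Y1 m1 = Affine.Point.some v Y2 m2 ∨
              Affine.Point.some u Y1 m1 = -Affine.Point.some v Y2 m2) := by
          intro u v Y1 Y2 m1 m2 huv
          subst huv
          exact eq_or_neg hW.toShort
        exact gen _ _ _ _ m1 m2 he
      rcases hcase with hc | hc
      · have h3 : (n + 1) • T = (n - 1) • T + 2 • T := by
          rw [← add_nsmul]; congr 1; omega
        rw [h3, add_eq_left] at hc
        have := Nat.le_of_dvd (by norm_num) (hdvd 2 hc)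
        omega
      · have h3 : (2 * n) • T = 0 := by
          have : 2 * n = (n + 1) + (n - 1) := by omega
          rw [this, add_nsmul, hc, neg_add_cancel]
        have h4 := hdvd _ h3
        rw [hl.dvd_mul] at h4
        rcases h4 with h4 | h4
        · have := Nat.le_of_dvd (by norm_num) h4; omega
        · have := Nat.le_of_dvd (by omega) h4; omega
    -- Vieta
    have hv : (X n - x) ^ 2 * X (n + 1) * X (n - 1) =
        (X n * x - W.a₄) ^ 2 - 4 * W.a₆ * (X n + x) := by
      have hd : X (n + 1) - X (n - 1) ≠ 0 := sub_ne_zero.2 hne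
      have h3 : (X n - x) ^ 2 * (X (n + 1) + X (n - 1)) =
          2 * ((X n + x) * (X n * x + W.a₄) + 2 * W.a₆) := by
        apply mul_right_cancel₀ hd
        linear_combination e1 - e2
      linear_combination (-1) * e1 + X (n + 1) * h3
    have g0 := hr n (by omega) (by omega)
    have g1 := hr (n + 1) (by omega) hnl
    have g2 := hr (n - 1) (by omega) (by omega)
    rw [← g0, ← g1, ← g2] at hv
    have c4 : ((4 : O) : L) = 4 := rfl
    have h5 : (r n - 1) ^ 2 * r (n + 1) * r (n - 1) = (r n - a') ^ 2 - 4 * b' * (r n + 1) := by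
      apply Subtype.ext
      push_cast
      rw [c4]
      rw [hadef, hbdef]
      simp only
      field_simp
      linear_combination hv
    have h6 := congrArg f h5
    simp only [map_mul, map_add, map_sub, map_pow, map_one, map_ofNat, fa, fb] at h6
    simpa using h6
  -- induction
  have hind : ∀ n : ℕ, 2 ≤ n → n < l → (((n : k) - 1) ^ 2 * f (r (n - 1)) = 1 ∧
      (n : k) ^ 2 * f (r n) = 1) := by
    intro n hn
    induction n, hn using Nat.le_induction with
    | base =>
      intro _
      refine ⟨?_, ?_⟩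
      · norm_num [hr1]
      · norm_num
        exact hr2
    | succ n hn ih =>
      intro hnl
      obtain ⟨i1, i2⟩ := ih (by omega)
      have hs := hstep n hn hnl
      refine ⟨?_, ?_⟩
      · push_cast
        rw [add_sub_cancel_right]
        exact i2
      · push_cast
        have hn0 : (n : k) ≠ 0 := by
          intro h0
          rw [h0] at i2
          norm_num at i2
        have hn1 : (n : k) - 1 ≠ 0 := by
          intro h0
          rw [h0] at i1
          norm_num at i1
        apply mul_left_cancel₀ (pow_ne_zero 2 hn1)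
        have e : f (r n) = 1 / (n : k) ^ 2 := by
          rw [eq_div_iff (pow_ne_zero 2 hn0), mul_comm]; exact i2
        have e' : f (r (n - 1)) = 1 / ((n : k) - 1) ^ 2 := by
          rw [eq_div_iff (pow_ne_zero 2 hn1), mul_comm]; exact i1
        rw [e, e'] at hs
        field_simp at hs
        linear_combination hs
  have hfin := hind (l - 1) (by omega) (by have := hl.pos; omega)
  -- the last multiple is `-T`
  have hlast : X (l - 1) = x := by
    obtain ⟨Y, hn, hP⟩ := hX (l - 1) (by omega) (by have := hl.pos; omega)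
    have h3 : (l - 1) • T = -T := by
      rw [eq_neg_iff_add_eq_zero, ← succ_nsmul]
      have : l - 1 + 1 = l := by omega
      rw [this]; exact hT0
    rw [h3, hT, hW.toShort.neg_some, Affine.Point.some.injEq] at hP
    exact hP.1.symm
  have hrl : f (r (l - 1)) = 1 := by
    have h3 : r (l - 1) = 1 := by
      apply Subtype.ext
      have := hr (l - 1) (by omega) (by have := hl.pos; omega)
      rw [hlast] at this
      exact mul_right_cancel₀ hx0 (by rw [this]; simp)
    rw [h3, map_one]
  rw [hrl, mul_one] at hfin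
  have hlk : (l : k) ≠ 0 := by
    intro h0
    have h3 : f ((l : ℕ) : O) = 0 := by rw [map_natCast]; exact h0
    rw [hf] at h3
    push_cast at h3
    rw [hln] at h3
    exact lt_irrefl _ h3
  have hc : ((l - 1 : ℕ) : k) = (l : k) - 1 := by
    rw [Nat.cast_sub hl.one_lt.le]; simp
  rw [hc] at hfin
  have h7 : (l : k) * ((l : k) - 2) = 0 := by linear_combination hfin.2
  rcases mul_eq_zero.1 h7 with h8 | h8
  · exact hlk h8
  · have h9 := hfin.1
    have : (l : k) - 1 - 1 = 0 := by linear_combination h8
    rw [this] at h9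
    norm_num at h9

end

open scoped Classical in
theorem t_NTOR : S_NTOR := by
  intro L _ _ W hW h2 l hl hl2 hln x y h hT
  exact main hW h2 l hl hl2 hln x y h hT

end Pool.Agent.N890.US.NTOR
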