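import Pool.Agent.N890.US.Stm
import Pool.Agent.R503.W.Bvh

/-!
Project US, part PRS: many primes `p` such that `p + 1` is divisible by `M` and has a large squarefree
divisor with small prime factors (from the theorem of Bombieri and Vinogradov).
-/

set_option autoImplicit false

namespace Pool.Agent.N890.US.PRS

open Finset Filter Topology
open Pool.Agent.H442R2.KF (piN piAP Er)
open Pool.Agent.N890.US

lemma piN_eq (x : ℕ) : piN x = Nat.primeCounting x := by
  unfold piN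
  rw [Nat.primeCounting, Nat.primeCounting', Nat.count_eq_card_filter_range]
  congr 1
  ext p
  simp only [mem_filter, mem_Icc, mem_range]
  constructor
  · rintro ⟨⟨h1, h2⟩, h3⟩
    exact ⟨by omega, h3⟩
  · rintro ⟨h1, h3⟩
    exact ⟨⟨h3.one_lt.le, by omega⟩, h3⟩

/-- Chebyshev's lower bound -/
lemma piN_lower : ∀ᶠ x : ℕ in atTop, (x : ℝ) / (2 * Real.log x) ≤ piN x := by
  have h1 : ∀ᶠ x : ℕ in atTop, Real.log ((x : ℝ) + 1) ≤ ((x : ℝ) + 1) * (1 / 20) := by
    have h := Real.isLittleO_log_id_atTop.bound (show (0 : ℝ) < 1 / 20 by norm_num)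
    have h2 : Tendsto (fun x : ℕ => (x : ℝ) + 1) atTop atTop :=
      tendsto_atTop_add_const_right _ _ tendsto_natCast_atTop_atTop
    filter_upwards [h2.eventually h] with x hx
    have h3 : (0 : ℝ) ≤ (x : ℝ) + 1 := by positivity
    have h4 : 0 ≤ Real.log ((x : ℝ) + 1) := Real.log_nonneg (by linarith [Nat.cast_nonneg (α := ℝ) x])
    simp only [id, Real.norm_eq_abs, abs_of_nonneg h3, abs_of_nonneg h4] at hx
    linarith
  filter_upwards [h1, eventually_ge_atTop 3] with x hx hx3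
  have hx3' : (3 : ℝ) ≤ x := by exact_mod_cast hx3
  have h2 := Chebyshev.psi_ge x
  have h3 := Chebyshev.psi_le_primeCounting_mul_log x
  rw [← piN_eq] at h3
  have hl : 0 < Real.log x := Real.log_pos (by linarith)
  have h4 := Real.log_two_gt_d9
  rw [div_le_iff₀ (by positivity)]
  nlinarith

/-- the primes in `(Y, 4Y]` -/
def PP (Y : ℕ) : Finset ℕ := (Ioc Y (4 * Y)).filter (fun p : ℕ => p.Prime)

lemma PP_lower : ∀ᶠ Y : ℕ in atTop, (Y : ℝ) ≤ ((PP Y).card : ℝ) * Real.log (4 * Y) := by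
  have h1 : ∀ᶠ x : ℕ in atTop, Real.log ((x : ℝ) + 1) ≤ ((x : ℝ) + 1) * (1 / 20) := by
    have h := Real.isLittleO_log_id_atTop.bound (show (0 : ℝ) < 1 / 20 by norm_num)
    have h2 : Tendsto (fun x : ℕ => (x : ℝ) + 1) atTop atTop :=
      tendsto_atTop_add_const_right _ _ tendsto_natCast_atTop_atTop
    filter_upwards [h2.eventually h] with x hx
    have h3 : (0 : ℝ) ≤ (x : ℝ) + 1 := by positivity
    have h4 : 0 ≤ Real.log ((x : ℝ) + 1) := Real.log_nonneg (by linarith [Nat.cast_nonneg (α := ℝ) x])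
    simp only [id, Real.norm_eq_abs, abs_of_nonneg h3, abs_of_nonneg h4] at hx
    linarith
  have h1' : ∀ᶠ x : ℕ in atTop, Real.log (x : ℝ) ≤ (1 / 80) * (x : ℝ) ^ (1 / 2 : ℝ) := by
    have h := (isLittleO_log_rpow_atTop (show (0 : ℝ) < 1 / 2 by norm_num)).bound
      (show (0 : ℝ) < 1 / 80 by norm_num)
    filter_upwards [tendsto_natCast_atTop_atTop.eventually h, eventually_ge_atTop 1] with x hx hx1
    have h3 : (0 : ℝ) ≤ (x : ℝ) ^ (1 / 2 : ℝ) := by positivity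
    have h4 : 0 ≤ Real.log (x : ℝ) := Real.log_nonneg (by exact_mod_cast hx1)
    rw [Real.norm_eq_abs, Real.norm_eq_abs, abs_of_nonneg h3, abs_of_nonneg h4] at hx
    exact hx
  have hm : Tendsto (fun Y : ℕ => 4 * Y) atTop atTop :=
    tendsto_id.const_mul_atTop' (by norm_num)
  filter_upwards [hm.eventually h1, hm.eventually h1', eventually_ge_atTop 3] with Y a1 a2 hY
  have hY3 : (3 : ℝ) ≤ Y := by exact_mod_cast hY
  have b1 := Chebyshev.theta_ge (4 * Y)
  have b2 := Chebyshev.theta_le_log4_mul_x (x := (Y : ℝ)) (by positivity)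
  have b3 : Chebyshev.theta ((4 * Y : ℕ) : ℝ) - Chebyshev.theta (Y : ℝ) ≤
      ((PP Y).card : ℝ) * Real.log (4 * Y) := by
    rw [Chebyshev.theta_eq_sum_Icc, Chebyshev.theta_eq_sum_Icc, Nat.floor_natCast,
      Nat.floor_natCast]
    have e : (Icc 0 (4 * Y)).filter (fun p : ℕ => p.Prime) =
        (Icc 0 Y).filter (fun p : ℕ => p.Prime) ∪ PP Y := by
      ext p
      simp only [PP, mem_filter, mem_union, mem_Icc, mem_Ioc]
      constructor
      · rintro ⟨⟨h1, h2⟩, h3⟩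
        by_cases h : p ≤ Y
        · exact Or.inl ⟨⟨h1, h⟩, h3⟩
        · exact Or.inr ⟨⟨by omega, h2⟩, h3⟩
      · rintro (⟨⟨h1, h2⟩, h3⟩ | ⟨⟨h1, h2⟩, h3⟩)
        · exact ⟨⟨h1, by omega⟩, h3⟩
        · exact ⟨⟨by omega, h2⟩, h3⟩
    have hd : Disjoint ((Icc 0 Y).filter (fun p : ℕ => p.Prime)) (PP Y) := by
      rw [Finset.disjoint_left]
      intro p h1 h2
      simp only [PP, mem_filter, mem_Icc, mem_Ioc] at h1 h2
      omega
    rw [e, sum_union hd, add_sub_cancel_left, ← nsmul_eq_mul]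
    refine sum_le_card_nsmul _ _ _ fun p hp => ?_
    simp only [PP, mem_filter, mem_Ioc] at hp
    refine Real.log_le_log (by exact_mod_cast hp.2.pos) ?_
    exact_mod_cast hp.1.2
  have h4 := Real.log_two_gt_d9
  have h5 : Real.log 4 = 2 * Real.log 2 := by
    rw [show (4 : ℝ) = 2 ^ 2 by norm_num, Real.log_pow]
    norm_num
  rw [h5] at b2
  have e2 : √((4 * Y : ℕ) : ℝ) * Real.log ((4 * Y : ℕ) : ℝ) ≤ (1 / 20) * Y := by
    have e3 : ((4 * Y : ℕ) : ℝ) ^ (1 / 2 : ℝ) = √((4 * Y : ℕ) : ℝ) := by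
      rw [← Real.sqrt_eq_rpow]
    rw [e3] at a2
    have e4 := mul_le_mul_of_nonneg_left a2 (Real.sqrt_nonneg ((4 * Y : ℕ) : ℝ))
    have e5 : √((4 * Y : ℕ) : ℝ) * √((4 * Y : ℕ) : ℝ) = 4 * Y := by
      rw [Real.mul_self_sqrt (by positivity)]
      push_cast
      ring
    nlinarith
  push_cast at b1 a1 e2 b3
  nlinarith

lemma dvd_iff {d p : ℕ} (hd : 1 ≤ d) : p ≡ d - 1 [MOD d] ↔ d ∣ p + 1 := by
  constructor
  · intro h
    have h1 : p + 1 ≡ (d - 1) + 1 [MOD d] := h.add_right 1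
    rw [Nat.sub_add_cancel hd] at h1
    have h2 : p + 1 ≡ 0 [MOD d] := h1.trans (by simp [Nat.ModEq])
    exact (Nat.modEq_zero_iff_dvd).1 h2
  · intro h
    have h1 : p + 1 ≡ (d - 1) + 1 [MOD d] := by
      rw [Nat.sub_add_cancel hd]
      have h2 : p + 1 ≡ 0 [MOD d] := (Nat.modEq_zero_iff_dvd).2 h
      exact h2.trans (by simp [Nat.ModEq])
    exact Nat.ModEq.add_right_cancel' 1 h1

/-- the moduli -/
def dd (M : ℕ) (s : Finset ℕ) : ℕ := M * ∏ p ∈ s, p

/-- the primes which are counted -/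
def S1 (M x Y k : ℕ) : Finset ℕ :=
  (Icc 1 x).filter fun p => p.Prime ∧ ∃ s ∈ (PP Y).powersetCard k, dd M s ∣ p + 1

lemma PP_prime {Y p : ℕ} (hp : p ∈ PP Y) : p.Prime := (mem_filter.1 hp).2

lemma PP_gt {Y p : ℕ} (hp : p ∈ PP Y) : Y < p := (mem_Ioc.1 (mem_filter.1 hp).1).1

lemma PP_le {Y p : ℕ} (hp : p ∈ PP Y) : p ≤ 4 * Y := (mem_Ioc.1 (mem_filter.1 hp).1).2

lemma dd_pos {M Y : ℕ} (hM : 0 < M) {s : Finset ℕ} (hs : s ⊆ PP Y) : 1 ≤ dd M s := by
  unfold dd
  exact Nat.mul_pos hM (Finset.prod_pos fun p hp => (PP_prime (hs hp)).pos)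

lemma mult_bd (M x Y k t : ℕ) (hY : 1 ≤ Y) (ht : x + 1 < Y ^ (t + 1)) (p : ℕ) (hp : p ≤ x) :
    (((PP Y).powersetCard k).filter fun s => dd M s ∣ p + 1).card ≤ 2 ^ t := by
  have h1 : (((PP Y).powersetCard k).filter fun s => dd M s ∣ p + 1) ⊆
      ((PP Y).filter fun q => q ∣ p + 1).powerset := by
    intro s hs
    rw [mem_filter, mem_powersetCard] at hs
    rw [mem_powerset]
    intro q hq
    rw [mem_filter]
    refine ⟨hs.1.1 hq, ?_⟩
    refine (Dvd.dvd.trans ?_ hs.2)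
    exact (Finset.dvd_prod_of_mem _ hq).mul_left M
  refine (card_le_card h1).trans ?_
  rw [card_powerset]
  refine Nat.pow_le_pow_right (by norm_num) ?_
  have h2 : (∏ q ∈ (PP Y).filter (fun q => q ∣ p + 1), q) ∣ p + 1 :=
    Finset.prod_primes_dvd _ (fun q hq => (PP_prime (mem_filter.1 hq).1).prime)
      (fun q hq => (mem_filter.1 hq).2)
  have h3 := Nat.le_of_dvd (Nat.succ_pos p) h2
  have h4 : Y ^ ((PP Y).filter (fun q => q ∣ p + 1)).card ≤
      ∏ q ∈ (PP Y).filter (fun q => q ∣ p + 1), q :=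
    Finset.pow_card_le_prod _ _ _ fun q hq => (PP_gt (mem_filter.1 hq).1).le
  have h5 : Y ^ ((PP Y).filter (fun q => q ∣ p + 1)).card < Y ^ (t + 1) := by omega
  have h6 : 1 < Y := by
    rcases Nat.lt_or_ge 1 Y with h | h
    · exact h
    · have : Y = 1 := by omega
      subst this
      simp at ht
  have := (Nat.pow_lt_pow_iff_right h6).1 h5
  omega

lemma count_bd (M x Y k t : ℕ) (hM : 0 < M) (hY : 1 ≤ Y) (ht : x + 1 < Y ^ (t + 1)) :
    ∑ s ∈ (PP Y).powersetCard k, piAP x (dd M s) (dd M s - 1) ≤ 2 ^ t * (S1 M x Y k).card := by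
  have h1 : ∀ s ∈ (PP Y).powersetCard k, piAP x (dd M s) (dd M s - 1) =
      (((Icc 1 x).filter (fun p : ℕ => p.Prime)).filter fun p => dd M s ∣ p + 1).card := by
    intro s hs
    have hd := dd_pos hM (mem_powersetCard.1 hs).1
    unfold piAP
    rw [filter_filter]
    congr 1
    refine filter_congr fun p _ => ?_
    rw [dvd_iff hd]
  rw [sum_congr rfl h1]
  have h2 := Finset.sum_card_bipartiteAbove_eq_sum_card_bipartiteBelow
    (s := (PP Y).powersetCard k) (t := (Icc 1 x).filter (fun p : ℕ => p.Prime))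
    (fun (s : Finset ℕ) (p : ℕ) => dd M s ∣ p + 1)
  unfold bipartiteAbove bipartiteBelow at h2
  rw [h2]
  have h3 : ∀ p ∈ (Icc 1 x).filter (fun p : ℕ => p.Prime),
      (((PP Y).powersetCard k).filter fun s => dd M s ∣ p + 1).card ≤
        if p ∈ S1 M x Y k then 2 ^ t else 0 := by
    intro p hp
    rw [mem_filter, mem_Icc] at hp
    split_ifs with h
    · exact mult_bd M x Y k t hY ht p hp.1.2
    · rw [Nat.le_zero, card_eq_zero, filter_eq_empty_iff]
      intro s hs hd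
      apply h
      unfold S1
      rw [mem_filter, mem_Icc]
      exact ⟨hp.1, hp.2, s, hs, hd⟩
  refine (sum_le_sum h3).trans ?_
  rw [← sum_filter, sum_const, smul_eq_mul, mul_comm]
  refine Nat.mul_le_mul_left _ (card_le_card ?_)
  intro p hp
  exact (mem_filter.1 hp).2

lemma er_bd (M x Y k z : ℕ) (hM : 0 < M) (hz : ∀ s ∈ (PP Y).powersetCard k, dd M s ≤ z) :
    ∑ s ∈ (PP Y).powersetCard k, |Er x (dd M s) (dd M s - 1)| ≤
      ∑ d ∈ Icc 1 z, |Er x d (d - 1)| := by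
  have hinj : Set.InjOn (dd M) ((PP Y).powersetCard k : Set (Finset ℕ)) := by
    intro s hs t ht h
    rw [mem_coe, mem_powersetCard] at hs ht
    unfold dd at h
    have h1 := Nat.eq_of_mul_eq_mul_left hM h
    have h2 := Nat.primeFactors_prod (s := s) fun p hp => PP_prime (hs.1 hp)
    have h3 := Nat.primeFactors_prod (s := t) fun p hp => PP_prime (ht.1 hp)
    rw [← h2, ← h3, h1]
  rw [← sum_image (f := fun d => |Er x d (d - 1)|) hinj]
  refine sum_le_sum_of_subset_of_nonneg ?_ fun _ _ _ => abs_nonneg _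
  intro d hd
  obtain ⟨s, hs, rfl⟩ := mem_image.1 hd
  rw [mem_Icc]
  exact ⟨dd_pos hM (mem_powersetCard.1 hs).1, hz s hs⟩

lemma dd_le (M Y k : ℕ) {s : Finset ℕ} (hs : s ∈ (PP Y).powersetCard k) :
    dd M s ≤ M * (4 * Y) ^ k := by
  unfold dd
  refine Nat.mul_le_mul_left _ ?_
  rw [mem_powersetCard] at hs
  rw [← hs.2]
  exact Finset.prod_le_pow_card _ _ _ fun p hp => PP_le (hs.1 hp)


lemma choose_bd (P k : ℕ) (h : 2 * k ≤ P) :
    ((P : ℝ) / 2) ^ k / (k.factorial : ℝ) ≤ (P.choose k : ℝ) := by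
  have h1 := Nat.pow_le_choose (α := ℝ) k P
  refine le_trans ?_ h1
  refine div_le_div_of_nonneg_right ?_ (by positivity)
  have h2 : (P : ℝ) / 2 ≤ ((P + 1 - k : ℕ) : ℝ) := by
    rw [div_le_iff₀ (by norm_num)]
    have : P ≤ (P + 1 - k) * 2 := by omega
    exact_mod_cast this
  exact pow_le_pow_left₀ (by positivity) h2 k

/-- the main count -/
lemma main_count (M x Y k t z : ℕ) (E : ℝ) (hM : 0 < M) (hY : 1 ≤ Y)
    (hx : 3 ≤ x) (ha : (Y : ℝ) ≤ ((PP Y).card : ℝ) * Real.log (4 * Y)) (hb : 4 * Y ≤ x)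
    (hc : 2 * k ≤ (PP Y).card) (hd : M * (4 * Y) ^ k ≤ z)
    (he : (x : ℝ) / (2 * Real.log x) ≤ piN x) (hf : x + 1 < Y ^ (t + 1))
    (hg : ∑ d ∈ Icc 1 z, |Er x d (d - 1)| ≤ E) :
    (x : ℝ) / ((2 * M * k.factorial * 8 ^ k : ℝ) * Real.log x ^ (k + 1)) - E ≤
      2 ^ t * ((S1 M x Y k).card : ℝ) := by
  have hY0 : (0 : ℝ) < Y := by exact_mod_cast hY
  have hx3 : (3 : ℝ) ≤ x := by exact_mod_cast hx
  have hl : 0 < Real.log x := Real.log_pos (by linarith)
  have hM0 : (0 : ℝ) < M := by exact_mod_cast hM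
  have hk0 : (0 : ℝ) < (k.factorial : ℝ) := by exact_mod_cast k.factorial_pos
  have hl4 : Real.log (4 * Y) ≤ Real.log x :=
    Real.log_le_log (by positivity) (by exact_mod_cast hb)
  have hP : (Y : ℝ) / Real.log x ≤ ((PP Y).card : ℝ) := by
    rw [div_le_iff₀ hl]
    exact ha.trans (mul_le_mul_of_nonneg_left hl4 (by positivity))
  have h1 : ∑ s ∈ (PP Y).powersetCard k, (piAP x (dd M s) (dd M s - 1) : ℝ) ≤
      2 ^ t * ((S1 M x Y k).card : ℝ) := by
    exact_mod_cast count_bd M x Y k t hM hY hf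
  have h2 := er_bd M x Y k z hM fun s hs => (dd_le M Y k hs).trans hd
  have h3 : ∀ s ∈ (PP Y).powersetCard k,
      (x : ℝ) / (2 * Real.log x) / (M * (4 * Y) ^ k) - |Er x (dd M s) (dd M s - 1)| ≤
        (piAP x (dd M s) (dd M s - 1) : ℝ) := by
    intro s hs
    have hd1 := dd_pos hM (mem_powersetCard.1 hs).1
    have ht1 : 0 < Nat.totient (dd M s) := Nat.totient_pos.2 hd1
    have ht : (Nat.totient (dd M s) : ℝ) ≤ M * (4 * Y) ^ k := by
      exact_mod_cast (Nat.totient_le _).trans (dd_le M Y k hs)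
    have ht0 : (0 : ℝ) < (Nat.totient (dd M s) : ℝ) := by exact_mod_cast ht1
    have e : (piAP x (dd M s) (dd M s - 1) : ℝ) = Er x (dd M s) (dd M s - 1) +
        (piN x : ℝ) / (Nat.totient (dd M s) : ℝ) := by
      unfold Er
      ring
    rw [e]
    have h5 : (x : ℝ) / (2 * Real.log x) / (M * (4 * Y) ^ k) ≤
        (piN x : ℝ) / (Nat.totient (dd M s) : ℝ) :=
      div_le_div₀ (by positivity) he ht0 ht
    have h6 := neg_abs_le (Er x (dd M s) (dd M s - 1))
    linarith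
  have h4 := sum_le_sum h3
  rw [sum_sub_distrib, sum_const, card_powersetCard, nsmul_eq_mul] at h4
  have h5 := choose_bd (PP Y).card k hc
  have h6 : ((Y : ℝ) / Real.log x / 2) ^ k / (k.factorial : ℝ) ≤ ((PP Y).card.choose k : ℝ) := by
    refine le_trans ?_ h5
    refine div_le_div_of_nonneg_right ?_ hk0.le
    exact pow_le_pow_left₀ (by positivity) (div_le_div_of_nonneg_right hP (by norm_num)) k
  have h7 : (x : ℝ) / ((2 * M * k.factorial * 8 ^ k : ℝ) * Real.log x ^ (k + 1)) =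
      ((Y : ℝ) / Real.log x / 2) ^ k / (k.factorial : ℝ) *
        ((x : ℝ) / (2 * Real.log x) / (M * (4 * Y) ^ k)) := by
    rw [div_pow, div_pow, mul_pow, show (8 : ℝ) = 2 * 4 by norm_num, mul_pow]
    field_simp
    ring
  rw [h7]
  have h8 := mul_le_mul_of_nonneg_right h6
    (show 0 ≤ (x : ℝ) / (2 * Real.log x) / (M * (4 * Y) ^ k) by positivity)
  linarith


/-- The theorem of Bombieri and Vinogradov. -/
def BV : Prop := ∀ (κ : ℝ), κ < 1 / 2 → ∀ (U : ℕ), ∃ C : ℝ, 0 < C ∧ ∀ x : ℕ, 3 ≤ x →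
    ∀ b : ℕ → ℕ, (∀ d, 1 ≤ d → Nat.Coprime (b d) d) → ∀ y : ℕ → ℕ, (∀ d, y d ≤ x) →
    ∑ d ∈ Icc 1 ⌊(x : ℝ) ^ κ⌋₊, |Er (y d) d (b d)| ≤ C * (x / Real.log x ^ U)

/-- the product of the primes in `PP Y` -/
def NN (Y : ℕ) : ℕ := ∏ p ∈ PP Y, p

lemma NN_sqf (Y : ℕ) : Squarefree (NN Y) := by
  unfold NN
  refine Finset.squarefree_prod_of_pairwise_isCoprime ?_ ?_
  · intro p hp q hq hpq
    exact Nat.coprime_iff_isRelPrime.1
      ((Nat.coprime_primes (PP_prime (mem_coe.1 hp)) (PP_prime (mem_coe.1 hq))).2 hpq)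
  · intro p hp
    exact (PP_prime hp).prime.squarefree

lemma NN_pos (Y : ℕ) : 1 ≤ NN Y := Finset.prod_pos fun _ hp => (PP_prime hp).pos

lemma NN_mem {Y l : ℕ} (hl : l.Prime) (h : l ∣ NN Y) : l ∈ PP Y := by
  unfold NN at h
  obtain ⟨p, hp, hd⟩ := (hl.prime.dvd_finsetProd_iff _).1 h
  rw [(Nat.prime_dvd_prime_iff_eq hl (PP_prime hp)).1 hd]
  exact hp

lemma S1_gcd {M x Y k p : ℕ} (hp : p ∈ S1 M x Y k) :
    M ∣ p + 1 ∧ Y ^ k ≤ Nat.gcd (p + 1) (NN Y) := by
  unfold S1 at hp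
  rw [mem_filter] at hp
  obtain ⟨-, -, s, hs, hd⟩ := hp
  rw [mem_powersetCard] at hs
  unfold dd at hd
  refine ⟨(Dvd.intro _ rfl : M ∣ M * ∏ p ∈ s, p).trans hd, ?_⟩
  have h1 : (∏ p ∈ s, p) ∣ p + 1 := (Dvd.intro_left M rfl).trans hd
  have h2 : (∏ p ∈ s, p) ∣ NN Y := Finset.prod_dvd_prod_of_subset _ _ _ hs.1
  have h3 := Nat.le_of_dvd (Nat.gcd_pos_of_pos_left _ (Nat.succ_pos p)) (Nat.dvd_gcd h1 h2)
  refine le_trans ?_ h3
  rw [← hs.2]
  exact Finset.pow_card_le_prod _ _ _ fun q hq => (PP_gt (hs.1 hq)).le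

theorem prs (hbv : BV) : S_PRS := by
  intro M D K hM hD η hη hη4
  -- the parameters
  obtain ⟨k, hk⟩ : ∃ k : ℕ, k = ⌈1 / η⌉₊ := ⟨_, rfl⟩
  have hk1 : 1 / η ≤ (k : ℝ) := by
    rw [hk]
    exact Nat.le_ceil _
  have hk0 : (0 : ℝ) < (k : ℝ) := lt_of_lt_of_le (by positivity) hk1
  have hkpos : 0 < k := by exact_mod_cast hk0
  obtain ⟨θ, hθ⟩ : ∃ θ : ℝ, θ = (1 / 2 - η / 2) / k := ⟨_, rfl⟩
  have hθ0 : 0 < θ := by
    rw [hθ]
    exact div_pos (by linarith) hk0
  have hθk : θ * k = 1 / 2 - η / 2 := by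
    rw [hθ]
    field_simp
  have hθη : θ ≤ η / 2 := by
    rw [hθ, div_le_iff₀ hk0]
    rw [div_le_iff₀ hη] at hk1
    nlinarith
  obtain ⟨κ, hκ⟩ : ∃ κ : ℝ, κ = 1 / 2 - η / 4 := ⟨_, rfl⟩
  have hκ2 : κ < 1 / 2 := by linarith
  have hκ0 : 0 < κ := by linarith
  obtain ⟨C, hC, hBV⟩ := hbv κ hκ2 (k + 2)
  obtain ⟨t, ht⟩ : ∃ t, t + 1 = 4 * k := ⟨4 * k - 1, by omega⟩
  obtain ⟨A, hA⟩ : ∃ A : ℝ, A = 2 * M * k.factorial * 8 ^ k := ⟨_, rfl⟩
  have hM0 : (0 : ℝ) < M := by exact_mod_cast hM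
  have hA0 : 0 < A := by
    rw [hA]
    have : (0 : ℝ) < (k.factorial : ℝ) := by exact_mod_cast k.factorial_pos
    positivity
  -- limits
  have tx : Tendsto (fun X : ℝ => ⌊X⌋₊) atTop atTop := tendsto_nat_floor_atTop
  have tY : Tendsto (fun X : ℝ => ⌊X ^ θ⌋₊) atTop atTop :=
    tendsto_nat_floor_atTop.comp (tendsto_rpow_atTop hθ0)
  have tl : Tendsto (fun X : ℝ => Real.log (⌊X⌋₊ : ℝ)) atTop atTop :=
    Real.tendsto_log_atTop.comp (tendsto_natCast_atTop_atTop.comp tx)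
  have tP : ∀ᶠ Y : ℕ in atTop, 2 * k ≤ (PP Y).card := by
    have h1 : ∀ᶠ Y : ℕ in atTop, 2 * (k : ℝ) * Real.log (4 * Y) ≤ (Y : ℝ) := by
      have h2 : ∀ᶠ x : ℝ in atTop, Real.log x ≤ 1 / (8 * k) * x := by
        have h := Real.isLittleO_log_id_atTop.bound (show (0 : ℝ) < 1 / (8 * k) by positivity)
        filter_upwards [h, eventually_ge_atTop (1 : ℝ)] with x hx hx1
        have h4 : 0 ≤ Real.log x := Real.log_nonneg hx1
        simp only [id, Real.norm_eq_abs, abs_of_nonneg h4,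
          abs_of_nonneg (show (0 : ℝ) ≤ x by linarith)] at hx
        exact hx
      have h3 : Tendsto (fun Y : ℕ => 4 * (Y : ℝ)) atTop atTop :=
        tendsto_natCast_atTop_atTop.const_mul_atTop (by norm_num)
      filter_upwards [h3.eventually h2] with Y hY
      have h4 := mul_le_mul_of_nonneg_left hY (show 0 ≤ 2 * (k : ℝ) by positivity)
      refine h4.trans (le_of_eq ?_)
      field_simp
      norm_num
    filter_upwards [h1, PP_lower, eventually_ge_atTop 1] with Y a1 a2 a3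
    have h4 : 0 < Real.log (4 * (Y : ℝ)) := by
      apply Real.log_pos
      have : (1 : ℝ) ≤ Y := by exact_mod_cast a3
      linarith
    have h5 : 2 * (k : ℝ) * Real.log (4 * Y) ≤ ((PP Y).card : ℝ) * Real.log (4 * Y) := a1.trans a2
    have h6 := le_of_mul_le_mul_right h5 h4
    exact_mod_cast h6
  have tlog : ∀ᶠ X : ℝ in atTop, Real.log X ^ (k + 1) ≤ X ^ (η / 2) := by
    have h := (isLittleO_log_rpow_rpow_atTop ((k : ℝ) + 1) (show 0 < η / 2 by positivity)).bound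
      (show (0 : ℝ) < 1 by norm_num)
    filter_upwards [h, eventually_ge_atTop (1 : ℝ)] with X hX hX1
    have h4 : 0 ≤ Real.log X := Real.log_nonneg hX1
    rw [Real.norm_eq_abs, Real.norm_eq_abs, abs_of_nonneg (Real.rpow_nonneg h4 _),
      abs_of_nonneg (Real.rpow_nonneg (by linarith) _), one_mul] at hX
    have e : Real.log X ^ (k + 1) = Real.log X ^ ((k : ℝ) + 1) := by
      rw [← Real.rpow_natCast]
      push_cast
      rfl
    rw [e]
    exact hX
  have ev : ∀ᶠ X : ℝ in atTop, ∃ (S : Finset ℕ) (N : ℕ), 1 ≤ N ∧ Squarefree N ∧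
    (∀ l : ℕ, l.Prime → l ∣ N → K ≤ l ∧ (l : ℝ) ≤ X ^ η) ∧
    (∀ p ∈ S, p.Prime ∧ X ^ (1 - η) ≤ (p : ℝ) ∧ (p : ℝ) ≤ X ∧ ¬ p ∣ D ∧ M ∣ p + 1 ∧
      X ^ (1 / 2 - η) ≤ (Nat.gcd (p + 1) N : ℝ)) ∧
    X ^ (1 - η) ≤ (S.card : ℝ) := by
    filter_upwards [tY.eventually (eventually_ge_atTop (K + 1)), tY.eventually PP_lower,
      tY.eventually tP, tx.eventually piN_lower, tx.eventually (eventually_ge_atTop 3),
      tl.eventually (eventually_ge_atTop (2 * A * C)), tlog,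
      (tendsto_rpow_atTop (show 0 < η / 4 by positivity)).eventually
        (eventually_ge_atTop (2 * M * 4 ^ k : ℝ)),
      (tendsto_rpow_atTop (show 0 < 1 - 2 * η by linarith)).eventually
        (eventually_ge_atTop (3 * 16 ^ k : ℝ)),
      (tendsto_rpow_atTop (show 0 < η / 2 by positivity)).eventually
        (eventually_ge_atTop (4 + 2 ^ k + 4 * A * 2 ^ t * (2 + D) : ℝ)),
      eventually_ge_atTop (5 : ℝ)] with X a1 a2 a3 a4 a5 a6 a7 a8 a9 a10 a11
    have hX0 : 0 < X := by linarith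
    have hX1 : 1 ≤ X := by linarith
    obtain ⟨Y, hY⟩ : ∃ Y : ℕ, Y = ⌊X ^ θ⌋₊ := ⟨_, rfl⟩
    obtain ⟨x, hx⟩ : ∃ x : ℕ, x = ⌊X⌋₊ := ⟨_, rfl⟩
    rw [← hY] at a1 a2 a3
    rw [← hx] at a4 a5 a6
    have hY1 : 1 ≤ Y := by omega
    have hYr : (1 : ℝ) ≤ Y := by exact_mod_cast hY1
    have hYle : (Y : ℝ) ≤ X ^ θ := by
      rw [hY]
      exact Nat.floor_le (Real.rpow_nonneg hX0.le _)
    have hYge : X ^ θ / 2 ≤ Y := by
      have : X ^ θ < Y + 1 := by
        rw [hY]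
        exact Nat.lt_floor_add_one _
      linarith
    have hxle : (x : ℝ) ≤ X := by
      rw [hx]
      exact Nat.floor_le hX0.le
    have hxr : (3 : ℝ) ≤ x := by exact_mod_cast a5
    have hxge : X / 2 ≤ x := by
      have : X < x + 1 := by
        rw [hx]
        exact Nat.lt_floor_add_one _
      linarith
    have p1 : (0 : ℝ) ≤ 2 ^ k := by positivity
    have p2 : (0 : ℝ) ≤ 4 * A * 2 ^ t * (2 + D) := by positivity
    have hη2 : X ^ (η / 2) * X ^ (η / 2) = X ^ η := by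
      rw [← Real.rpow_add hX0]
      congr 1
      ring
    have hη2' : (1 : ℝ) ≤ X ^ (η / 2) := Real.one_le_rpow hX1 (by positivity)
    have hθle : X ^ θ ≤ X ^ (η / 2) := Real.rpow_le_rpow_of_exponent_le hX1 hθη
    have h4Y : 4 * (Y : ℝ) ≤ X ^ η := by
      rw [← hη2]
      have : 4 * (Y : ℝ) ≤ X ^ (η / 2) * X ^ (η / 2) :=
        mul_le_mul (by linarith) (hYle.trans hθle) (by linarith) (by linarith)
      exact this
    have hXη : X ^ η ≤ X / 2 := by
      have h1 : X ^ η ≤ X ^ (1 / 4 : ℝ) := Real.rpow_le_rpow_of_exponent_le hX1 hη4.le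
      have h2 : X ^ (1 / 4 : ℝ) ≤ X ^ (1 / 2 : ℝ) :=
        Real.rpow_le_rpow_of_exponent_le hX1 (by norm_num)
      have h3 : X ^ (1 / 2 : ℝ) ≤ X / 2 := by
        rw [← Real.sqrt_eq_rpow]
        apply Real.sqrt_le_iff.2
        constructor
        · linarith
        · nlinarith
      linarith
    have hb : 4 * Y ≤ x := by
      have : (4 * (Y : ℝ)) ≤ x := by linarith
      exact_mod_cast this
    have hθk' : (X ^ θ) ^ k = X ^ (1 / 2 - η / 2) := by
      rw [← Real.rpow_natCast, ← Real.rpow_mul hX0.le, hθk]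
    have hd : M * (4 * Y) ^ k ≤ ⌊(x : ℝ) ^ κ⌋₊ := by
      apply Nat.le_floor
      push_cast
      have h1 : (4 * (Y : ℝ)) ^ k ≤ 4 ^ k * X ^ (1 / 2 - η / 2) := by
        rw [mul_pow, ← hθk']
        exact mul_le_mul_of_nonneg_left (pow_le_pow_left₀ (by positivity) hYle k) (by positivity)
      have h2 : X ^ κ / 2 ≤ (x : ℝ) ^ κ := by
        have h3 : (X / 2) ^ κ ≤ (x : ℝ) ^ κ :=
          Real.rpow_le_rpow (by linarith) hxge hκ0.le
        have h4 : X ^ κ / 2 ≤ (X / 2) ^ κ := by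
          rw [Real.div_rpow hX0.le (by norm_num)]
          refine div_le_div_of_nonneg_left (Real.rpow_nonneg hX0.le _) (by positivity) ?_
          calc (2 : ℝ) ^ κ ≤ (2 : ℝ) ^ (1 : ℝ) :=
                Real.rpow_le_rpow_of_exponent_le (by norm_num) (by linarith)
            _ = 2 := Real.rpow_one 2
        linarith
      have h5 : X ^ κ = X ^ (η / 4) * X ^ (1 / 2 - η / 2) := by
        rw [← Real.rpow_add hX0, hκ]
        congr 1
        ring
      have h6 : 0 < X ^ (1 / 2 - η / 2) := Real.rpow_pos_of_pos hX0 _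
      have h7 : (M : ℝ) * (4 * Y) ^ k ≤ M * (4 ^ k * X ^ (1 / 2 - η / 2)) :=
        mul_le_mul_of_nonneg_left h1 hM0.le
      have h8 : (2 * M * 4 ^ k : ℝ) * X ^ (1 / 2 - η / 2) ≤ X ^ (η / 4) * X ^ (1 / 2 - η / 2) :=
        mul_le_mul_of_nonneg_right a8 h6.le
      linarith
    have hf : x + 1 < Y ^ (t + 1) := by
      have h1 : (X ^ θ / 2) ^ (4 * k) ≤ (Y : ℝ) ^ (4 * k) :=
        pow_le_pow_left₀ (by positivity) hYge _
      have h2 : (X ^ θ / 2) ^ (4 * k) = X ^ (1 - 2 * η) * X / 16 ^ k := by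
        rw [div_pow]
        have e1 : (X ^ θ) ^ (4 * k) = X ^ (1 - 2 * η) * X := by
          rw [mul_comm 4 k, pow_mul, hθk', ← Real.rpow_natCast, ← Real.rpow_mul hX0.le]
          rw [← Real.rpow_add_one hX0.ne']
          congr 1
          push_cast
          ring
        have e2 : (2 : ℝ) ^ (4 * k) = 16 ^ k := by
          rw [pow_mul]
          norm_num
        rw [e1, e2]
      have h3 : 3 * X ≤ X ^ (1 - 2 * η) * X / 16 ^ k := by
        rw [le_div_iff₀ (by positivity)]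
        have := mul_le_mul_of_nonneg_right a9 hX0.le
        linarith
      have h4 : ((x + 1 : ℕ) : ℝ) < ((Y ^ (t + 1) : ℕ) : ℝ) := by
        rw [ht]
        push_cast
        linarith
      exact_mod_cast h4
    have hcop : ∀ d, 1 ≤ d → Nat.Coprime (d - 1) d := by
      intro d hd1
      have : Nat.Coprime (d - 1) (d - 1 + 1) := by simp
      rwa [Nat.sub_add_cancel hd1] at this
    have hg := hBV x a5 (fun d => d - 1) hcop (fun _ => x) (fun _ => le_rfl)
    have hmain := main_count M x Y k t ⌊(x : ℝ) ^ κ⌋₊ (C * (x / Real.log x ^ (k + 2))) hM hY1 a5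
      a2 hb a3 hd a4 hf hg
    rw [← hA] at hmain
    have hl : 0 < Real.log x := Real.log_pos (by linarith)
    have hx0 : (0 : ℝ) < x := by linarith
    have h1 : C * ((x : ℝ) / Real.log x ^ (k + 2)) ≤
        (x : ℝ) / (2 * A * Real.log x ^ (k + 1)) := by
      rw [mul_div_assoc', div_le_div_iff₀ (by positivity) (by positivity)]
      have e : Real.log (x : ℝ) ^ (k + 2) = Real.log x * Real.log x ^ (k + 1) := by ring
      rw [e]
      have h2 : (0 : ℝ) < Real.log x ^ (k + 1) := by positivity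
      have h3 : (2 * A * C) * (x * Real.log x ^ (k + 1)) ≤
          Real.log x * (x * Real.log x ^ (k + 1)) :=
        mul_le_mul_of_nonneg_right a6 (by positivity)
      linarith
    have h2 : (x : ℝ) / (A * Real.log x ^ (k + 1)) =
        2 * ((x : ℝ) / (2 * A * Real.log x ^ (k + 1))) := by
      field_simp
    have h3 : (x : ℝ) / (2 * A * Real.log x ^ (k + 1)) ≤ 2 ^ t * ((S1 M x Y k).card : ℝ) := by
      rw [h2] at hmain
      linarith
    have h4 : X ^ (1 - η) * (X ^ (η / 2) / (4 * A)) ≤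
        (x : ℝ) / (2 * A * Real.log x ^ (k + 1)) := by
      have e1 : Real.log (x : ℝ) ^ (k + 1) ≤ X ^ (η / 2) := by
        refine le_trans ?_ a7
        exact pow_le_pow_left₀ hl.le (Real.log_le_log hx0 hxle) _
      have e2 : X ^ (1 - η) * (X ^ (η / 2) / (4 * A)) = (X / 2) / (2 * A * X ^ (η / 2)) := by
        have e3 : X = X ^ (1 - η) * (X ^ (η / 2) * X ^ (η / 2)) := by
          rw [hη2, ← Real.rpow_add hX0, sub_add_cancel, Real.rpow_one]
        have e4 : X / 2 = X ^ (1 - η) * (X ^ (η / 2) * X ^ (η / 2)) / 2 := by rw [← e3]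
        rw [e4]
        have e5 : 0 < X ^ (η / 2) := by linarith
        field_simp
        ring
      rw [e2]
      exact div_le_div₀ hx0.le hxge (by positivity)
        (mul_le_mul_of_nonneg_left e1 (by positivity))
    have h5 : X ^ (1 - η) * (2 + D) ≤ ((S1 M x Y k).card : ℝ) := by
      have e1 : 2 ^ t * (2 + D : ℝ) ≤ X ^ (η / 2) / (4 * A) := by
        rw [le_div_iff₀ (by positivity)]
        linarith
      have e2 : X ^ (1 - η) * (2 ^ t * (2 + D : ℝ)) ≤ X ^ (1 - η) * (X ^ (η / 2) / (4 * A)) :=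
        mul_le_mul_of_nonneg_left e1 (Real.rpow_nonneg hX0.le _)
      have e3 : (2 : ℝ) ^ t * (X ^ (1 - η) * (2 + D)) ≤ 2 ^ t * ((S1 M x Y k).card : ℝ) := by
        linarith
      exact le_of_mul_le_mul_left e3 (by positivity)
    have hX1η : (1 : ℝ) ≤ X ^ (1 - η) := Real.one_le_rpow hX1 (by linarith)
    refine ⟨(S1 M x Y k).filter fun p => X ^ (1 - η) ≤ (p : ℝ) ∧ ¬ p ∣ D, NN Y, NN_pos Y,
      NN_sqf Y, ?_, ?_, ?_⟩
    · intro l hl hlN
      have hm := NN_mem hl hlN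
      refine ⟨by have := PP_gt hm; omega, ?_⟩
      have h6 : (l : ℝ) ≤ 4 * Y := by exact_mod_cast PP_le hm
      linarith
    · intro p hp
      rw [mem_filter] at hp
      obtain ⟨hp1, hp2, hp3⟩ := hp
      have hg1 := S1_gcd hp1
      unfold S1 at hp1
      rw [mem_filter, mem_Icc] at hp1
      refine ⟨hp1.2.1, hp2, ?_, hp3, hg1.1, ?_⟩
      · have : (p : ℝ) ≤ x := by exact_mod_cast hp1.1.2
        linarith
      · have h6 : ((Y ^ k : ℕ) : ℝ) ≤ (Nat.gcd (p + 1) (NN Y) : ℝ) := by exact_mod_cast hg1.2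
        refine le_trans ?_ h6
        push_cast
        have h7 : (X ^ θ / 2) ^ k ≤ (Y : ℝ) ^ k := pow_le_pow_left₀ (by positivity) hYge _
        refine le_trans ?_ h7
        rw [div_pow, hθk', le_div_iff₀ (by positivity)]
        have e : X ^ (1 / 2 - η / 2) = X ^ (1 / 2 - η) * X ^ (η / 2) := by
          rw [← Real.rpow_add hX0]
          congr 1
          ring
        rw [e]
        refine mul_le_mul_of_nonneg_left (by linarith) (Real.rpow_nonneg hX0.le _)
    · have hsub : S1 M x Y k ⊆ (((S1 M x Y k).filter fun p => X ^ (1 - η) ≤ (p : ℝ) ∧ ¬ p ∣ D) ∪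
          Icc 1 ⌊X ^ (1 - η)⌋₊) ∪ Icc 1 D := by
        intro p hp
        have hp' := hp
        unfold S1 at hp'
        rw [mem_filter, mem_Icc] at hp'
        rw [mem_union, mem_union, mem_filter, mem_Icc, mem_Icc]
        by_cases c1 : X ^ (1 - η) ≤ (p : ℝ)
        · by_cases c2 : p ∣ D
          · exact Or.inr ⟨hp'.1.1, Nat.le_of_dvd hD c2⟩
          · exact Or.inl (Or.inl ⟨hp, c1, c2⟩)
        · push Not at c1
          exact Or.inl (Or.inr ⟨hp'.1.1, Nat.le_floor c1.le⟩)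
      have hcard := (card_le_card hsub).trans
        ((card_union_le _ _).trans (Nat.add_le_add_right (card_union_le _ _) _))
      rw [Nat.card_Icc, Nat.card_Icc, Nat.add_sub_cancel, Nat.add_sub_cancel] at hcard
      have hcard' : ((S1 M x Y k).card : ℝ) ≤
          ((((S1 M x Y k).filter fun p : ℕ => X ^ (1 - η) ≤ (p : ℝ) ∧ ¬ p ∣ D).card : ℕ) : ℝ) +
            ((⌊X ^ (1 - η)⌋₊ : ℕ) : ℝ) + D := by exact_mod_cast hcard
      have hfl : ((⌊X ^ (1 - η)⌋₊ : ℕ) : ℝ) ≤ X ^ (1 - η) :=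
        Nat.floor_le (Real.rpow_nonneg hX0.le _)
      have hD0 : (0 : ℝ) ≤ D := by positivity
      have hDX : 1 * (D : ℝ) ≤ X ^ (1 - η) * D := mul_le_mul_of_nonneg_right hX1η hD0
      linarith
  obtain ⟨X₀, hX₀⟩ := eventually_atTop.1 ev
  exact ⟨X₀, hX₀⟩

theorem t_PRS : S_PRS := prs fun κ hκ U => Pool.Agent.R503.W.bv_heights κ hκ U

end Pool.Agent.N890.US.PRS
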