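import Pool.Agent.N890.US.Cases
import Pool.Agent.N890.US.LF1
import Pool.Agent.N890.US.LF2
import Pool.Agent.N890.US.LF3
import Pool.Agent.N890.US.LIFT
import Pool.Agent.N890.US.NTOR
import Pool.Agent.N890.US.UNR
import Pool.Agent.N890.US.DISC
import Pool.Agent.N890.US.HERM
import Pool.Agent.N890.US.FLD
import Pool.Agent.N890.US.CNT
import Pool.Agent.N890.US.PRS
import Pool.Agent.N890.US.COS
import Pool.Agent.N890.US.BOX

/-! Project US (helper890): all the pieces together. -/

set_option autoImplicit false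

namespace Pool.Agent.N890.US

theorem s_LIFT : S_LIFT := LIFT.t_LIFT LF1.t_LF1 LF2.t_LF2 LF3.t_LF3

theorem s_UNR : S_UNR := UNR.t_UNR s_LIFT NTOR.t_NTOR

/-- at most `exp (C l ^ A)` cocycles of level `l` come everywhere locally from points -/
theorem s_CNT : S_CNT := CNT.t_CNT s_UNR DISC.t_DISC HERM.t_HERM FLD.t_FLD

theorem s_PRS : S_PRS := PRS.t_PRS

theorem s_COS : S_COS := COS.t_COS

theorem s_BOX : S_BOX := BOX.t_BOX

end Pool.Agent.N890.US
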