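import Mathlib

/-! Project US (helper890): the choice of the parameters. -/

set_option autoImplicit false

namespace Pool.Agent.N890.US

open Filter Topology Asymptotics

/-- the inequality between the logarithms -/
theorem ev_main (c₁ c₂ c₃ c₄ ε : ℝ) (hc3 : 0 ≤ c₃) (hε : 0 < ε) :
    ∀ᶠ x : ℝ in atTop, c₁ * x ^ (1 / 2 : ℝ) + c₂ + c₃ * (2 + x) / Real.log x +
      c₄ * Real.log x ≤ ε * x := by
  have h1 : (fun x : ℝ => c₁ * x ^ (1 / 2 : ℝ)) =o[atTop] (fun x : ℝ => x) := by
    refine IsLittleO.const_mul_left ?_ c₁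
    rw [isLittleO_iff_tendsto' (by
      filter_upwards [eventually_gt_atTop 0] with x hx h0
      exact absurd h0 hx.ne')]
    refine (tendsto_rpow_neg_atTop (show (0 : ℝ) < 1 / 2 by norm_num)).congr' ?_
    filter_upwards [eventually_gt_atTop 0] with x hx
    rw [eq_div_iff hx.ne']
    nth_rw 2 [← Real.rpow_one x]
    rw [← Real.rpow_add hx]
    norm_num
  have h2 : (fun _ : ℝ => c₂) =o[atTop] (fun x : ℝ => x) :=
    isLittleO_const_id_atTop c₂
  have h4 : (fun x : ℝ => c₄ * Real.log x) =o[atTop] (fun x : ℝ => x) :=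
    (Real.isLittleO_log_id_atTop).const_mul_left c₄
  have h5 := ((h1.add h2).add h4).bound (show 0 < ε / 2 by linarith)
  have h6 : ∀ᶠ x : ℝ in atTop, 4 * c₃ / ε + 1 ≤ Real.log x :=
    Real.tendsto_log_atTop.eventually (eventually_ge_atTop _)
  filter_upwards [h5, h6, eventually_ge_atTop 2] with x hx1 hx2 hx3
  rw [Real.norm_eq_abs, Real.norm_eq_abs, abs_of_nonneg (by linarith : (0 : ℝ) ≤ x)] at hx1
  have h7 := (le_abs_self _).trans hx1
  have hlog : 0 < Real.log x := by
    have : 0 ≤ 4 * c₃ / ε := by positivity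
    linarith
  have h8 : c₃ * (2 + x) / Real.log x ≤ ε / 2 * x := by
    rw [div_le_iff₀ hlog]
    have h9 : 4 * c₃ ≤ ε * Real.log x := by
      have h10 : 4 * c₃ / ε ≤ Real.log x := by linarith
      rw [div_le_iff₀ hε] at h10
      linarith
    nlinarith
  linarith

end Pool.Agent.N890.US
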