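import Pool.Agent.N890.US.DensP
import Pool.Agent.N890.US.Real

/-! Project US (helper890): the main theorem from its inputs. -/

set_option autoImplicit false

namespace Pool.Agent.N890.US

open Filter Topology
open WeierstrassCurve Pool.Agent.H901R3.MS MvPolynomial
open Pool.Agent.N89.CI Pool.Agent.N890.FD

open scoped LinearAlgebra.Projectivization

/-- a common bound for the numbers of the cocycles -/
theorem cnt_common (hCNT : S_CNT) {r : ℕ} (a b : Fin r → ℤ)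
    (hdisc : ∀ i, 4 * a i ^ 3 + 27 * b i ^ 2 ≠ 0) : ∃ A C : ℕ, ∀ i, ∀ l : ℕ, l.Prime → 2 < l →
      (Zset (a i) (b i) l).Finite ∧
        ((Zset (a i) (b i) l).ncard : ℝ) ≤ Real.exp (C * (l : ℝ) ^ A) := by
  choose A C h using fun i => hCNT (a i) (b i) (hdisc i)
  refine ⟨∑ i, A i, ∑ i, C i, fun i l hl hl2 => ⟨(h i l hl hl2).1, (h i l hl hl2).2.trans ?_⟩⟩
  apply Real.exp_le_exp.2
  have hl1 : (1 : ℝ) ≤ l := by exact_mod_cast hl.one_le
  have h1 : (C i : ℝ) ≤ ((∑ i, C i : ℕ) : ℝ) := by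
    exact_mod_cast Finset.single_le_sum (f := C) (fun i _ => Nat.zero_le _) (Finset.mem_univ i)
  have h2 : (l : ℝ) ^ A i ≤ (l : ℝ) ^ ∑ i, A i :=
    pow_le_pow_right₀ hl1
      (Finset.single_le_sum (f := A) (fun i _ => Nat.zero_le _) (Finset.mem_univ i))
  exact mul_le_mul h1 h2 (by positivity) (Nat.cast_nonneg _)

/-- the number of the prime factors, and the size of the level -/
theorem level_bounds (N : ℕ) (hN : Squarefree N) (Y : ℝ) (hY : 1 ≤ Y)
    (h : ∀ l : ℕ, l.Prime → l ∣ N → (l : ℝ) ≤ Y) :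
    (N.primeFactors.card : ℝ) ≤ Y ∧ Real.log N ≤ Y ^ 2 := by
  have h1 : (N.primeFactors.card : ℝ) ≤ Y := by
    have h2 : N.primeFactors ⊆ Finset.Icc 1 ⌊Y⌋₊ := by
      intro l hl
      rw [Finset.mem_Icc]
      have hlp := Nat.prime_of_mem_primeFactors hl
      exact ⟨hlp.one_le, Nat.le_floor (h l hlp (Nat.dvd_of_mem_primeFactors hl))⟩
    have h3 := Finset.card_le_card h2
    rw [Nat.card_Icc, Nat.add_sub_cancel] at h3
    exact (by exact_mod_cast h3 : (N.primeFactors.card : ℝ) ≤ ⌊Y⌋₊).trans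
      (Nat.floor_le (by linarith))
  refine ⟨h1, ?_⟩
  have h4 : (N : ℝ) = ∏ l ∈ N.primeFactors, (l : ℝ) := by
    rw [← Nat.cast_prod, Nat.prod_primeFactors_of_squarefree hN]
  rw [h4, Real.log_prod (fun l hl => by
    have := (Nat.prime_of_mem_primeFactors hl).pos
    positivity)]
  calc ∑ l ∈ N.primeFactors, Real.log l ≤ ∑ l ∈ N.primeFactors, Y := by
        refine Finset.sum_le_sum fun l hl => ?_
        have hlp := Nat.prime_of_mem_primeFactors hl
        have h5 : Real.log l ≤ l := (Real.log_le_sub_one_of_pos (by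
          exact_mod_cast hlp.pos)).trans (by linarith)
        exact h5.trans (h l hlp (Nat.dvd_of_mem_primeFactors hl))
    _ = N.primeFactors.card * Y := by rw [Finset.sum_const, nsmul_eq_mul]
    _ ≤ Y ^ 2 := by nlinarith

/-- the density at one prime in terms of `X` -/
theorem theta_bound (r κ s : ℕ) (hκs : κ ≤ s) (η B₀ X p g : ℝ) (hη : 0 ≤ η) (hη1 : η ≤ 1)
    (hB : 0 ≤ B₀) (hX : 1 ≤ X) (hp1 : X ^ (1 - η) ≤ p) (hp2 : p ≤ X)
    (hg : X ^ (1 / 2 - η) ≤ g) :
    ((p + 1) / g) ^ r * (B₀ * p ^ κ / p ^ s) ≤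
      (2 ^ r * B₀) * X ^ (-((s : ℝ) - κ - r / 2) + η * (r + s - κ)) := by
  have hX0 : 0 < X := by linarith
  have hXp : 0 < X ^ (1 - η) := Real.rpow_pos_of_pos hX0 _
  have hp0 : 0 < p := hXp.trans_le hp1
  have hg0 : 0 < X ^ (1 / 2 - η) := Real.rpow_pos_of_pos hX0 _
  have hg1 : 0 < g := hg0.trans_le hg
  have h1 : (p + 1) / g ≤ 2 * X ^ (1 / 2 + η) := by
    rw [div_le_iff₀ hg1]
    have h2 : X ^ (1 / 2 + η) * X ^ (1 / 2 - η) = X := by
      rw [← Real.rpow_add hX0]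
      norm_num
    have h3 : 2 * X ^ (1 / 2 + η) * X ^ (1 / 2 - η) ≤ 2 * X ^ (1 / 2 + η) * g :=
      mul_le_mul_of_nonneg_left hg (by positivity)
    have h4 : 2 * X ^ (1 / 2 + η) * X ^ (1 / 2 - η) = 2 * X := by
      rw [mul_assoc, h2]
    linarith
  have h2 : p ^ κ / p ^ s ≤ (X ^ (1 - η)) ^ (-((s : ℝ) - κ)) := by
    have h3 : p ^ κ / p ^ s = p ^ (-((s : ℝ) - κ)) := by
      rw [neg_sub, Real.rpow_sub hp0, Real.rpow_natCast, Real.rpow_natCast]
    rw [h3]
    apply Real.rpow_le_rpow_of_nonpos hXp hp1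
    have : (κ : ℝ) ≤ s := by exact_mod_cast hκs
    linarith
  have h3 : ((p + 1) / g) ^ r ≤ (2 * X ^ (1 / 2 + η)) ^ r :=
    pow_le_pow_left₀ (by positivity) h1 r
  calc ((p + 1) / g) ^ r * (B₀ * p ^ κ / p ^ s) = ((p + 1) / g) ^ r * (B₀ * (p ^ κ / p ^ s)) := by
        rw [mul_div_assoc]
    _ ≤ (2 * X ^ (1 / 2 + η)) ^ r * (B₀ * (X ^ (1 - η)) ^ (-((s : ℝ) - κ))) := by
        apply mul_le_mul h3 (mul_le_mul_of_nonneg_left h2 hB) (by positivity) (by positivity)
    _ = (2 ^ r * B₀) * X ^ (-((s : ℝ) - κ - r / 2) + η * (r + s - κ)) := by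
        rw [mul_pow, ← Real.rpow_mul hX0.le, ← Real.rpow_natCast (X ^ (1 / 2 + η)) r,
          ← Real.rpow_mul hX0.le]
        have : X ^ (-((s : ℝ) - κ - r / 2) + η * (r + s - κ)) =
            X ^ ((1 / 2 + η) * (r : ℝ)) * X ^ ((1 - η) * -((s : ℝ) - κ)) := by
          rw [← Real.rpow_add hX0]
          congr 1
          ring
        rw [this]
        ring

/-- the final inequality between the real numbers -/
theorem final_ineq (n r : ℕ) (A C : ℕ) (β γ η ε B₁ L X : ℝ) (H k : ℕ) (hH : 1 ≤ H)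
    (hL : L = Real.log H) (hL4 : 4 ≤ L) (hX : X = L ^ 2) (hB₁ : 1 ≤ B₁) (hγ0 : 0 ≤ γ)
    (hγβ : γ ≤ β) (hγε : β - ε / 2 ≤ γ) (hη : 0 ≤ η) (hηA : 4 * (η * (A + 1)) ≤ 1)
    (hk : k = ⌊Real.log (2 * H + 1) / Real.log X⌋₊)
    (hmain : (r * C : ℝ) * L ^ (1 / 2 : ℝ) + n * Real.log 6 + Real.log B₁ * (2 + L) / Real.log L +
      (2 * β) * Real.log L ≤ ε / 2 * L) :
    Real.exp (r * (X ^ η * (C * (X ^ η) ^ A))) *
      ((2 * (2 * (H : ℝ) + 1)) ^ n * (B₁ * X ^ (-γ)) ^ k) ≤ (H : ℝ) ^ ((n : ℝ) - β + ε) := by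
  have hHR : (1 : ℝ) ≤ H := by exact_mod_cast hH
  have hH0 : (0 : ℝ) < H := by linarith
  have hL0 : 0 < L := by linarith
  have hlogL : 0 < Real.log L := Real.log_pos (by linarith)
  have hX0 : 0 < X := by rw [hX]; positivity
  have hlogX : Real.log X = 2 * Real.log L := by
    rw [hX, Real.log_pow]
    norm_num
  have hlX : 0 < Real.log X := by rw [hlogX]; linarith
  have h21 : Real.log (2 * H + 1) ≤ 2 + L := by
    have h1 : Real.log (2 * H + 1) ≤ Real.log (3 * H) := Real.log_le_log (by linarith) (by linarith)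
    rw [Real.log_mul (by norm_num) hH0.ne', ← hL] at h1
    have h2 : Real.log 3 ≤ 3 - 1 := Real.log_le_sub_one_of_pos (by norm_num)
    linarith
  have h22 : L ≤ Real.log (2 * H + 1) := by
    rw [hL]
    exact Real.log_le_log hH0 (by linarith)
  have hk1 : (k : ℝ) ≤ (2 + L) / Real.log X := by
    rw [hk]
    refine (Nat.floor_le (div_nonneg (by linarith) hlX.le)).trans ?_
    exact div_le_div_of_nonneg_right h21 hlX.le
  have hk2 : L - Real.log X ≤ k * Real.log X := by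
    have h1 : Real.log (2 * H + 1) / Real.log X < k + 1 := by
      rw [hk]
      exact Nat.lt_floor_add_one _
    rw [div_lt_iff₀ hlX] at h1
    nlinarith
  have hlB : 0 ≤ Real.log B₁ := Real.log_nonneg hB₁
  -- everything as exponentials
  have e1 : (2 * (2 * (H : ℝ) + 1)) ^ n ≤ Real.exp (n * Real.log 6 + n * L) := by
    have h1 : 2 * (2 * (H : ℝ) + 1) ≤ 6 * H := by linarith
    calc (2 * (2 * (H : ℝ) + 1)) ^ n ≤ (6 * (H : ℝ)) ^ n := pow_le_pow_left₀ (by positivity) h1 n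
      _ = Real.exp (n * Real.log 6 + n * L) := by
          rw [← Real.exp_log (show (0 : ℝ) < 6 * H by positivity), ← Real.exp_nat_mul,
            Real.log_mul (by norm_num) hH0.ne', ← hL]
          congr 1
          ring
  have e2 : (B₁ * X ^ (-γ)) ^ k = Real.exp (k * (Real.log B₁ - γ * Real.log X)) := by
    have h1 : B₁ * X ^ (-γ) = Real.exp (Real.log B₁ - γ * Real.log X) := by
      rw [Real.exp_sub, Real.exp_log (by linarith), Real.rpow_neg hX0.le,
        Real.rpow_def_of_pos hX0, div_eq_mul_inv, mul_comm (Real.log X)]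
    rw [h1, ← Real.exp_nat_mul]
  have e3 : k * (Real.log B₁ - γ * Real.log X) ≤
      Real.log B₁ * (2 + L) / Real.log L - γ * (L - Real.log X) := by
    have h1 : (k : ℝ) * Real.log B₁ ≤ Real.log B₁ * (2 + L) / Real.log L := by
      have h2 : (k : ℝ) * Real.log B₁ ≤ (2 + L) / Real.log X * Real.log B₁ :=
        mul_le_mul_of_nonneg_right hk1 hlB
      have h3 : (2 + L) / Real.log X ≤ (2 + L) / Real.log L := by
        apply div_le_div_of_nonneg_left (by linarith) hlogL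
        rw [hlogX]
        linarith
      have h4 : (2 + L) / Real.log X * Real.log B₁ ≤ (2 + L) / Real.log L * Real.log B₁ :=
        mul_le_mul_of_nonneg_right h3 hlB
      have h5 : (2 + L) / Real.log L * Real.log B₁ = Real.log B₁ * (2 + L) / Real.log L := by ring
      linarith
    nlinarith
  have e4 : (r : ℝ) * (X ^ η * (C * (X ^ η) ^ A)) ≤ (r * C : ℝ) * L ^ (1 / 2 : ℝ) := by
    have h1 : X ^ η * (X ^ η) ^ A = L ^ (2 * (η * (A + 1))) := by
      rw [← pow_succ', ← Real.rpow_natCast (X ^ η) (A + 1), ← Real.rpow_mul hX0.le, hX,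
        ← Real.rpow_natCast L 2, ← Real.rpow_mul hL0.le]
      push_cast
      congr 1
    have h2 : L ^ (2 * (η * (A + 1))) ≤ L ^ (1 / 2 : ℝ) :=
      Real.rpow_le_rpow_of_exponent_le (by linarith) (by linarith)
    have h3 : (r : ℝ) * (X ^ η * (C * (X ^ η) ^ A)) = (r * C : ℝ) * (X ^ η * (X ^ η) ^ A) := by
      ring
    rw [h3, h1]
    exact mul_le_mul_of_nonneg_left h2 (by positivity)
  have e5 : (H : ℝ) ^ ((n : ℝ) - β + ε) = Real.exp (((n : ℝ) - β + ε) * L) := by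
    rw [Real.rpow_def_of_pos hH0, ← hL, mul_comm]
  rw [e2, e5]
  calc Real.exp (r * (X ^ η * (C * (X ^ η) ^ A))) *
      ((2 * (2 * (H : ℝ) + 1)) ^ n * Real.exp (k * (Real.log B₁ - γ * Real.log X)))
      ≤ Real.exp ((r * C : ℝ) * L ^ (1 / 2 : ℝ)) * (Real.exp (n * Real.log 6 + n * L) *
        Real.exp (Real.log B₁ * (2 + L) / Real.log L - γ * (L - Real.log X))) := by
        apply mul_le_mul (Real.exp_le_exp.2 e4) _ (by positivity) (Real.exp_pos _).le
        exact mul_le_mul e1 (Real.exp_le_exp.2 e3) (Real.exp_pos _).le (Real.exp_pos _).le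
    _ = Real.exp ((r * C : ℝ) * L ^ (1 / 2 : ℝ) + ((n * Real.log 6 + n * L) +
        (Real.log B₁ * (2 + L) / Real.log L - γ * (L - Real.log X)))) := by
        rw [← Real.exp_add, ← Real.exp_add]
    _ ≤ Real.exp (((n : ℝ) - β + ε) * L) := by
        apply Real.exp_le_exp.2
        rw [hlogX]
        have h1 : γ * (2 * Real.log L) ≤ 2 * β * Real.log L := by nlinarith
        have h2 : (β - ε / 2) * L ≤ γ * L := mul_le_mul_of_nonneg_right hγε hL0.le
        nlinarith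

open scoped Classical in
/-- **the main theorem** from its inputs -/
theorem mainU (hCNT : S_CNT) (hPRS : S_PRS) (hCOS : S_COS) (hBOX : S_BOX) (r m κ s : ℕ)
    (hs : (r : ℝ) / 2 + κ < s) (a b : Fin r → ℤ)
    (hdisc : ∀ i, 4 * a i ^ 3 + 27 * b i ^ 2 ≠ 0) (M₁ D₁ : ℕ) (hM₁ : 0 < M₁) (hD₁ : 0 < D₁)
    (hss : ∀ i, ∀ p : ℕ, p.Prime → ¬ p ∣ D₁ → M₁ ∣ p + 1 →
      Nat.card {z : ZMod p × ZMod p // z.2 ^ 2 = z.1 ^ 3 + a i * z.1 + b i} = p)
    {L' : Type} (Φ : L' → Pol0 ℤ r m) (d' : L' → Fin r → ℕ) (e' : L' → ℕ)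
    (hΦ : ∀ l, MHomog0 (Φ l) (d' l) (e' l)) (B : ℝ) (M p₁ : ℕ) (hM1 : 0 < M)
    (hpts : ∀ (p : ℕ) [Fact p.Prime], p₁ ≤ p → M ∣ p + 1 →
      ∀ V : Fin r → Fin 3 → ZMod p, (∀ i, Pool.Agent.W659.FD.OnE (a i) (b i) (V i)) →
        (({P : ℙ (ZMod p) (Fin (m + 1) → ZMod p) |
          ∀ l, val0 (Int.castRingHom (ZMod p)) (Φ l) V P.rep = 0}.ncard : ℕ) : ℝ) ≤
          B * (p : ℝ) ^ κ)
    (d : Fin s → Fin r → ℕ) (e : Fin s → ℕ) (ε δ : ℝ) (hε : 0 < ε) (hδ : 0 < δ) :
    ∃ H₀ : ℕ, ∀ H : ℕ, H₀ ≤ H → ∃ N : ℕ, 1 ≤ N ∧ Squarefree N ∧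
      Real.log N ≤ Real.log H ^ δ ∧
      (({c : Idx m d e → ℤ | (∀ x, |c x| ≤ H) ∧ (SelQ a b
        (Sum.elim (fun l => lift0 (Idx m d e) (Φ l)) (gen ℤ m d e)) N c).Nonempty}.ncard : ℕ) : ℝ)
        ≤ (H : ℝ) ^ ((Fintype.card (Idx m d e) : ℝ) - ((s : ℝ) - κ - r / 2) + ε) := by
  obtain ⟨A, C, hAC⟩ := cnt_common hCNT a b hdisc
  have hκs : κ ≤ s := by
    have h1 : (κ : ℝ) < s := by
      have : (0 : ℝ) ≤ (r : ℝ) / 2 := by positivity
      linarith
    exact_mod_cast h1.le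
  have hκsR : (κ : ℝ) ≤ s := by exact_mod_cast hκs
  set β : ℝ := (s : ℝ) - κ - r / 2 with hβ
  have hβ0 : 0 < β := by rw [hβ]; linarith
  set r' : ℝ := (r : ℝ) + s - κ with hr'
  have hr'0 : 0 ≤ r' := by
    have : (0 : ℝ) ≤ r := Nat.cast_nonneg _
    rw [hr']
    linarith
  set B₀ : ℝ := max B 1 with hB₀
  have hB₀1 : 1 ≤ B₀ := le_max_right _ _
  set B₁ : ℝ := 2 ^ r * B₀ with hB₁
  have hB₁1 : 1 ≤ B₁ := by
    have : (1 : ℝ) ≤ 2 ^ r := one_le_pow₀ (by norm_num)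
    rw [hB₁]
    nlinarith
  -- the parameter `η`
  obtain ⟨η, hη0, hη1, hη2, hη3, hη4, hη5⟩ : ∃ η : ℝ, 0 < η ∧ η < 1 / 4 ∧
      4 * (η * (A + 1)) ≤ 1 ∧ η * r' ≤ ε / 2 ∧ η * r' ≤ β ∧ 4 * η ≤ δ := by
    refine ⟨min (min (1 / 8) (1 / (4 * ((A : ℝ) + 1)))) (min (min (ε / 2 / (r' + 1))
      (β / (r' + 1))) (δ / 4)), ?_, ?_, ?_, ?_, ?_, ?_⟩
    · refine lt_min (lt_min (by norm_num) (by positivity)) (lt_min (lt_min ?_ ?_) (by positivity))
      · positivity
      · positivity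
    · exact ((min_le_left _ _).trans (min_le_left _ _)).trans_lt (by norm_num)
    · have h1 : min (min (1 / 8) (1 / (4 * ((A : ℝ) + 1)))) (min (min (ε / 2 / (r' + 1))
        (β / (r' + 1))) (δ / 4)) ≤ 1 / (4 * ((A : ℝ) + 1)) :=
        (min_le_left _ _).trans (min_le_right _ _)
      rw [le_div_iff₀ (by positivity)] at h1
      linarith
    · have h1 : min (min (1 / 8) (1 / (4 * ((A : ℝ) + 1)))) (min (min (ε / 2 / (r' + 1))
        (β / (r' + 1))) (δ / 4)) ≤ ε / 2 / (r' + 1) :=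
        (min_le_right _ _).trans ((min_le_left _ _).trans (min_le_left _ _))
      have h2 := mul_le_mul_of_nonneg_right h1 hr'0
      refine h2.trans ?_
      rw [div_mul_eq_mul_div, div_le_iff₀ (by linarith)]
      nlinarith
    · have h1 : min (min (1 / 8) (1 / (4 * ((A : ℝ) + 1)))) (min (min (ε / 2 / (r' + 1))
        (β / (r' + 1))) (δ / 4)) ≤ β / (r' + 1) :=
        (min_le_right _ _).trans ((min_le_left _ _).trans (min_le_right _ _))
      have h2 := mul_le_mul_of_nonneg_right h1 hr'0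
      refine h2.trans ?_
      rw [div_mul_eq_mul_div, div_le_iff₀ (by linarith)]
      nlinarith
    · have h1 : min (min (1 / 8) (1 / (4 * ((A : ℝ) + 1)))) (min (min (ε / 2 / (r' + 1))
        (β / (r' + 1))) (δ / 4)) ≤ δ / 4 := (min_le_right _ _).trans (min_le_right _ _)
      linarith
  set γ : ℝ := β - η * r' with hγ
  set Δ : ℕ := ∏ i, (4 * a i ^ 3 + 27 * b i ^ 2).natAbs with hΔ
  have hΔ0 : 0 < Δ := by
    refine Nat.pos_of_ne_zero ?_
    rw [hΔ, Finset.prod_ne_zero_iff]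
    intro i _
    exact Int.natAbs_ne_zero.2 (hdisc i)
  obtain ⟨X₀, hX₀⟩ := hPRS (M₁ * M) (D₁ * Δ) 3 (Nat.mul_pos hM₁ hM1) (Nat.mul_pos hD₁ hΔ0) η hη0 hη1
  set n : ℕ := Fintype.card (Idx m d e) with hn
  have hev := (((ev_main (r * C : ℝ) (n * Real.log 6) (Real.log B₁) (2 * β) (ε / 2)
    (Real.log_nonneg hB₁1) (by linarith)).and (eventually_ge_atTop (max 4 (p₁ : ℝ)))).and
    (eventually_ge_atTop X₀))
  have hev2 := (Real.tendsto_log_atTop.comp tendsto_natCast_atTop_atTop).eventually hev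
  obtain ⟨H₀, hH₀⟩ := (hev2.and (eventually_ge_atTop 1)).exists_forall_of_atTop
  refine ⟨H₀, fun H hH => ?_⟩
  obtain ⟨⟨⟨h1, h2⟩, h3⟩, hH1⟩ := hH₀ H hH
  simp only [Function.comp_apply] at h1 h2 h3
  set L : ℝ := Real.log H with hL
  have hL4 : 4 ≤ L := (le_max_left _ _).trans h2
  have hLp : (p₁ : ℝ) ≤ L := (le_max_right _ _).trans h2
  have hHR : (1 : ℝ) ≤ H := by exact_mod_cast hH1
  have hH0 : (0 : ℝ) < H := by linarith
  have hL0 : 0 < L := by linarith
  set X : ℝ := L ^ 2 with hX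
  have hXL : L ≤ X := by rw [hX]; nlinarith
  have hX1 : 1 ≤ X := by linarith
  have hX0 : 0 < X := by linarith
  obtain ⟨S, N, hN1, hN, hN2, hS, hScard⟩ := hX₀ X (h3.trans hXL)
  obtain ⟨hc1, hc2⟩ := level_bounds N hN (X ^ η) (Real.one_le_rpow hX1 hη0.le)
    (fun l hl hlN => (hN2 l hl hlN).2)
  refine ⟨N, hN1, hN, ?_, ?_⟩
  · refine hc2.trans ?_
    rw [hX, ← Real.rpow_natCast L 2, ← Real.rpow_natCast _ 2, ← Real.rpow_mul hL0.le,
      ← Real.rpow_mul hL0.le]
    apply Real.rpow_le_rpow_of_exponent_le (by linarith)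
    push_cast
    linarith
  -- a lower bound for the primes
  have hXL2 : 2 + L ≤ X ^ (1 - η) := by
    have h4 : X ^ (3 / 4 : ℝ) ≤ X ^ (1 - η) :=
      Real.rpow_le_rpow_of_exponent_le hX1 (by linarith)
    have h5 : X ^ (3 / 4 : ℝ) = L * L ^ (1 / 2 : ℝ) := by
      rw [hX, ← Real.rpow_natCast L 2, ← Real.rpow_mul hL0.le]
      nth_rw 2 [← Real.rpow_one L]
      rw [← Real.rpow_add hL0]
      norm_num
    have h6 : (2 : ℝ) ≤ L ^ (1 / 2 : ℝ) := by
      rw [← Real.sqrt_eq_rpow]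
      apply Real.le_sqrt_of_sq_le
      linarith
    rw [h5] at h4
    nlinarith
  set k : ℕ := ⌊Real.log (2 * H + 1) / Real.log X⌋₊ with hk
  have hlogX : 1 ≤ Real.log X := by
    rw [Real.le_log_iff_exp_le hX0]
    have := Real.exp_one_lt_d9
    nlinarith
  have h21 : Real.log (2 * H + 1) ≤ 2 + L := by
    have h4 : Real.log (2 * H + 1) ≤ Real.log (3 * H) :=
      Real.log_le_log (by linarith) (by linarith)
    rw [Real.log_mul (by norm_num) hH0.ne', ← hL] at h4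
    have h5 : Real.log 3 ≤ 3 - 1 := Real.log_le_sub_one_of_pos (by norm_num)
    linarith
  have h210 : 0 ≤ Real.log (2 * H + 1) := Real.log_nonneg (by linarith)
  have hkS : k ≤ S.card := by
    have h4 : (k : ℝ) ≤ Real.log (2 * H + 1) / Real.log X :=
      Nat.floor_le (div_nonneg h210 (by linarith))
    have h5 : Real.log (2 * H + 1) / Real.log X ≤ Real.log (2 * H + 1) :=
      div_le_self h210 hlogX
    exact_mod_cast ((h4.trans h5).trans (h21.trans hXL2)).trans hScard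
  obtain ⟨T, hTS, hTk⟩ := Finset.exists_subset_card_eq hkS
  have hTprod : ∏ p ∈ T, p ≤ 2 * H + 1 := by
    have h4 : ((∏ p ∈ T, p : ℕ) : ℝ) ≤ X ^ k := by
      push_cast
      calc ∏ p ∈ T, (p : ℝ) ≤ ∏ _p ∈ T, X :=
            Finset.prod_le_prod (fun p _ => Nat.cast_nonneg _) fun p hp => (hS p (hTS hp)).2.2.1
        _ = X ^ k := by rw [Finset.prod_const, hTk]
    have h5 : X ^ k ≤ 2 * H + 1 := by
      have h6 : (k : ℝ) * Real.log X ≤ Real.log (2 * H + 1) := by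
        have h7 : (k : ℝ) ≤ Real.log (2 * H + 1) / Real.log X :=
          Nat.floor_le (div_nonneg h210 (by linarith))
        rwa [le_div_iff₀ (by linarith)] at h7
      rw [← Real.log_pow] at h6
      exact (Real.log_le_log_iff (by positivity) (by positivity)).1 h6
    exact_mod_cast h4.trans h5
  -- the primes of `T`
  have hT : ∀ p ∈ T, p.Prime ∧ 2 < p ∧ p₁ ≤ p ∧ (∀ i, ¬ (p : ℤ) ∣ 4 * a i ^ 3 + 27 * b i ^ 2) ∧
      ¬ p ∣ D₁ ∧ M₁ ∣ p + 1 ∧ M ∣ p + 1 := by
    intro p hp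
    obtain ⟨g1, g2, g3, g4, g5, g6⟩ := hS p (hTS hp)
    have g7 : 2 + L ≤ p := hXL2.trans g2
    refine ⟨g1, ?_, ?_, ?_, fun h => g4 (h.mul_right _), (Dvd.intro _ rfl).trans g5,
      (Dvd.intro_left _ rfl).trans g5⟩
    · have : (2 : ℝ) < p := by linarith
      exact_mod_cast this
    · have : (p₁ : ℝ) ≤ p := by linarith
      exact_mod_cast this
    · intro i h
      apply g4
      apply Dvd.dvd.mul_left
      exact (Int.natCast_dvd.1 h).trans (Finset.dvd_prod_of_mem _ (Finset.mem_univ i))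
  have hcore := core hBOX a b (Sum.elim (fun l => lift0 (Idx m d e) (Φ l)) (gen ℤ m d e))
    (Sum.elim d' d) (Sum.elim e' e) (mhomog_family Φ d' e' hΦ d e) N hN
    (fun _ l => Real.exp (C * (l : ℝ) ^ A)) (fun i l hl => by
      have hlp := Nat.prime_of_mem_primeFactors hl
      exact hAC i l hlp (hN2 l hlp (Nat.dvd_of_mem_primeFactors hl)).1)
    T (fun p hp => (hT p hp).1) (fun p _ hp i => by
      have h2p : (2 : ZMod p) ≠ 0 := by
        intro h
        have h3 : ((2 : ℕ) : ZMod p) = 0 := by exact_mod_cast h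
        rw [ZMod.natCast_eq_zero_iff] at h3
        have := Nat.le_of_dvd (by norm_num) h3
        have := (hT p hp).2.1
        omega
      exact Pool.Agent.W659.FD.disc_of h2p (by
        intro h
        exact (hT p hp).2.2.2.1 i ((ZMod.intCast_zmod_eq_zero_iff_dvd _ p).1 h)))
    (fun _ => B₁ * X ^ (-γ)) (fun p _ => by positivity) (fun p _ hp P₀ => by
      obtain ⟨g1, g2, g3, g4, g5, g6, g7⟩ := hT p hp
      obtain ⟨-, k2, k3, -, -, k6⟩ := hS p (hTS hp)
      have hpR : (0 : ℝ) < p := by exact_mod_cast g1.pos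
      have h5 := densP hCOS a b Φ d' e' hΦ d e N hN p g2 g4 (fun i => hss i p g1 g5 g6)
        (B₀ * (p : ℝ) ^ κ) (by positivity) (fun V hV => (hpts p g3 g7 V hV).trans
          (mul_le_mul_of_nonneg_right (le_max_left _ _) (by positivity))) P₀
      refine h5.trans (mul_le_mul_of_nonneg_right ?_ (by positivity))
      have h6 := theta_bound r κ s hκs η B₀ X p (Nat.gcd (p + 1) N : ℝ) hη0.le (by linarith)
        (by linarith) hX1 k2 k3 k6
      refine h6.trans (le_of_eq ?_)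
      rw [hB₁, hγ]
      congr 2
      ring)
    H hTprod
  refine hcore.trans ?_
  -- the bound for the number of the classes
  have hW : (∏ _i : Fin r, ∏ l ∈ N.primeFactors, Real.exp (C * (l : ℝ) ^ A)) ≤
      Real.exp (r * (X ^ η * (C * (X ^ η) ^ A))) := by
    rw [Finset.prod_const, Finset.card_univ, Fintype.card_fin, ← Real.exp_sum, ← Real.exp_nat_mul]
    apply Real.exp_le_exp.2
    apply mul_le_mul_of_nonneg_left _ (Nat.cast_nonneg _)
    calc ∑ l ∈ N.primeFactors, (C : ℝ) * (l : ℝ) ^ A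
        ≤ ∑ _l ∈ N.primeFactors, (C : ℝ) * (X ^ η) ^ A := by
          refine Finset.sum_le_sum fun l hl => ?_
          have hlp := Nat.prime_of_mem_primeFactors hl
          exact mul_le_mul_of_nonneg_left (pow_le_pow_left₀ (Nat.cast_nonneg _)
            (hN2 l hlp (Nat.dvd_of_mem_primeFactors hl)).2 A) (Nat.cast_nonneg _)
      _ = N.primeFactors.card * ((C : ℝ) * (X ^ η) ^ A) := by
          rw [Finset.sum_const, nsmul_eq_mul]
      _ ≤ X ^ η * (C * (X ^ η) ^ A) :=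
          mul_le_mul_of_nonneg_right hc1 (by positivity)
  have hprodT : ∏ _p ∈ T, B₁ * X ^ (-γ) = (B₁ * X ^ (-γ)) ^ k := by
    rw [Finset.prod_const, hTk]
  rw [hprodT]
  refine (mul_le_mul_of_nonneg_right hW (by positivity)).trans ?_
  exact final_ineq n r A C β γ η ε B₁ L X H k hH1 hL hL4 hX hB₁1 (by rw [hγ]; linarith)
    (by
      rw [hγ]
      have : 0 ≤ η * r' := by positivity
      linarith) (by rw [hγ]; linarith) hη0.le hη2 hk h1

end Pool.Agent.N890.US
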