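import Pool.Agent.N890.US.Main
import Pool.Agent.N890.US.Pnt
import Pool.Agent.N890.FD.Hyp

/-! Project US (helper890): the main theorem with rational points. -/

set_option autoImplicit false

namespace Pool.Agent.N890.US

open WeierstrassCurve Pool.Agent.H901R3.MS MvPolynomial
open Pool.Agent.N89.CI Pool.Agent.N890.FD
open Pool.Agent.TH942 (SPt)
open Pool.Agent.TH954 (crd)

open scoped LinearAlgebra.Projectivization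

open scoped Classical in
/-- the main theorem for rational points and Selmer sets -/
theorem mainR (hCNT : S_CNT) (hPRS : S_PRS) (hCOS : S_COS) (hBOX : S_BOX) (r m κ s : ℕ)
    (hs : (r : ℝ) / 2 + κ < s) (a b : Fin r → ℤ)
    (hdisc : ∀ i, 4 * a i ^ 3 + 27 * b i ^ 2 ≠ 0) (M₁ D₁ : ℕ) (hM₁ : 0 < M₁) (hD₁ : 0 < D₁)
    (hss : ∀ i, ∀ p : ℕ, p.Prime → ¬ p ∣ D₁ → M₁ ∣ p + 1 →
      Nat.card {z : ZMod p × ZMod p // z.2 ^ 2 = z.1 ^ 3 + a i * z.1 + b i} = p)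
    {L' : Type} (Φ : L' → Pol0 ℤ r m) (d' : L' → Fin r → ℕ) (e' : L' → ℕ)
    (hΦ : ∀ l, MHomog0 (Φ l) (d' l) (e' l)) (B : ℝ) (M p₁ : ℕ) (hM1 : 0 < M)
    (hpts : ∀ (p : ℕ) [Fact p.Prime], p₁ ≤ p → M ∣ p + 1 →
      ∀ V : Fin r → Fin 3 → ZMod p, (∀ i, Pool.Agent.W659.FD.OnE (a i) (b i) (V i)) →
        (({P : ℙ (ZMod p) (Fin (m + 1) → ZMod p) |
          ∀ l, val0 (Int.castRingHom (ZMod p)) (Φ l) V P.rep = 0}.ncard : ℕ) : ℝ) ≤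
          B * (p : ℝ) ^ κ)
    (d : Fin s → Fin r → ℕ) (e : Fin s → ℕ) (ε δ : ℝ) (hε : 0 < ε) (hδ : 0 < δ) :
    ∃ H₀ : ℕ, ∀ H : ℕ, H₀ ≤ H → ∃ N : ℕ, 1 ≤ N ∧ Squarefree N ∧
      Real.log N ≤ Real.log H ^ δ ∧
      (({c : Idx m d e → ℤ | (∀ x, |c x| ≤ H) ∧
        ((∃ (P : ∀ i, SPt (a i : ℚ) (b i : ℚ)) (T : Fin (m + 1) → ℚ), T ≠ 0 ∧
          ∀ l : L' ⊕ Fin s, valP (Int.castRingHom ℚ)
            (Sum.elim (fun l => lift0 (Idx m d e) (Φ l)) (gen ℤ m d e) l)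
            (fun i => crd (P i)) T (fun x => (c x : ℚ)) = 0) ∨ (SelQ a b
        (Sum.elim (fun l => lift0 (Idx m d e) (Φ l)) (gen ℤ m d e)) N c).Nonempty)}.ncard : ℕ) : ℝ)
        ≤ (H : ℝ) ^ ((Fintype.card (Idx m d e) : ℝ) - ((s : ℝ) - κ - r / 2) + ε) := by
  obtain ⟨H₀, hH₀⟩ := mainU hCNT hPRS hCOS hBOX r m κ s hs a b hdisc M₁ D₁ hM₁ hD₁ hss Φ d' e' hΦ
    B M p₁ hM1 hpts d e ε δ hε hδ
  refine ⟨H₀, fun H hH => ?_⟩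
  obtain ⟨N, hN1, hN, hlog, hcard⟩ := hH₀ H hH
  refine ⟨N, hN1, hN, hlog, le_trans (Nat.cast_le.2 (Set.ncard_le_ncard ?_ ?_)) hcard⟩
  · rintro c ⟨hc, h | h⟩
    · obtain ⟨P, T, hT, h0⟩ := h
      exact ⟨hc, sel_of_point a b hdisc _ N hN1 c P T hT h0⟩
    · exact ⟨hc, h⟩
  · have : {c : Idx m d e → ℤ | ∀ j, c j ∈ Set.Icc (-(H : ℤ)) (H : ℤ)}.Finite :=
      Set.Finite.pi' fun _ => Set.finite_Icc _ _
    apply Set.Finite.subset this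
    rintro c ⟨hc, -⟩ j
    exact ⟨(abs_le.1 (hc j)).1, (abs_le.1 (hc j)).2⟩

end Pool.Agent.N890.US
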