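import Pool.Agent.N890.FD.Dens

/-! Project US (helper890): the union bound for the local densities. -/

set_option autoImplicit false

namespace Pool.Agent.N890.US

open MvPolynomial Pool.Agent.N89.CI

open scoped LinearAlgebra.Projectivization

theorem union_bound {α β : Type} [Finite β] (S : Set α) (hS : S.Finite) (F : α → Set β) (C : ℝ)
    (h : ∀ x ∈ S, ((F x).ncard : ℝ) ≤ C) :
    (({y : β | ∃ x ∈ S, y ∈ F x}.ncard : ℕ) : ℝ) ≤ S.ncard * C := by
  classical
  have := Fintype.ofFinite β
  have h1 : {y : β | ∃ x ∈ S, y ∈ F x} ⊆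
      ((hS.toFinset.biUnion fun x => (F x).toFinset : Finset β) : Set β) := by
    rintro y ⟨x, hx, hy⟩
    simp only [Finset.coe_biUnion, Set.mem_iUnion]
    exact ⟨x, by simpa using hx, by simpa using hy⟩
  have h2 := Set.ncard_le_ncard h1 (Finset.finite_toSet _)
  rw [Set.ncard_coe_finset] at h2
  have h3 := Finset.card_biUnion_le (s := hS.toFinset) (t := fun x => (F x).toFinset)
  have h4 : ((∑ x ∈ hS.toFinset, (F x).toFinset.card : ℕ) : ℝ) ≤ ∑ x ∈ hS.toFinset, C := by
    push_cast
    refine Finset.sum_le_sum fun x hx => ?_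
    rw [← Set.ncard_eq_toFinset_card']
    exact h x (by simpa using hx)
  rw [Finset.sum_const, nsmul_eq_mul, ← Set.ncard_eq_toFinset_card S hS] at h4
  refine le_trans ?_ h4
  exact_mod_cast h2.trans h3

/-- the density of the complete intersections which meet one fibre -/
theorem dens1 {R k : Type} [CommRing R] [Field k] [Fintype k] (φ : R →+* k) {r m s : ℕ}
    {L : Type} (Φ : L → Pol0 R r m) (d' : L → Fin r → ℕ) (e' : L → ℕ)
    (hΦ : ∀ l, MHomog0 (Φ l) (d' l) (e' l)) (d : Fin s → Fin r → ℕ) (e : Fin s → ℕ)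
    (C : ℝ) (V : Fin r → Fin 3 → k) (hV : ∀ i, V i ≠ 0)
    (hcard : (({P : ℙ k (Fin (m + 1) → k) | ∀ l, val0 φ (Φ l) V P.rep = 0}.ncard : ℕ) : ℝ) ≤ C) :
    (({t : Idx m d e → k | ∃ T : Fin (m + 1) → k, T ≠ 0 ∧ ∀ l : L ⊕ Fin s,
      valP φ (Sum.elim (fun l => lift0 (Idx m d e) (Φ l)) (gen R m d e) l) V T t = 0}.ncard : ℕ) : ℝ)
      ≤ C * ((Fintype.card k : ℝ) ^ Fintype.card (Idx m d e) / (Fintype.card k : ℝ) ^ s) := by
  classical
  have : Finite (ℙ k (Fin (m + 1) → k)) := by
    unfold Projectivization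
    infer_instance
  have hq : (0 : ℝ) < Fintype.card k := by exact_mod_cast Fintype.card_pos
  have hvan : ∀ P : ℙ k (Fin (m + 1) → k),
      (({c : Idx m d e → k | ∀ j, form c j V P.rep = 0}.ncard : ℕ) : ℝ) =
        (Fintype.card k : ℝ) ^ Fintype.card (Idx m d e) / (Fintype.card k : ℝ) ^ s := by
    intro P
    have h4 := card_vanish d e V hV (n := 1) (fun _ => P.rep) (fun _ => P.rep_nonzero) (by
      intro i i' hii'
      exact absurd (Subsingleton.elim i i') hii') (fun j => by omega)
    have h5 : Nat.card {c : Idx m d e → k // ∀ (_ : Fin 1) j, form c j V P.rep = 0} =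
        {c : Idx m d e → k | ∀ j, form c j V P.rep = 0}.ncard := by
      rw [← Nat.card_coe_set_eq]
      apply Nat.card_congr
      refine Equiv.subtypeEquivRight fun c => ?_
      exact ⟨fun h j => h 0 j, fun h _ j => h j⟩
    rw [h5, one_mul, Nat.card_fun, Nat.card_eq_fintype_card, Nat.card_eq_fintype_card] at h4
    rw [eq_div_iff (by positivity)]
    exact_mod_cast h4
  have h1 := union_bound {P : ℙ k (Fin (m + 1) → k) | ∀ l, val0 φ (Φ l) V P.rep = 0}
    (Set.toFinite _) (fun P => {c : Idx m d e → k | ∀ j, form c j V P.rep = 0}) _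
    (fun P _ => (hvan P).le)
  refine le_trans (Nat.cast_le.2 (Set.ncard_le_ncard ?_ (Set.toFinite _))) (h1.trans ?_)
  · rintro t ⟨T, hT, h0⟩
    obtain ⟨u, hu⟩ := Projectivization.exists_smul_eq_mk_rep k T hT
    have hu' : (u : k) • T = (Projectivization.mk k T hT).rep := hu
    refine ⟨Projectivization.mk k T hT, fun l => ?_, fun j => ?_⟩
    · have h2 := h0 (Sum.inl l)
      simp only [Sum.elim_inl] at h2
      rw [valP_lift0] at h2
      rw [← hu', val0_smul φ (Φ l) (d' l) (e' l) (hΦ l), h2, mul_zero]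
    · have h2 := h0 (Sum.inr j)
      simp only [Sum.elim_inr] at h2
      rw [valP_gen] at h2
      rw [← hu', form_smul, h2, mul_zero]
  · exact mul_le_mul_of_nonneg_right hcard (by positivity)

end Pool.Agent.N890.US
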