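import Pool.Agent.N890.US.Loc
import Pool.Agent.N890.US.Dens

/-! Project US (helper890): the sieve for the Selmer classes of squarefree level. -/

set_option autoImplicit false

namespace Pool.Agent.N890.US

open NumberField WeierstrassCurve Pool.Agent.TH942 Pool.Agent.TH954 Pool.Agent.H901R3.MS
open Pool.Agent.N89.CI Pool.Agent.N890.FD

theorem card_fiber {α β : Type} [Finite β] (S : Set α) (f : S → β) (M : ℝ)
    (h : ∀ w : β, ∃ B : Set α, B.Finite ∧ ((B.ncard : ℕ) : ℝ) ≤ M ∧ ∀ x : S, f x = w → (x : α) ∈ B) :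
    ((S.ncard : ℕ) : ℝ) ≤ Nat.card β * M := by
  classical
  have := Fintype.ofFinite β
  choose B hB1 hB2 hB3 using h
  have h1 : S ⊆ (((Finset.univ : Finset β).biUnion fun w => (hB1 w).toFinset : Finset α) : Set α) := by
    intro x hx
    simp only [Finset.coe_biUnion, Set.mem_iUnion]
    exact ⟨f ⟨x, hx⟩, by simp, by simpa using hB3 _ ⟨x, hx⟩ rfl⟩
  have h2 := Set.ncard_le_ncard h1 (Finset.finite_toSet _)
  rw [Set.ncard_coe_finset] at h2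
  have h3 := Finset.card_biUnion_le (s := (Finset.univ : Finset β)) (t := fun w => (hB1 w).toFinset)
  have h4 : ((∑ w : β, (hB1 w).toFinset.card : ℕ) : ℝ) ≤ ∑ w : β, M := by
    push_cast
    refine Finset.sum_le_sum fun w _ => ?_
    rw [← Set.ncard_eq_toFinset_card _ (hB1 w)]
    exact hB2 w
  rw [Finset.sum_const, nsmul_eq_mul, Finset.card_univ, ← Nat.card_eq_fintype_card] at h4
  refine le_trans ?_ h4
  exact_mod_cast h2.trans h3

open scoped Classical in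
/-- the `N`-Selmer set over `ℚ` of the member `t` of the family -/
def SelQ {r m : ℕ} {ι L' : Type} (a b : Fin r → ℤ) (G' : L' → Pol ℤ r m ι) (N : ℕ) (t : ι → ℤ) :
    Set (∀ i : Fin r, (AlgebraicClosure ℚ ≃ₐ[ℚ] AlgebraicClosure ℚ) → AlgPt (EQ (a i) (b i)) ℚ) :=
  {ξ | (∀ i, IsCocycle (EQ (a i) (b i)) (ξ i)) ∧ (∀ i σ, N • ξ i σ = 0) ∧
    ∀ (p : ℕ) [Fact p.Prime],
      ∃ (ι₀ : AlgebraicClosure ℚ →ₐ[ℚ] AlgebraicClosure ℚ_[p])
        (P : ∀ i, ((EQ (a i) (b i)).baseChange ℚ_[p]).toAffine.Point)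
        (Q : ∀ i, AlgPt (EQ (a i) (b i)) ℚ_[p]),
        PtOver (Int.castRingHom ℚ) (a := a) (b := b) G' (fun s => (t s : ℚ)) ℚ_[p] P ∧
        (∀ i, N • Q i = incl (EQ (a i) (b i)) ℚ_[p] (P i)) ∧
        ∀ i σ τ, Compat ι₀ σ τ → pm (EQ (a i) (b i)) ι₀ (ξ i τ) =
          act (EQ (a i) (b i)) σ (Q i) - Q i}

open scoped Classical in
theorem core (hBOX : S_BOX) {r m : ℕ} {ι : Type} [Fintype ι] (a b : Fin r → ℤ) {L' : Type}
    (G' : L' → Pol ℤ r m ι) (d : L' → Fin r → ℕ) (e : L' → ℕ) (hG' : ∀ l, MHomog (G' l) (d l) (e l))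
    (N : ℕ) (hN : Squarefree N) (Wb : Fin r → ℕ → ℝ)
    (hW : ∀ i, ∀ l ∈ N.primeFactors, (Zset (a i) (b i) l).Finite ∧
      ((Zset (a i) (b i) l).ncard : ℝ) ≤ Wb i l)
    (T : Finset ℕ) (hT : ∀ p ∈ T, p.Prime)
    (hd : ∀ (p : ℕ) [Fact p.Prime], p ∈ T → ∀ i, Disc (a i : ZMod p) (b i : ZMod p))
    (θ : ℕ → ℝ) (hθ : ∀ p ∈ T, 0 ≤ θ p)
    (hloc : ∀ (p : ℕ) [Fact p.Prime], p ∈ T → ∀ P₀ : ∀ i, Pt (a i : ZMod p) (b i : ZMod p),
      (({t : ι → ZMod p | ∃ (R : ∀ i, Pt (a i : ZMod p) (b i : ZMod p))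
        (T : Fin (m + 1) → ZMod p), T ≠ 0 ∧ ∀ l, valP (Int.castRingHom (ZMod p)) (G' l)
          (fun i => rep (P₀ i + N • R i)) T t = 0}.ncard : ℕ) : ℝ) ≤
        θ p * (p : ℝ) ^ Fintype.card ι)
    (H : ℕ) (hH : ∏ p ∈ T, p ≤ 2 * H + 1) :
    (({t : ι → ℤ | (∀ j, |t j| ≤ H) ∧ (SelQ a b G' N t).Nonempty}.ncard : ℕ) : ℝ) ≤
      (∏ i, ∏ l ∈ N.primeFactors, Wb i l) *
        ((2 * (2 * (H : ℝ) + 1)) ^ Fintype.card ι * ∏ p ∈ T, θ p) := by
  set S : Set (ι → ℤ) := {t : ι → ℤ | (∀ j, |t j| ≤ H) ∧ (SelQ a b G' N t).Nonempty} with hS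
  have hξ0 : ∀ t : S, ∃ ξ, ξ ∈ SelQ a b G' N t.1 := fun t => t.2.2
  choose ξ hξ using hξ0
  have hl : ∀ l ∈ N.primeFactors, N = N / l * l := fun l hl =>
    (Nat.div_mul_cancel (Nat.dvd_of_mem_primeFactors hl)).symm
  have hloc1 : ∀ (t : S) (p : ℕ) [Fact p.Prime],
      ∃ P : ∀ i, ((EQ (a i) (b i)).baseChange ℚ_[p]).toAffine.Point,
        PtOver (Int.castRingHom ℚ) (a := a) (b := b) G' (fun s => (t.1 s : ℚ)) ℚ_[p] P ∧
        ∀ i, LocAt (a i) (b i) N (ξ t i) p (P i) := by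
    intro t p _
    obtain ⟨ι₀, P, Q, h1, h2, h3⟩ := (hξ t).2.2 p
    exact ⟨P, h1, fun i => ⟨ι₀, Q i, h2 i, h3 i⟩⟩
  have hmem : ∀ (t : S) (i : Fin r) (l : ↥N.primeFactors),
      (fun σ => (N / l.1) • ξ t i σ) ∈ Zset (a i) (b i) l.1 := by
    intro t i l
    refine mem_Zset (hl l.1 l.2) ((hξ t).1 i) ((hξ t).2.1 i) (fun q _ => ?_)
    obtain ⟨P, -, h⟩ := hloc1 t q
    exact ⟨P i, h i⟩
  let β : Type := ∀ (i : Fin r) (l : ↥N.primeFactors), ↥(Zset (a i) (b i) l.1)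
  have hfin : ∀ (i : Fin r) (l : ↥N.primeFactors), Finite ↥(Zset (a i) (b i) l.1) :=
    fun i l => (hW i l.1 l.2).1.to_subtype
  have hβ : Finite β := inferInstance
  let f : S → β := fun t i l => ⟨_, hmem t i l⟩
  have hcardβ : (Nat.card β : ℝ) ≤ ∏ i, ∏ l ∈ N.primeFactors, Wb i l := by
    have h1 : Nat.card β = ∏ i : Fin r, ∏ l : ↥N.primeFactors,
        Nat.card ↥(Zset (a i) (b i) l.1) := by
      simp only [β]
      rw [Nat.card_pi]
      exact Finset.prod_congr rfl fun i _ => Nat.card_pi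
    rw [h1]
    push_cast
    refine Finset.prod_le_prod (fun i _ => Finset.prod_nonneg fun l _ => Nat.cast_nonneg _)
      fun i _ => ?_
    rw [← Finset.prod_coe_sort N.primeFactors (fun l => Wb i l)]
    refine Finset.prod_le_prod (fun l _ => Nat.cast_nonneg _) fun l _ => ?_
    rw [Nat.card_coe_set_eq]
    exact (hW i l.1 l.2).2
  have hM0 : 0 ≤ (2 * (2 * (H : ℝ) + 1)) ^ Fintype.card ι * ∏ p ∈ T, θ p :=
    mul_nonneg (by positivity) (Finset.prod_nonneg hθ)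
  refine (card_fiber S f ((2 * (2 * (H : ℝ) + 1)) ^ Fintype.card ι * ∏ p ∈ T, θ p) ?_).trans
    (mul_le_mul_of_nonneg_right hcardβ hM0)
  intro w
  by_cases hw : ∃ t₀ : S, f t₀ = w
  swap
  · refine ⟨∅, Set.finite_empty, by simpa using hM0, fun t ht => absurd ⟨t, ht⟩ hw⟩
  obtain ⟨t₀, ht₀⟩ := hw
  -- the local conditions of the class `w`
  have key : ∀ p ∈ T, ∃ Ω : Set (ι → ZMod p),
      ((Ω.ncard : ℕ) : ℝ) ≤ θ p * (p : ℝ) ^ Fintype.card ι ∧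
      ∀ t : S, f t = w → (fun j => (t.1 j : ZMod p)) ∈ Ω := by
    intro p hpT
    have : Fact p.Prime := ⟨hT p hpT⟩
    obtain ⟨red, hred⟩ := exists_redP a b G' d e hG' p (hd p hpT)
    obtain ⟨P, -, hP2⟩ := hloc1 t₀ p
    refine ⟨_, hloc p hpT (fun i => red i (P i)), fun t ht => ?_⟩
    obtain ⟨P', hP'1, hP'2⟩ := hloc1 t p
    obtain ⟨T', hT', h0⟩ := hred P' t.1 hP'1
    have hdiff : ∀ i, ∃ R : Pt (a i : ZMod p) (b i : ZMod p),
        red i (P' i) - red i (P i) = N • R := by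
      intro i
      refine exists_smul_of_sqf _ N hN fun l hlN => ?_
      have e1 : (fun σ => (N / l) • ξ t i σ) = fun σ => (N / l) • ξ t₀ i σ := by
        have h1 := congrFun (congrFun (ht.trans ht₀.symm) i) ⟨l, hlN⟩
        exact congrArg Subtype.val h1
      have h1 : LocAt (a i) (b i) l (fun σ => (N / l) • ξ t i σ) p (P' i) :=
        locG_nsmul (hl l hlN) (hP'2 i)
      have h2 : LocAt (a i) (b i) l (fun σ => (N / l) • ξ t i σ) p (P i) := by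
        rw [e1]
        exact locG_nsmul (hl l hlN) (hP2 i)
      have h3 := hmem t i ⟨l, hlN⟩
      obtain ⟨Z, hZ⟩ := locAt_unique h3.1 h3.2.1 h1 h2
      refine ⟨red i Z, ?_⟩
      rw [← map_sub, hZ, map_nsmul]
    choose R hR using hdiff
    refine ⟨R, T', hT', fun l => ?_⟩
    have h2 : (fun i => rep (red i (P i) + N • R i)) = fun i => rep (red i (P' i)) := by
      funext i
      rw [← hR i]
      congr 1
      abel
    rw [h2]
    exact h0 l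
  choose Ω hΩ1 hΩ2 using key
  refine ⟨{c : ι → ℤ | (∀ j, |c j| ≤ H) ∧ ∀ p ∈ T, (fun j => (c j : ZMod p)) ∈
    {x | ∃ h : p ∈ T, x ∈ Ω p h}}, ?_, ?_, ?_⟩
  · have : {c : ι → ℤ | ∀ j, c j ∈ Set.Icc (-(H : ℤ)) (H : ℤ)}.Finite :=
      Set.Finite.pi' fun _ => Set.finite_Icc _ _
    apply Set.Finite.subset this
    rintro c ⟨hc, -⟩ j
    exact ⟨(abs_le.1 (hc j)).1, (abs_le.1 (hc j)).2⟩
  · refine hBOX ι T hT (fun p => {x | ∃ h : p ∈ T, x ∈ Ω p h}) θ hθ (fun p hp => ?_) H hH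
    have : {x | ∃ h : p ∈ T, x ∈ Ω p h} = Ω p hp := by
      ext x
      exact ⟨fun ⟨_, h⟩ => h, fun h => ⟨hp, h⟩⟩
    rw [this]
    exact hΩ1 p hp
  · intro t ht
    exact ⟨t.2.1, fun p hp => ⟨hp, hΩ2 p hp t ht⟩⟩

end Pool.Agent.N890.US
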