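import Pool.Agent.N890.US.Core
import Pool.Agent.H477R5.DC_EXP

/-! Project US (helper890): the local densities for one class. -/

set_option autoImplicit false

namespace Pool.Agent.N890.US

open WeierstrassCurve Pool.Agent.H901R3.MS MvPolynomial
open Pool.Agent.N89.CI Pool.Agent.N890.FD

open scoped LinearAlgebra.Projectivization

open scoped Classical in
theorem card_pt (p : ℕ) [Fact p.Prime] (a b : ℤ) (hp : 2 < p)
    (hd : ¬ (p : ℤ) ∣ 4 * a ^ 3 + 27 * b ^ 2)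
    (hcard : Nat.card {z : ZMod p × ZMod p // z.2 ^ 2 = z.1 ^ 3 + a * z.1 + b} = p) :
    Finite (Pt (a : ZMod p) (b : ZMod p)) ∧ Nat.card (Pt (a : ZMod p) (b : ZMod p)) = p + 1 := by
  have hfin : Finite (WithZero {xy : ZMod p × ZMod p //
      (CV (a : ZMod p) (b : ZMod p)).toAffine.Nonsingular xy.1 xy.2}) :=
    inferInstanceAs (Finite (Option {xy : ZMod p × ZMod p //
      (CV (a : ZMod p) (b : ZMod p)).toAffine.Nonsingular xy.1 xy.2}))
  refine ⟨Finite.of_equiv _ (WeierstrassCurve.Affine.nonsingularPointEquiv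
      (CV (a : ZMod p) (b : ZMod p)).toAffine).symm, ?_⟩
  rw [Nat.card_congr (WeierstrassCurve.Affine.nonsingularPointEquiv
      (CV (a : ZMod p) (b : ZMod p)).toAffine)]
  have h2 : Nat.card (WithZero {xy : ZMod p × ZMod p //
      (CV (a : ZMod p) (b : ZMod p)).toAffine.Nonsingular xy.1 xy.2}) =
      Nat.card {xy : ZMod p × ZMod p //
      (CV (a : ZMod p) (b : ZMod p)).toAffine.Nonsingular xy.1 xy.2} + 1 :=
    Finite.card_option
  rw [h2]
  congr 1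
  refine Eq.trans ?_ hcard
  apply Nat.card_congr
  exact Equiv.subtypeEquivRight (fun z => Pool.Agent.H477R5.DC.ns_iff p a b hp hd z.1 z.2)

theorem card_range_le (hCOS : S_COS) (G : Type) [AddCommGroup G] [Finite G] (N : ℕ)
    (hN : Squarefree N) :
    Nat.card (Set.range fun R : G => N • R) * Nat.gcd (Nat.card G) N ≤ Nat.card G := by
  have h1 := hCOS G (Nat.gcd (Nat.card G) N) (hN.squarefree_of_dvd (Nat.gcd_dvd_right _ _))
    (Nat.gcd_dvd_left _ _)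
  refine le_trans (Nat.mul_le_mul_right _ ?_) h1
  rw [Nat.card_coe_set_eq, Nat.card_coe_set_eq]
  refine Set.ncard_le_ncard ?_ (Set.toFinite _)
  rintro _ ⟨R, rfl⟩
  obtain ⟨k, hk⟩ := Nat.gcd_dvd_right (Nat.card G) N
  refine ⟨k • R, ?_⟩
  simp only
  rw [← mul_smul, ← hk]

open scoped Classical in
/-- the local density for one class -/
theorem densP (hCOS : S_COS) {r m s : ℕ} {L : Type} (a b : Fin r → ℤ) (Φ : L → Pol0 ℤ r m)
    (d' : L → Fin r → ℕ) (e' : L → ℕ) (hΦ : ∀ l, MHomog0 (Φ l) (d' l) (e' l))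
    (d : Fin s → Fin r → ℕ) (e : Fin s → ℕ) (N : ℕ) (hN : Squarefree N) (p : ℕ) [Fact p.Prime]
    (hp : 2 < p) (hd : ∀ i, ¬ (p : ℤ) ∣ 4 * a i ^ 3 + 27 * b i ^ 2)
    (hss : ∀ i, Nat.card {z : ZMod p × ZMod p // z.2 ^ 2 = z.1 ^ 3 + a i * z.1 + b i} = p)
    (C : ℝ) (hC : 0 ≤ C)
    (hpts : ∀ V : Fin r → Fin 3 → ZMod p, (∀ i, Pool.Agent.W659.FD.OnE (a i) (b i) (V i)) →
        (({P : ℙ (ZMod p) (Fin (m + 1) → ZMod p) |
          ∀ l, val0 (Int.castRingHom (ZMod p)) (Φ l) V P.rep = 0}.ncard : ℕ) : ℝ) ≤ C)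
    (P₀ : ∀ i, Pt (a i : ZMod p) (b i : ZMod p)) :
    (({t : Idx m d e → ZMod p | ∃ (R : ∀ i, Pt (a i : ZMod p) (b i : ZMod p))
        (T : Fin (m + 1) → ZMod p), T ≠ 0 ∧ ∀ l : L ⊕ Fin s, valP (Int.castRingHom (ZMod p))
          (Sum.elim (fun l => lift0 (Idx m d e) (Φ l)) (gen ℤ m d e) l)
          (fun i => rep (P₀ i + N • R i)) T t = 0}.ncard : ℕ) : ℝ) ≤
      ((((p : ℝ) + 1) / (Nat.gcd (p + 1) N : ℝ)) ^ r * (C / (p : ℝ) ^ s)) *
        (p : ℝ) ^ Fintype.card (Idx m d e) := by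
  have hpt := fun i => card_pt p (a i) (b i) hp (hd i) (hss i)
  have hfinPt : ∀ i, Finite (Pt (a i : ZMod p) (b i : ZMod p)) := fun i => (hpt i).1
  have hN0 : 0 < N := Nat.pos_of_ne_zero hN.ne_zero
  have hg0 : 0 < Nat.gcd (p + 1) N := Nat.gcd_pos_of_pos_left _ (Nat.succ_pos p)
  have hgR : (0 : ℝ) < (Nat.gcd (p + 1) N : ℝ) := by exact_mod_cast hg0
  have hp0 : (0 : ℝ) < p := by
    have : 0 < p := by omega
    exact_mod_cast this
  -- the set of the representatives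
  set S : Set (Fin r → Fin 3 → ZMod p) :=
    Set.range fun R : (∀ i, ↥(Set.range fun R : Pt (a i : ZMod p) (b i : ZMod p) => N • R)) =>
      fun i => rep (P₀ i + (R i).1) with hSdef
  have hS : S.Finite := Set.toFinite _
  have hScard : ((S.ncard : ℕ) : ℝ) ≤ (((p : ℝ) + 1) / (Nat.gcd (p + 1) N : ℝ)) ^ r := by
    have h1 : S.ncard ≤ Nat.card (∀ i,
        ↥(Set.range fun R : Pt (a i : ZMod p) (b i : ZMod p) => N • R)) := by
      rw [← Nat.card_coe_set_eq]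
      exact Finite.card_range_le _
    rw [Nat.card_pi] at h1
    have h2 : ∀ i, (Nat.card ↥(Set.range fun R : Pt (a i : ZMod p) (b i : ZMod p) => N • R) : ℝ) ≤
        ((p : ℝ) + 1) / (Nat.gcd (p + 1) N : ℝ) := by
      intro i
      rw [le_div_iff₀ hgR]
      have h3 := card_range_le hCOS (Pt (a i : ZMod p) (b i : ZMod p)) N hN
      rw [(hpt i).2] at h3
      exact_mod_cast h3
    calc ((S.ncard : ℕ) : ℝ) ≤ ((∏ i,
          Nat.card ↥(Set.range fun R : Pt (a i : ZMod p) (b i : ZMod p) => N • R) : ℕ) : ℝ) := by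
          exact_mod_cast h1
      _ = ∏ i, (Nat.card ↥(Set.range fun R : Pt (a i : ZMod p) (b i : ZMod p) => N • R) : ℝ) := by
          push_cast
          rfl
      _ ≤ ∏ _i : Fin r, ((p : ℝ) + 1) / (Nat.gcd (p + 1) N : ℝ) :=
          Finset.prod_le_prod (fun i _ => Nat.cast_nonneg _) fun i _ => h2 i
      _ = (((p : ℝ) + 1) / (Nat.gcd (p + 1) N : ℝ)) ^ r := by
          rw [Finset.prod_const, Finset.card_univ, Fintype.card_fin]
  have h1 := union_bound S hS (fun V => {t : Idx m d e → ZMod p | ∃ T : Fin (m + 1) → ZMod p,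
    T ≠ 0 ∧ ∀ l : L ⊕ Fin s, valP (Int.castRingHom (ZMod p))
      (Sum.elim (fun l => lift0 (Idx m d e) (Φ l)) (gen ℤ m d e) l) V T t = 0})
    (C * ((Fintype.card (ZMod p) : ℝ) ^ Fintype.card (Idx m d e) /
      (Fintype.card (ZMod p) : ℝ) ^ s)) (by
      rintro _ ⟨R, rfl⟩
      have hV : ∀ i, Pool.Agent.W659.FD.OnE (a i) (b i) (rep (P₀ i + (R i).1)) :=
        fun i => Pool.Agent.W659.FD.onE_rep _
      exact dens1 (Int.castRingHom (ZMod p)) Φ d' e' hΦ d e C _ (fun i => (hV i).1) (hpts _ hV))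
  rw [ZMod.card] at h1
  refine le_trans (Nat.cast_le.2 (Set.ncard_le_ncard ?_ (Set.toFinite _))) (h1.trans ?_)
  · rintro t ⟨R, T, hT, h0⟩
    exact ⟨_, ⟨fun i => ⟨N • R i, ⟨R i, rfl⟩⟩, rfl⟩, T, hT, h0⟩
  · calc ((S.ncard : ℕ) : ℝ) * (C * ((p : ℝ) ^ Fintype.card (Idx m d e) / (p : ℝ) ^ s))
        ≤ (((p : ℝ) + 1) / (Nat.gcd (p + 1) N : ℝ)) ^ r *
          (C * ((p : ℝ) ^ Fintype.card (Idx m d e) / (p : ℝ) ^ s)) :=
          mul_le_mul_of_nonneg_right hScard (by positivity)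
      _ = _ := by ring

end Pool.Agent.N890.US
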