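import Pool.Agent.N890.US.Stm
import Pool.Agent.TH954.STor
import Pool.Agent.TH954.DescentMain

/-! Project US (helper890): injectivity of the local Kummer maps, the Kummer cocycle of a rational
point, the components of a cocycle of squarefree level. -/

set_option autoImplicit false

namespace Pool.Agent.N890.US

open NumberField WeierstrassCurve Pool.Agent.TH942 Pool.Agent.TH954

section conj

variable {K : Type} [Field K] {L : Type} [Field L] [Algebra K L]

/-- two embeddings of the algebraic closure differ by an automorphism -/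
lemma exists_conj_emb (ι ι' : AlgebraicClosure K →ₐ[K] AlgebraicClosure L) :
    ∃ g : AlgebraicClosure K ≃ₐ[K] AlgebraicClosure K, ∀ x, ι (g x) = ι' x := by
  let : Algebra (AlgebraicClosure K) (AlgebraicClosure L) := ι.toRingHom.toAlgebra
  have : IsScalarTower K (AlgebraicClosure K) (AlgebraicClosure L) :=
    IsScalarTower.of_algebraMap_eq' ι.comp_algebraMap.symm
  have h := fun x => AlgHom.restrictNormal_commutes (F := K) (K₁ := AlgebraicClosure K)
    (K₂ := AlgebraicClosure L) ι' (AlgebraicClosure K) x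
  refine ⟨AlgEquiv.ofBijective (ι'.restrictNormal (AlgebraicClosure K))
    (AlgHom.normal_bijective K (AlgebraicClosure K) (AlgebraicClosure K) _), fun x => ?_⟩
  exact h x

end conj

section kum

variable {K : Type} [Field K] {E : WeierstrassCurve K} {L : Type} [Field L] [CharZero L]
  [Algebra K L]

open scoped Classical in
/-- over `L` the class of `ξ` is the class of `P` -/
def LocG (E : WeierstrassCurve K) (N : ℕ)
    (ξ : (AlgebraicClosure K ≃ₐ[K] AlgebraicClosure K) → AlgPt E K) (L : Type) [Field L]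
    [Algebra K L] (P : (E.baseChange L).toAffine.Point) : Prop :=
  ∃ (ι : AlgebraicClosure K →ₐ[K] AlgebraicClosure L) (Q : AlgPt E L),
    N • Q = incl E L P ∧ ∀ σ τ, Compat ι σ τ → pm E ι (ξ τ) = act E σ Q - Q

open scoped Classical in
/-- the local Kummer map is injective -/
theorem kum {N : ℕ} (ξ : (AlgebraicClosure K ≃ₐ[K] AlgebraicClosure K) → AlgPt E K)
    (hξ : IsCocycle E ξ) (hN : ∀ σ, N • ξ σ = 0)
    (P P' : (E.baseChange L).toAffine.Point) (hP : LocG E N ξ L P) (hP' : LocG E N ξ L P') :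
    ∃ Z, P - P' = N • Z := by
  obtain ⟨ι, Q, hQ, h⟩ := hP
  obtain ⟨ι', Q', hQ', h'⟩ := hP'
  obtain ⟨g, hg⟩ := exists_conj_emb ι ι'
  have hfix : ∀ σ, act E σ (Q + pm E ι (ξ g) - Q') = Q + pm E ι (ξ g) - Q' := by
    intro σ
    obtain ⟨τ', hτ'⟩ := exists_compat ι' σ
    have hc : Compat ι σ (g * τ' * g⁻¹) := by
      intro z
      have h1 : (g * τ' * g⁻¹) z = g (τ' (g⁻¹ z)) := rfl
      rw [h1, hg, hτ', ← hg]
      congr 2
      exact g.apply_symm_apply z
    have e1 : ξ (g * τ') = ξ (g * τ' * g⁻¹) + act E (g * τ' * g⁻¹) (ξ g) := by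
      rw [← hξ.1]
      congr 1
      group
    have e2 := hξ.1 g τ'
    rw [e1] at e2
    have e3 : pm E ι (act E g (ξ τ')) = pm E ι' (ξ τ') := by
      unfold act
      rw [pm_pm]
      congr 2
      apply AlgHom.ext
      intro x
      exact hg x
    have e4 := congrArg (pm E ι) e2
    rw [map_add, map_add, ← act_pm ι hc, e3, h σ _ hc, h' σ τ' hτ'] at e4
    rw [act_sub, act_add]
    generalize act E σ (pm E ι (ξ g)) = A at *
    generalize act E σ Q = B at *
    generalize act E σ Q' = C at *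
    have e6 : C = B - Q + A - pm E ι (ξ g) + Q' := by
      have : B - Q + A = pm E ι (ξ g) + (C - Q') := e4
      rw [this]
      abel
    rw [e6]
    abel
  obtain ⟨Z, hZ⟩ := exists_of_fixed (L := L) _ hfix
  refine ⟨Z, incl_injective (E := E) (L := L) ?_⟩
  rw [incl_sub, incl_nsmul, hZ, ns_sub, ns_add, hQ, hQ', ← map_nsmul, hN, map_zero, add_zero]

open scoped Classical in
/-- multiples of cocycles -/
theorem isCocycle_nsmul {ξ : (AlgebraicClosure K ≃ₐ[K] AlgebraicClosure K) → AlgPt E K}
    (hξ : IsCocycle E ξ) (k : ℕ) : IsCocycle E (fun σ => k • ξ σ) := by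
  refine ⟨fun σ τ => ?_, ?_⟩
  · change k • ξ (σ * τ) = k • ξ σ + act E σ (k • ξ τ)
    rw [hξ.1 σ τ, ns_add, act_nsmul]
  · obtain ⟨F', hF, h⟩ := hξ.2
    exact ⟨F', hF, fun σ τ hστ => by
      change k • ξ σ = k • ξ τ
      rw [h σ τ hστ]⟩

open scoped Classical in
omit [CharZero L] in
theorem locG_nsmul {N k l : ℕ} (hN : N = k * l)
    {ξ : (AlgebraicClosure K ≃ₐ[K] AlgebraicClosure K) → AlgPt E K}
    {P : (E.baseChange L).toAffine.Point} (h : LocG E N ξ L P) :
    LocG E l (fun σ => k • ξ σ) L P := by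
  obtain ⟨ι, Q, h1, h2⟩ := h
  refine ⟨ι, k • Q, ?_, fun σ τ hστ => ?_⟩
  · rw [← h1, hN, mul_comm, ns_mul]
  · change pm E ι (k • ξ τ) = _
    rw [map_nsmul, h2 σ τ hστ, act_nsmul, ns_sub]

open scoped Classical in
/-- the Kummer cocycle of a rational point -/
theorem kummer_cocycle [CharZero K] [IsAlgClosed (AlgebraicClosure K)] (Q : AlgPt E K) :
    IsCocycle E (fun σ => act E σ Q - Q) := by
  refine ⟨fun σ τ => ?_, ?_⟩
  · change act E (σ * τ) Q - Q = (act E σ Q - Q) + act E σ (act E τ Q - Q)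
    have h1 : act E (σ * τ) Q = act E σ (act E τ Q) := by
      unfold act
      rw [pm_pm]
      rfl
    rw [act_sub, h1]
    abel
  · match Q with
    | .zero =>
      refine ⟨⊥, inferInstance, fun σ τ _ => rfl⟩
    | .some x y h =>
      refine ⟨IntermediateField.adjoin K {x, y}, ?_, fun σ τ hστ => ?_⟩
      · apply IntermediateField.finiteDimensional_adjoin
        intro z _
        exact (Algebra.IsAlgebraic.isAlgebraic z).isIntegral
      · have hx : σ x = τ x := hστ x (IntermediateField.subset_adjoin K _ (by simp))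
        have hy : σ y = τ y := hστ y (IntermediateField.subset_adjoin K _ (by simp))
        have h1 : act E σ (.some x y h) = act E τ (.some x y h) := by
          obtain ⟨h1, e1⟩ := pm_some (E := E)
            ((σ : AlgebraicClosure K →ₐ[K] AlgebraicClosure K).restrictScalars K) h
          obtain ⟨h2, e2⟩ := pm_some (E := E)
            ((τ : AlgebraicClosure K →ₐ[K] AlgebraicClosure K).restrictScalars K) h
          unfold act
          rw [e1, e2]
          congr 1
        change act E σ (.some x y h) - _ = act E τ (.some x y h) - _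
        rw [h1]

open scoped Classical in
omit [CharZero L] in
/-- a rational point satisfies all the local conditions -/
theorem kummer_loc (ι : AlgebraicClosure K →ₐ[K] AlgebraicClosure L) (N : ℕ)
    (P : E.toAffine.Point) (Q : AlgPt E K) (hQ : N • Q = incl E K P) :
    (∀ σ, N • (act E σ Q - Q) = 0) ∧
    LocG E N (fun σ => act E σ Q - Q) L (locHom (L := L) E P) := by
  refine ⟨fun σ => ?_, ι, pm E ι Q, ?_, fun σ τ hστ => ?_⟩
  · rw [ns_sub, ← act_nsmul, hQ, act_incl, sub_self]
  · rw [← map_nsmul, hQ, incl_loc]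
  · change pm E ι (act E τ Q - Q) = _
    rw [map_sub, act_pm ι hστ]

open scoped Classical in
/-- the Kummer class of a rational point -/
theorem exists_kummer [CharZero K] {a b : K} (hD : 4 * a ^ 3 + 27 * b ^ 2 ≠ 0) {N : ℕ}
    (hN : 1 ≤ N) (P : (sw a b).toAffine.Point) :
    ∃ Q : AlgPt (sw a b) K, N • Q = incl (sw a b) K P := by
  have : CharZero (AlgebraicClosure K) :=
    charZero_of_injective_algebraMap (algebraMap K (AlgebraicClosure K)).injective
  exact exists_nsmul_base hD (AlgebraicClosure K) hN (incl (sw a b) K P)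

end kum

open scoped Classical in
/-- the class of the point is determined by the cocycle -/
theorem locAt_unique {a b : ℤ} {l : ℕ}
    {ξ : (AlgebraicClosure ℚ ≃ₐ[ℚ] AlgebraicClosure ℚ) → AlgPt (EQ a b) ℚ}
    (hξ : IsCocycle (EQ a b) ξ) (hl : ∀ σ, l • ξ σ = 0) {q : ℕ} [Fact q.Prime]
    {P P' : ((EQ a b).baseChange ℚ_[q]).toAffine.Point} (h : LocAt a b l ξ q P)
    (h' : LocAt a b l ξ q P') : ∃ Z, P - P' = l • Z :=
  kum ξ hξ hl P P' h h'

open scoped Classical in
/-- the component of a class of level `N` is in `Zset` -/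
theorem mem_Zset {a b : ℤ} {N k l : ℕ} (hN : N = k * l)
    {ξ : (AlgebraicClosure ℚ ≃ₐ[ℚ] AlgebraicClosure ℚ) → AlgPt (EQ a b) ℚ}
    (hξ : IsCocycle (EQ a b) ξ) (h0 : ∀ σ, N • ξ σ = 0)
    (h : ∀ (q : ℕ) [Fact q.Prime], ∃ P, LocAt a b N ξ q P) :
    (fun σ => k • ξ σ) ∈ Zset a b l := by
  refine ⟨isCocycle_nsmul hξ k, fun σ => ?_, fun q _ _ => ?_⟩
  · change l • k • ξ σ = 0
    rw [← mul_smul, mul_comm l k, ← hN, h0]
  · obtain ⟨P, hP⟩ := h q
    exact ⟨P, locG_nsmul hN hP⟩

end Pool.Agent.N890.US
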