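import Pool.Agent.N890.US.Kum
import Pool.Agent.N890.FD.Desc

/-! Project US (helper890): reduction of the `p`-adic points of the family. -/

set_option autoImplicit false

namespace Pool.Agent.N890.US

open NumberField WeierstrassCurve Pool.Agent.TH942 Pool.Agent.TH954 Pool.Agent.H901R3.MS
open Pool.Agent.N89.CI Pool.Agent.N890.FD
open Pool.Agent.Y213.T6 (exists_redW bc_eq)

theorem toZMod_zero_of {p : ℕ} [Fact p.Prime] (x : ℤ_[p]) (h : ‖x‖ < 1) :
    PadicInt.toZMod x = 0 := by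
  have h3 : x ∈ RingHom.ker (PadicInt.toZMod : ℤ_[p] →+* ZMod p) := by
    rw [PadicInt.ker_toZMod, IsLocalRing.mem_maximalIdeal, PadicInt.mem_nonunits]
    exact h
  exact h3

/-- the place of `ℚ_p` -/
noncomputable def plP (p : ℕ) [Fact p.Prime] : Place ℚ_[p] (ZMod p) where
  A := PadicInt.subring p
  ρ := (PadicInt.toZMod : ℤ_[p] →+* ZMod p)
  inv_of_notMem := by
    intro x hx
    have h1 : 1 < ‖x‖ := not_le.1 hx
    have h2 : ‖x⁻¹‖ < 1 := by
      rw [norm_inv]
      exact inv_lt_one_of_one_lt₀ h1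
    exact ⟨h2.le, toZMod_zero_of (⟨x⁻¹, h2.le⟩ : ℤ_[p]) h2⟩
  inv_of_ne := by
    intro x hx
    by_contra hcon
    apply hx
    have h0 : ‖(x : ℚ_[p])‖ ≤ 1 := x.2
    have h1 : ‖(x : ℚ_[p])‖ < 1 := by
      refine lt_of_le_of_ne h0 fun h => hcon ?_
      change ‖(x : ℚ_[p])⁻¹‖ ≤ 1
      rw [norm_inv, h, inv_one]
    exact toZMod_zero_of (⟨x, h0⟩ : ℤ_[p]) h1

open scoped Classical in
/-- reduction of the `p`-adic points of the members of the family -/
theorem exists_redP {r m : ℕ} {ι : Type} [Fintype ι] (a b : Fin r → ℤ) {L' : Type}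
    (G' : L' → Pol ℤ r m ι) (d : L' → Fin r → ℕ) (e : L' → ℕ) (hG' : ∀ l, MHomog (G' l) (d l) (e l))
    (p : ℕ) [Fact p.Prime] (hd : ∀ i, Disc (a i : ZMod p) (b i : ZMod p)) :
    ∃ red : ∀ i, ((EQ (a i) (b i)).baseChange ℚ_[p]).toAffine.Point →+
        Pt (a i : ZMod p) (b i : ZMod p),
      ∀ (P : ∀ i, ((EQ (a i) (b i)).baseChange ℚ_[p]).toAffine.Point) (t : ι → ℤ),
        PtOver (Int.castRingHom ℚ) (a := a) (b := b) G' (fun s => (t s : ℚ)) ℚ_[p] P →
        ∃ T : Fin (m + 1) → ZMod p, T ≠ 0 ∧ ∀ l, valP (Int.castRingHom (ZMod p)) (G' l)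
          (fun i => rep (red i (P i))) T (fun s => (t s : ZMod p)) = 0 := by
  have hint : ∀ x : ℤ, algebraMap ℚ ℚ_[p] (x : ℚ) = (x : ℚ_[p]) := fun x => map_intCast _ x
  have hW : ∀ i, (EQ (a i) (b i)).baseChange ℚ_[p] = CV (a i : ℚ_[p]) (b i : ℚ_[p]) := by
    intro i
    rw [bc_eq, hint, hint]
  have hred := fun i => exists_redW (plP p) ((plP p).int_mem (a i)) ((plP p).int_mem (b i))
    ((plP p).r_int (a i)) ((plP p).r_int (b i)) (hd i) _ (hW i)
  choose red hred0 hred1 using hred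
  have hcast : (algebraMap ℚ ℚ_[p]).comp (Int.castRingHom ℚ) = Int.castRingHom ℚ_[p] :=
    RingHom.ext_int _ _
  refine ⟨red, fun P t h => ?_⟩
  obtain ⟨T, hT, h0⟩ := h
  rw [hcast] at h0
  obtain ⟨T', hT', h1⟩ := local_ptV (plP p) (Int.castRingHom ℚ_[p]) (Int.castRingHom (ZMod p))
    (fun x => ⟨(plP p).int_mem x, (plP p).r_int x⟩) (fun i => crd (P i))
    (fun i => rep (red i (P i))) (fun i => hred1 i (P i)) G' d e hG' _
    (fun s => by
      rw [hint]
      exact (plP p).int_mem (t s)) T hT h0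
  refine ⟨T', hT', fun l => ?_⟩
  have h2 := h1 l
  have h3 : (fun s => (plP p).r (algebraMap ℚ ℚ_[p] (t s : ℚ))) = fun s => (t s : ZMod p) := by
    funext s
    rw [hint]
    exact (plP p).r_int (t s)
  rwa [h3] at h2

/-- divisibility by a squarefree number -/
theorem exists_smul_of_prod {G : Type} [AddCommGroup G] (z : G) (S : Finset ℕ)
    (hS : ∀ l ∈ S, l.Prime) (h : ∀ l ∈ S, ∃ y : G, z = l • y) : ∃ y : G, z = (∏ l ∈ S, l) • y := by
  induction S using Finset.induction_on with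
  | empty => exact ⟨z, by simp⟩
  | insert l S hl ih =>
    obtain ⟨y, hy⟩ := h l (Finset.mem_insert_self _ _)
    obtain ⟨y', hy'⟩ := ih (fun l' h' => hS l' (Finset.mem_insert_of_mem h'))
      (fun l' h' => h l' (Finset.mem_insert_of_mem h'))
    have hlp := hS l (Finset.mem_insert_self _ _)
    have hco : Nat.Coprime l (∏ l' ∈ S, l') := by
      apply Nat.Coprime.prod_right
      intro l' hl'
      exact (Nat.coprime_primes hlp (hS l' (Finset.mem_insert_of_mem hl'))).2
        (fun hll => hl (hll ▸ hl'))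
    have hbez := Nat.gcd_eq_gcd_ab l (∏ l' ∈ S, l')
    rw [hco] at hbez
    set q : ℕ := ∏ l' ∈ S, l' with hq
    refine ⟨l.gcdA q • y' + l.gcdB q • y, ?_⟩
    rw [Finset.prod_insert hl, ← hq]
    have e1 : z = ((l : ℤ) * l.gcdA q + (q : ℤ) * l.gcdB q) • z := by
      rw [← hbez, Nat.cast_one, one_zsmul]
    have e2 : ((l : ℤ) * l.gcdA q) • z = (l * q) • (l.gcdA q • y') := by
      conv_lhs => rw [hy']
      rw [← natCast_zsmul y' q, ← natCast_zsmul _ (l * q), ← mul_smul, ← mul_smul]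
      congr 1
      push_cast
      ring
    have e3 : ((q : ℤ) * l.gcdB q) • z = (l * q) • (l.gcdB q • y) := by
      conv_lhs => rw [hy]
      rw [← natCast_zsmul y l, ← natCast_zsmul _ (l * q), ← mul_smul, ← mul_smul]
      congr 1
      push_cast
      ring
    rw [smul_add, ← e2, ← e3, ← add_smul]
    exact e1

/-- divisibility by a squarefree number -/
theorem exists_smul_of_sqf {G : Type} [AddCommGroup G] (z : G) (N : ℕ) (hN : Squarefree N)
    (h : ∀ l ∈ N.primeFactors, ∃ y : G, z = l • y) : ∃ y : G, z = N • y := by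
  obtain ⟨y, hy⟩ := exists_smul_of_prod z N.primeFactors (fun l hl => Nat.prime_of_mem_primeFactors hl) h
  refine ⟨y, ?_⟩
  rwa [Nat.prod_primeFactors_of_squarefree hN] at hy

end Pool.Agent.N890.US
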