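import Pool.Agent.N890.US.Core
import Pool.Agent.TH954.SEt2

/-! Project US (helper890): locally geometric sections give Selmer classes. -/

set_option autoImplicit false
set_option linter.unusedSectionVars false

namespace Pool.Agent.N890.US

open NumberField WeierstrassCurve Pool.Agent.TH942 Pool.Agent.TH954
open Pool.Agent.N89.CI Pool.Agent.N890.FD

section loc

variable {K : Type} [Field K] [CharZero K] {M : Type} [Field M] [Algebra K M]

open scoped Classical in
/-- the local points given by a compatible place -/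
theorem loc_point {L : Type} [Field L] [CharZero L] [Algebra K L] (A : SAct K M)
    (pl : Plc K M (AlgebraicClosure L)) (hpl : GeoPlc A pl) {r m : ℕ} {ι L' R : Type} [Fintype ι]
    [CommRing R] (ρ : R →+* K) (a b : Fin r → ℤ)
    (hD : ∀ i, 4 * (a i : K) ^ 3 + 27 * (b i : K) ^ 2 ≠ 0) (G' : L' → Pol R r m ι)
    (d : L' → Fin r → ℕ) (e : L' → ℕ) (hG' : ∀ l, MHomog (G' l) (d l) (e l)) (t : ι → K)
    (P Q : ∀ i, ((sw (a i : K) (b i : K)).baseChange M).toAffine.Point)
    (T : Fin (m + 1) → M) (hT : T ≠ 0) (hP : ∀ i τ, A.pt (a i : K) (b i : K) τ (P i) = P i)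
    (hTf : ∀ s τ, A.s τ (T s) = T s)
    (h0 : ∀ l, valP ((algebraMap K M).comp ρ) (G' l) (fun i => crd (P i)) T
      (fun s => algebraMap K M (t s)) = 0)
    (N : ℕ) (hQ : ∀ i, N • Q i = P i)
    (ξ : ∀ i, (AlgebraicClosure K ≃ₐ[K] AlgebraicClosure K) → AlgPt (sw (a i : K) (b i : K)) K)
    (hξ : ∀ i σ, pm (sw (a i : K) (b i : K)) A.j (ξ i σ) =
      A.pt (a i : K) (b i : K) σ (Q i) - Q i) :
    ∃ (P' : ∀ i, ((sw (a i : K) (b i : K)).baseChange L).toAffine.Point)
      (Q' : ∀ i, AlgPt (sw (a i : K) (b i : K)) L),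
      PtOver ρ (a := a) (b := b) G' t L P' ∧
      (∀ i, N • Q' i = incl (sw (a i : K) (b i : K)) L (P' i)) ∧
      ∀ i σ τ, Compat (pl.iot A.j) σ τ → pm (sw (a i : K) (b i : K)) (pl.iot A.j) (ξ i τ) =
        act (sw (a i : K) (b i : K)) σ (Q' i) - Q' i := by
  have hcL : CharZero (AlgebraicClosure L) :=
    charZero_of_injective_algebraMap (algebraMap L (AlgebraicClosure L)).injective
  choose red h1 h2 using fun i => exists_redM pl (hD i)
  have hfix : ∀ i, ∃ z, incl (sw (a i : K) (b i : K)) L z = red i (P i) := fun i =>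
    exists_of_fixed _ (fun σ => (cocycle_local A hpl (h1 i) (h2 i) (hξ i)).2 (P i) (hP i) σ)
  choose P' hP' using hfix
  -- the point of the projective space
  obtain ⟨s₀, hs₀, hs₁⟩ := exists_primitive pl.toPlace T hT
  have hmem : ∀ s, (T s₀)⁻¹ * T s ∈ pl.W := fun s => hs₁ s
  have hfixT : ∀ s τ, A.s τ ((T s₀)⁻¹ * T s) = (T s₀)⁻¹ * T s := by
    intro s τ
    rw [map_mul, map_inv₀, hTf, hTf]
  have hex : ∀ s, ∃ w : L, algebraMap L (AlgebraicClosure L) w =
      pl.ρ ⟨(T s₀)⁻¹ * T s, hmem s⟩ := by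
    intro s
    have h3 : pl.ρ ⟨(T s₀)⁻¹ * T s, hmem s⟩ ∈ Set.range (algebraMap L (AlgebraicClosure L)) := by
      rw [InfiniteGalois.mem_range_algebraMap_iff_fixed]
      intro σ
      obtain ⟨τ, hτ⟩ := exists_compat (pl.iot A.j) σ
      obtain ⟨h4, h5⟩ := hpl σ τ hτ ⟨(T s₀)⁻¹ * T s, hmem s⟩
      rw [← h5]
      congr 1
      exact Subtype.ext (hfixT s τ)
    exact h3
  choose w hw using hex
  have hw1 : w s₀ = 1 := by
    apply (algebraMap L (AlgebraicClosure L)).injective
    rw [hw, map_one, ← map_one pl.ρ]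
    congr 1
    exact Subtype.ext (inv_mul_cancel₀ hs₀)
  refine ⟨P', fun i => red i (Q i), ⟨w, ?_, fun l => ?_⟩, fun i => ?_, fun i σ τ hστ => ?_⟩
  · intro h
    have := congrFun h s₀
    rw [hw1] at this
    exact one_ne_zero this
  · choose u hu0 hu using fun i => red_crd (pl := pl) (red := red i) (map_zero (red i)) (h1 i)
      (h2 i) (P i)
    choose hm he using hu
    apply (algebraMap L (AlgebraicClosure L)).injective
    rw [map_zero, valP_map]
    -- the value in the valuation ring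
    have h3 : valP (pl.cst.comp ρ) (G' l) (fun i j => (⟨u i * crd (P i) j, hm i j⟩ : pl.W))
        (fun s => (⟨(T s₀)⁻¹ * T s, hmem s⟩ : pl.W)) (fun s => pl.cst (t s)) = 0 := by
      apply Subtype.ext
      have h4 := valP_map (pl.cst.comp ρ) (pl.W.subtype : pl.W →+* M) (G' l)
        (fun i j => (⟨u i * crd (P i) j, hm i j⟩ : pl.W))
        (fun s => (⟨(T s₀)⁻¹ * T s, hmem s⟩ : pl.W)) (fun s => pl.cst (t s))
      have h5 := valP_scale ((algebraMap K M).comp ρ) (G' l) (d l) (e l) (hG' l)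
        (fun i => crd (P i)) T (fun s => algebraMap K M (t s)) u (T s₀)⁻¹
      rw [h0 l, mul_zero] at h5
      exact h4.trans h5
    have h6 := congrArg pl.ρ h3
    rw [map_zero, valP_map] at h6
    refine Eq.trans ?_ h6
    have e1 : ((algebraMap L (AlgebraicClosure L)).comp ((algebraMap K L).comp ρ)) =
        (pl.ρ.comp (pl.cst.comp ρ)) := by
      ext x
      change algebraMap L (AlgebraicClosure L) (algebraMap K L (ρ x)) = pl.ρ (pl.cst (ρ x))
      rw [pl.rho_cst]
      exact (IsScalarTower.algebraMap_apply K L (AlgebraicClosure L) (ρ x)).symm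
    have e2 : (fun i j => algebraMap L (AlgebraicClosure L) (crd (P' i) j)) =
        fun i j => pl.ρ ⟨u i * crd (P i) j, hm i j⟩ := by
      funext i j
      rw [he i j, ← hP' i]
      exact (crd_pm (IsScalarTower.toAlgHom K L (AlgebraicClosure L)) (P' i) j).symm
    have e3 : (fun s => algebraMap L (AlgebraicClosure L) (w s)) =
        fun s => pl.ρ ⟨(T s₀)⁻¹ * T s, hmem s⟩ := by
      funext s
      exact hw s
    have e4 : (fun s => algebraMap L (AlgebraicClosure L) (algebraMap K L (t s))) =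
        fun s => pl.ρ (pl.cst (t s)) := by
      funext s
      rw [pl.rho_cst]
      exact (IsScalarTower.algebraMap_apply K L (AlgebraicClosure L) (t s)).symm
    rw [e1, e2, e3, e4]
  · rw [hP', ← hQ i]
    exact (map_nsmul (red i) _ _).symm
  · exact (cocycle_local A hpl (h1 i) (h2 i) (hξ i)).1 σ τ hστ

end loc

section sec

variable {K : Type} [Field K] [CharZero K] {F Ω M B : Type} [Field F] [Field Ω] [Field M]
  [Field B] [Algebra K F] [Algebra F Ω] [Algebra K Ω] [IsScalarTower K F Ω] [Algebra F M]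
  [Algebra K M] [IsScalarTower K F M] [Algebra K B] [IsAlgClosure F Ω] [IsAlgClosure K B]

/-- places compatible with a section -/
theorem geo_of_given {L : Type} [Field L] [Algebra K L] (hMalg : Algebra.IsAlgebraic F M)
    (s : GalSection K F M B)
    (p : Plc K M (AlgebraicClosure L)) (hp : s.GivenBy L p) : GeoPlc (toSAct s) p := by
  intro σ τ hστ x
  refine hp σ ((eqv K B).autCongr τ) ?_ x _ ⟨x.2, rfl⟩
  intro z c hc
  obtain ⟨y, rfl⟩ := (eqv K B).surjective z
  have e1 : p.val ((toSAct s).j y) (p.iot (toSAct s).j y) := Plc.val_j _ y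
  have e2 : p.val ((toSAct s).j (τ y)) (p.iot (toSAct s).j (τ y)) := Plc.val_j _ (τ y)
  have e3 : s.j ((eqv K B).autCongr τ (eqv K B y)) = (toSAct s).j (τ y) := by
    change s.j (eqv K B (τ ((eqv K B).symm (eqv K B y)))) = _
    rw [AlgEquiv.symm_apply_apply]
    rfl
  have e4 : p.iot (toSAct s).j y = c := e1.unique hc
  rw [e3, ← e4, ← hστ y]
  exact e2

open scoped Classical in
/-- the Selmer class of a section which is locally given by places, over a field `K` -/
theorem sel_of_section_K {r m : ℕ} {ι L' R : Type} [Fintype ι]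
    [CommRing R] (ρ : R →+* K) (a b : Fin r → ℤ)
    (hD : ∀ i, 4 * (a i : K) ^ 3 + 27 * (b i : K) ^ 2 ≠ 0) (G' : L' → Pol R r m ι)
    (d : L' → Fin r → ℕ) (e : L' → ℕ) (hG' : ∀ l, MHomog (G' l) (d l) (e l)) (t : ι → K)
    (emb : M →ₐ[F] Ω)
    (P : ∀ i, ((sw (a i : K) (b i : K)).baseChange F).toAffine.Point)
    (T : Fin (m + 1) → F) (hT : T ≠ 0)
    (h0 : ∀ l, valP ((algebraMap K F).comp ρ) (G' l) (fun i => crd (P i)) T
      (fun s => algebraMap K F (t s)) = 0)
    (s : GalSection K F M B) (N : ℕ) (hN : 1 ≤ N)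
    (hdiv : ∀ i, ∃ Q : ((sw (a i : K) (b i : K)).baseChange M).toAffine.Point,
      N • Q = pm (sw (a i : K) (b i : K)) (IsScalarTower.toAlgHom K F M) (P i)) :
    ∃ ξ : ∀ i, (AlgebraicClosure K ≃ₐ[K] AlgebraicClosure K) → AlgPt (sw (a i : K) (b i : K)) K,
      (∀ i, IsCocycle (sw (a i : K) (b i : K)) (ξ i)) ∧ (∀ i σ, N • ξ i σ = 0) ∧
      ∀ (L : Type) [Field L] [CharZero L] [Algebra K L] (p : Plc K M (AlgebraicClosure L)),
        s.GivenBy L p →
        ∃ (ι₀ : AlgebraicClosure K →ₐ[K] AlgebraicClosure L)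
          (P' : ∀ i, ((sw (a i : K) (b i : K)).baseChange L).toAffine.Point)
          (Q' : ∀ i, AlgPt (sw (a i : K) (b i : K)) L),
          PtOver ρ (a := a) (b := b) G' t L P' ∧
          (∀ i, N • Q' i = incl (sw (a i : K) (b i : K)) L (P' i)) ∧
          ∀ i σ τ, Compat ι₀ σ τ → pm (sw (a i : K) (b i : K)) ι₀ (ξ i τ) =
            act (sw (a i : K) (b i : K)) σ (Q' i) - Q' i := by
  have hΩ1 : IsAlgClosed Ω := IsAlgClosure.isAlgClosed F
  have hΩ2 : Algebra.IsAlgebraic F Ω := IsAlgClosure.isAlgebraic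
  have hMalg : Algebra.IsAlgebraic F M := Algebra.IsAlgebraic.of_injective emb emb.injective
  have hcΩ : CharZero Ω := charZero_of_injective_algebraMap (algebraMap K Ω).injective
  set A := toSAct s with hA
  have hAF : ∀ (τ : AlgebraicClosure K ≃ₐ[K] AlgebraicClosure K) (x : F),
      A.s τ (algebraMap F M x) = algebraMap F M x :=
    fun τ x => (s.s ((eqv K B).autCongr τ)).commutes x
  have hP'f : ∀ i τ, A.pt (a i : K) (b i : K) τ
      (pm (sw (a i : K) (b i : K)) (IsScalarTower.toAlgHom K F M) (P i)) =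
      pm (sw (a i : K) (b i : K)) (IsScalarTower.toAlgHom K F M) (P i) := by
    intro i τ
    change pm (sw (a i : K) (b i : K)) _ (pm (sw (a i : K) (b i : K)) _ (P i)) =
      pm (sw (a i : K) (b i : K)) _ (P i)
    rw [pm_pm]
    congr 2
    apply AlgHom.ext
    intro x
    exact hAF τ x
  choose Q hQ using hdiv
  have hcoc := fun i => exists_cocycle A (hQ i) (hP'f i)
    (fun T hT => torsion_mem_sub (hD i) (emb.restrictScalars K) A.j N hN T hT)
  choose ξ hξ hξN hξj using hcoc
  refine ⟨ξ, hξ, hξN, fun L _ _ _ p hp => ?_⟩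
  obtain ⟨P', Q', h1, h2, h3⟩ := loc_point A p (geo_of_given hMalg s p hp) ρ a b hD G' d e hG' t
    (fun i => pm (sw (a i : K) (b i : K)) (IsScalarTower.toAlgHom K F M) (P i)) Q
    (fun i => algebraMap F M (T i)) (by
      intro h
      apply hT
      funext i
      exact (algebraMap F M).injective (by
        rw [Pi.zero_apply, map_zero]
        exact congrFun h i)) hP'f (fun i τ => hAF τ (T i)) (fun l => by
      have h1 := valP_map ((algebraMap K F).comp ρ) (algebraMap F M) (G' l) (fun i => crd (P i)) T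
        (fun s => algebraMap K F (t s))
      rw [h0 l, map_zero] at h1
      rw [h1]
      congr 1
      · ext x
        exact IsScalarTower.algebraMap_apply K F M (ρ x)
      · funext i j
        exact crd_pm _ _ _
      · funext i
        exact IsScalarTower.algebraMap_apply K F M (t i)) N hQ ξ hξj
  exact ⟨_, P', Q', h1, h2, h3⟩

end sec

open scoped Classical in
/-- the Selmer class of a section over `ℚ` which is given by places over all the `ℚ_p` -/
theorem sel_of_section {r m : ℕ} {ι L' : Type} [Fintype ι] (a b : Fin r → ℤ)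
    (hdisc : ∀ i, 4 * a i ^ 3 + 27 * b i ^ 2 ≠ 0) (G' : L' → Pol ℤ r m ι)
    (d : L' → Fin r → ℕ) (e : L' → ℕ) (hG' : ∀ l, MHomog (G' l) (d l) (e l)) (N : ℕ) (hN : 1 ≤ N)
    (t : ι → ℤ) {F Ω M B : Type} [Field F] [Field Ω] [Field M]
    [Field B] [Algebra ℚ F] [Algebra F Ω] [Algebra ℚ Ω] [IsScalarTower ℚ F Ω] [Algebra F M]
    [Algebra ℚ M] [IsScalarTower ℚ F M] [Algebra ℚ B] [IsAlgClosure F Ω] [IsAlgClosure ℚ B]
    (emb : M →ₐ[F] Ω) (P : ∀ i, ((EQ (a i) (b i)).baseChange F).toAffine.Point)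
    (T : Fin (m + 1) → F) (hT : T ≠ 0)
    (h0 : ∀ l, valP (Int.castRingHom F) (G' l) (fun i => crd (P i)) T (fun s => (t s : F)) = 0)
    (s : GalSection ℚ F M B)
    (hdiv : ∀ i, ∃ Q : ((EQ (a i) (b i)).baseChange M).toAffine.Point,
      N • Q = pm (EQ (a i) (b i)) (IsScalarTower.toAlgHom ℚ F M) (P i))
    (hp : ∀ (q : ℕ) [Fact q.Prime],
      ∃ p : Plc ℚ M (AlgebraicClosure ℚ_[q]), s.GivenBy ℚ_[q] p) :
    (SelQ a b G' N t).Nonempty := by
  have hD : ∀ i, 4 * (a i : ℚ) ^ 3 + 27 * (b i : ℚ) ^ 2 ≠ 0 := fun i => by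
    exact_mod_cast hdisc i
  obtain ⟨ξ, h1, h2, h3⟩ := sel_of_section_K (Int.castRingHom ℚ) a b hD G' d e hG'
    (fun s => (t s : ℚ)) emb P T hT (fun l => by
      have e1 : (algebraMap ℚ F).comp (Int.castRingHom ℚ) = Int.castRingHom F :=
        RingHom.ext_int _ _
      have e2 : (fun s => algebraMap ℚ F ((t s : ℤ) : ℚ)) = fun s => ((t s : ℤ) : F) := by
        funext s
        exact map_intCast _ _
      rw [e1, e2]
      exact h0 l) s N hN hdiv
  refine ⟨ξ, h1, h2, fun q _ => ?_⟩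
  obtain ⟨p, hp⟩ := hp q
  exact h3 ℚ_[q] p hp

end Pool.Agent.N890.US
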